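import Mathlib
import Pool.Agent.BLie.AB2

/-! Binary-Lie identities in characteristic two. -/

set_option linter.unusedSimpArgs false
set_option linter.unusedSectionVars false
set_option linter.unusedVariables false
set_option linter.unnecessarySeqFocus false

namespace Pool.Agent.BLie.C2

open Pool.Agent.BLie

/-- Algebras over rings of characteristic two with the linearised binary-Lie identity, together
with an element `x` for which the unlinearised identities hold. -/
structure BX {A : Type*} [NonUnitalNonAssocRing A] (x : A) : Prop where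
  ch : ∀ a : A, a + a = 0
  comm : ∀ a b : A, a * b = b * a
  lin : ∀ a b c d : A,
    J (a * b) c d + J (a * d) c b + J (c * b) a d + J (c * d) a b = 0
  gm : ∀ a b : A, J x (x * a) b = J x a (x * b)
  six : ∀ a b c : A, J (x * a) (x * (x * b)) c + J (x * b) (x * (x * a)) c +
    J (x * a) (x * (x * c)) b + J (x * c) (x * (x * a)) b +
    J (x * b) (x * (x * c)) a + J (x * c) (x * (x * b)) a = 0

section basic

variable {A : Type*} [NonUnitalNonAssocRing A] {x : A}

theorem BX.neg (h : BX x) (a : A) : -a = a := by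
  rw [neg_eq_iff_add_eq_zero]; exact h.ch a

theorem BX.eq_of (h : BX x) {a b : A} (hab : a + b = 0) : a = b := by
  rw [eq_neg_of_add_eq_zero_left hab, h.neg]

theorem BX.s12 (h : BX x) (a b c : A) : J a b c = J b a c := by
  unfold J
  rw [h.comm a b, h.comm b c, h.comm c a]
  abel

theorem BX.s23 (h : BX x) (a b c : A) : J a b c = J a c b := by
  rw [J_cyc, h.s12 b c a, J_cyc c b a, J_cyc b a c]

theorem BX.s13 (h : BX x) (a b c : A) : J a b c = J c b a := by
  rw [h.s12, J_cyc, h.s12 a c b, J_cyc, J_cyc, h.s12]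

theorem BX.g12 (h : BX x) (a b c d : A) : gg a b c d = gg b a c d := by
  unfold gg
  rw [h.comm a b, h.s23 (c * d) a b]

theorem BX.g34 (h : BX x) (a b c d : A) : gg a b c d = gg a b d c := by
  unfold gg
  rw [h.comm c d, h.s23 (a * b) c d]

theorem BX.g24 (h : BX x) (a b c d : A) : gg a b c d = gg a d c b := by
  have := h.lin a b c d
  unfold gg
  apply h.eq_of
  rw [← this]
  abel

theorem BX.g23 (h : BX x) (a b c d : A) : gg a b c d = gg a c b d := by
  rw [h.g34 a b c d, h.g24 a b d c, h.g34 a c d b]

/-- The universal identity for Jacobians. -/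
theorem BX.gS (h : BX x) (p q r t : A) :
    gg p q r t = J p r t * q + J q r t * p + J p q t * r + J p q r * t := by
  have k := univ_id (A := A) (fun a b => by rw [h.neg, h.comm]) p q r t
  rw [h.g34 p t q r, h.g24 p t r q, h.g34 p r t q, h.g24 p r q t, h.g34 p t q r,
    h.g24 p t r q] at k
  have e : gg p q r t + gg p q r t + gg p q r t = gg p q r t := by
    rw [h.ch, zero_add]
  rw [e] at k
  rw [k, sub_eq_add_neg, sub_eq_add_neg, h.neg, h.neg]

theorem BX.gx2 (h : BX x) (y p q r : A) :
    gg y p q r = J (y * q) p r + J y q (p * r) := by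
  rw [← gg_x1]; exact h.g23 y p q r

theorem BX.gx3 (h : BX x) (y p q r : A) :
    gg y p q r = J (y * r) p q + J y r (p * q) := by
  rw [← gg_x1, h.g23 y r p q, h.g34 y p r q]

theorem BX.gx4 (h : BX x) (y p q r : A) :
    gg y p q r = y * J p q r + (J y q r) * p + (J y p r) * q + (J y p q) * r := by
  rw [h.gS y p q r, h.comm (J p q r) y]
  abel

theorem BX.x_mul (h : BX x) (y a b : A) :
    y * (a * b) = (y * a) * b + a * (y * b) + J y a b := by
  unfold J
  rw [h.comm (a * b) y, h.comm b y, h.comm (y * b) a]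
  have e1 := h.ch ((y * a) * b)
  have e2 := h.ch (a * (y * b))
  symm
  calc y * a * b + a * (y * b) + (y * a * b + y * (a * b) + a * (y * b))
      = (y * a * b + y * a * b) + (a * (y * b) + a * (y * b)) + y * (a * b) := by abel
    _ = y * (a * b) := by rw [e1, e2]; simp

end basic

section module

variable {R A : Type*} [CommRing R] [NonUnitalNonAssocRing A] [Module R A]
  [IsScalarTower R A A] [SMulCommClass R A A] {x : A}

theorem BX.G_eig (h : BX x) {p q : A} {α β : R} (hp : x * p = α • p) (hq : x * q = β • q) :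
    (α - β) • J x p q = 0 := by
  have := h.gm p q
  rw [hp, hq, J_smul2, J_smul3] at this
  rw [sub_smul, this, sub_self]

theorem BX.G_def (h : BX x) {p q : A} {α β : R} (hp : x * p = α • p) (hq : x * q = β • q) :
    x * (p * q) = (α + β) • (p * q) + J x p q := by
  rw [h.x_mul, hp, hq, smul_mul_assoc, mul_smul_comm, add_smul]

theorem BX.eig_mul (h : BX x) {p q : A} {α β : R} (hp : x * p = α • p) (hq : x * q = β • q)
    (h0 : J x p q = 0) : x * (p * q) = (α + β) • (p * q) := by
  rw [h.G_def hp hq, h0, add_zero]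

/-- The three expressions for `gg x p q y` when `p` and `q` are eigenvectors. -/
theorem BX.three (h : BX x) {p q : A} {π ρ : R} (hp : x * p = π • p) (hq : x * q = ρ • q)
    (y : A) :
    π • J p q y + J x p (q * y) = ρ • J p q y + J x q (p * y) ∧
    π • J p q y + J x p (q * y) = J p q (x * y) + J x y (p * q) := by
  have h1 := gg_x1 x p q y
  have e2 := h.gx2 x p q y
  have e3 := h.gx3 x p q y
  rw [hp, J_smul1] at h1
  rw [hq, J_smul1, h.s12 q p y] at e2
  rw [J_cyc (x * y) p q] at e3
  exact ⟨by rw [← h1, e2], by rw [← h1, e3]⟩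

theorem BX.sub_kill (h : BX x) {p : A} {π : R} (hp : x * p = π • p) (y : A) :
    J x p (x * y - π • y) = 0 := by
  rw [J_sub3, J_smul3, ← h.gm, hp, J_smul2, sub_self]

theorem BX.shift2 (h2 : (2 : R) = 0) (h : BX x) {p q : A} {π ρ : R} (hp : x * p = π • p)
    (hq : x * q = ρ • q)
    (y : A) : J x q (p * (x * (x * y))) + π • J x q (p * (x * y)) =
      (ρ + π) • (J x q (p * (x * y)) + π • J x q (p * y)) := by
  have h0 := h.sub_kill hp y
  have h1 := h.x_mul x p (x * y - π • y)
  rw [h0, hp] at h1
  have h3 : J x q (x * (p * (x * y - π • y))) = J x q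
      (π • p * (x * y - π • y) + p * (x * (x * y - π • y)) + 0) := by rw [h1]
  rw [← h.gm, hq] at h3
  simp only [mul_sub, mul_smul_comm, smul_mul_assoc, J_sub3, J_add3, J_smul2, J_smul3, J_zero3,
    smul_sub, add_zero] at h3
  linear_combination (norm := (match_scalars <;> grind)) h3

/-- The cubic identity for two eigenvectors. -/
theorem BX.star (h2 : (2 : R) = 0) (h : BX x) {p q : A} {π ρ : R} (hp : x * p = π • p)
    (hq : x * q = ρ • q) (c0 : Can A (π + ρ)) (y : A) :
    J p q (x * (x * y)) = (π + ρ) • J p q (x * y) + (π * ρ) • J p q y := by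
  have k := h.six p q y
  simp only [hp, hq, mul_smul_comm, J_smul1, J_smul2, J_smul3, smul_smul] at k
  rw [h.s12 q p y, h.s23 p (x * (x * y)) q, h.s23 q (x * (x * y)) p, h.s12 q p,
    J_cyc (x * y) p q, J_cyc (x * y) q p, h.s12 q p (x * y)] at k
  have : (π + ρ) • (J p q (x * (x * y)) - ((π + ρ) • J p q (x * y) + (π * ρ) • J p q y)) = 0 := by
    linear_combination (norm := (match_scalars <;> grind)) k
  exact sub_eq_zero.mp (c0 _ this)

theorem BX.ABc (h2 : (2 : R) = 0) (h : BX x) {p q : A} {π ρ : R} (hp : x * p = π • p)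
    (hq : x * q = ρ • q) (c0 : Can A (π + ρ)) (y : A) :
    J x q (p * (x * y)) = π • J x q (p * y) + ρ • J x y (p * q) ∧
    J x p (q * (x * y)) = ρ • J x p (q * y) + π • J x y (p * q) ∧
    (ρ * π) • J x y (p * q) = 0 := by
  have c0' : Can A (π - ρ) := fun z hz => c0 z (by linear_combination (norm := (match_scalars <;> grind)) hz)
  have hpq : J x p q = 0 := c0' _ (h.G_eig hp hq)
  obtain ⟨a1, a2⟩ := h.three hp hq y
  obtain ⟨b1, b2⟩ := h.three hp hq (x * y)
  have e2 : J x (x * y) (p * q) = (π + ρ) • J x y (p * q) := by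
    rw [h.gm, h.eig_mul hp hq hpq, J_smul3]
  have st := h.star h2 hp hq c0 y
  have V : J x p (q * (x * y)) = ρ • J x p (q * y) + π • J x y (p * q) := by
    linear_combination (norm := (match_scalars <;> grind)) b2 - st - e2 + ρ • a2
  have U : J x q (p * (x * y)) = π • J x q (p * y) + ρ • J x y (p * q) := by
    linear_combination (norm := (match_scalars <;> grind)) b1 - V + (π + ρ) • a2 + π • a1
  refine ⟨U, V, ?_⟩
  -- the last expression for `gg`
  have g4 := h.gx4 x p q (x * (x * y) + (π + ρ) • (x * y) + (π * ρ) • y)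
  have g1 := gg_x1 x p q (x * (x * y) + (π + ρ) • (x * y) + (π * ρ) • y)
  rw [hpq, zero_mul, add_zero] at g4
  have jy : J p q (x * (x * y) + (π + ρ) • (x * y) + (π * ρ) • y) = 0 := by
    rw [J_add3, J_add3, J_smul3, J_smul3, st]
    linear_combination (norm := (match_scalars <;> grind)) (0 : R) • (rfl : y = y)
  have kp : J x p (x * (x * y) + (π + ρ) • (x * y) + (π * ρ) • y) = 0 := by
    rw [J_add3, J_add3, J_smul3, J_smul3, ← h.gm, hp, J_smul2, ← h.gm, hp, J_smul2]
    linear_combination (norm := (match_scalars <;> grind)) (0 : R) • (rfl : y = y)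
  have kq : J x q (x * (x * y) + (π + ρ) • (x * y) + (π * ρ) • y) = 0 := by
    rw [J_add3, J_add3, J_smul3, J_smul3, ← h.gm, hq, J_smul2, ← h.gm, hq, J_smul2]
    linear_combination (norm := (match_scalars <;> grind)) (0 : R) • (rfl : y = y)
  rw [jy, kp, kq, mul_zero, zero_mul, zero_mul] at g4
  rw [g4, hp, J_smul1, jy] at g1
  simp only [mul_add, mul_smul_comm, J_add3, J_smul3] at g1
  have V2 : J x p (q * (x * (x * y))) =
      ρ • J x p (q * (x * y)) + π • J x (x * y) (p * q) := by
    obtain ⟨d1, d2⟩ := h.three hp hq (x * (x * y))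
    have st' := h.star h2 hp hq c0 (x * y)
    have e2' : J x (x * (x * y)) (p * q) = (π + ρ) • J x (x * y) (p * q) := by
      rw [h.gm, h.eig_mul hp hq hpq, J_smul3]
    linear_combination (norm := (match_scalars <;> grind)) d2 - st' - e2' + ρ • b2
  rw [V2, V, e2] at g1
  linear_combination (norm := (match_scalars <;> grind)) g1

end module

end Pool.Agent.BLie.C2
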