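import Mathlib
import Pool.Agent.BLie.C2.Basic

/-! Products of two eigenvectors and four eigenvectors in characteristic two. -/

set_option linter.unusedSimpArgs false
set_option linter.unusedSectionVars false
set_option linter.unusedVariables false
set_option linter.unnecessarySeqFocus false

namespace Pool.Agent.BLie.C2

open Pool.Agent.BLie

section ab

variable {R A : Type*} [CommRing R] [NonUnitalNonAssocRing A] [Module R A]
  [IsScalarTower R A A] [SMulCommClass R A A] {x : A}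

theorem BX.G2 (h2 : (2 : R) = 0) (h : BX x) {p q : A} {α β : R} (hp : x * p = α • p)
    (hq : x * q = β • q) : (α + β) • J x p q = 0 := by
  have := h.G_eig hp hq
  linear_combination (norm := (match_scalars <;> grind)) this

theorem BX.AB (h2 : (2 : R) = 0) (h : BX x) {p q : A} {π ρ : R} (hp : x * p = π • p)
    (hq : x * q = ρ • q) (c0 : Can A (π + ρ)) (c1 : Can A π) (d1 : Can A ρ) (y : A) :
    J x q (p * (x * y)) = π • J x q (p * y) ∧ J x p (q * (x * y)) = ρ • J x p (q * y) ∧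
      J x (p * q) y = 0 := by
  obtain ⟨U, V, C⟩ := h.ABc h2 hp hq c0 y
  have C0 : J x y (p * q) = 0 := c1 _ (d1 _ (by rw [← mul_smul]; exact C))
  rw [C0, smul_zero, add_zero] at U V
  exact ⟨U, V, by rw [h.s23, C0]⟩

theorem BX.ABU (h2 : (2 : R) = 0) (h : BX x) {p q : A} {π ρ : R} (hp : x * p = π • p)
    (hq : x * q = ρ • q) (c0 : Can A (π + ρ)) (c1 : Can A π) (y : A) :
    J x q (p * (x * y)) = π • J x q (p * y) ∧ ρ • J x y (p * q) = 0 := by
  obtain ⟨U, V, C⟩ := h.ABc h2 hp hq c0 y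
  have C0 : ρ • J x y (p * q) = 0 := c1 _ (by rw [← mul_smul, mul_comm]; exact C)
  rw [C0, add_zero] at U
  exact ⟨U, C0⟩

theorem BX.AB_eig (h2 : (2 : R) = 0) (h : BX x) {p q y : A} {π ρ η : R} (hp : x * p = π • p)
    (hq : x * q = ρ • q) (hy : x * y = η • y)
    (c0 : Can A (π + ρ)) (c1 : Can A π) (c2' : Can A ρ) (d1 : Can A (η + π))
    (d2 : Can A (η + ρ)) :
    J p q y = 0 ∧ J x q (p * y) = 0 ∧ J x p (q * y) = 0 := by
  obtain ⟨a1, a2, a3⟩ := h.AB h2 hp hq c0 c1 c2' y
  rw [hy, mul_smul_comm, J_smul3] at a1 a2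
  have b1 : J x q (p * y) = 0 := d1 _ (by linear_combination (norm := (match_scalars <;> grind)) a1)
  have b2 : J x p (q * y) = 0 := d2 _ (by linear_combination (norm := (match_scalars <;> grind)) a2)
  obtain ⟨e1, -⟩ := h.three hp hq y
  refine ⟨c0 _ ?_, b1, b2⟩
  rw [b1, b2] at e1
  linear_combination (norm := (match_scalars <;> grind)) e1

/-- First consequences for three eigenvectors. -/
theorem BX.st1 (h2 : (2 : R) = 0) (h : BX x) {c a z : A} {γ α ζ : R} (hc : x * c = γ • c)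
    (ha : x * a = α • a)
    (hz : x * z = ζ • z) (cγ : Can A γ) (cα : Can A α) (cζ : Can A ζ) (cγζ : Can A (γ + ζ))
    (cαζ : Can A (α + ζ)) :
    J x c z = 0 ∧ J x a z = 0 ∧ (∀ b, J x (a * z) b = 0) ∧ (∀ b, J x (c * z) b = 0) ∧
    γ • J c a z = α • J c a z ∧ J x z (c * a) = (γ + ζ) • J c a z ∧
    J x c a * z = γ • J c a z + x * J c a z ∧
    J x z (J x c a) = ((γ + α + ζ) * (γ + ζ)) • J c a z := by
  have g1 : J x c z = 0 := cγζ _ (h.G2 h2 hc hz)
  have g2 : J x a z = 0 := cαζ _ (h.G2 h2 ha hz)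
  have g3 : ∀ b, J x (a * z) b = 0 := fun b => (h.AB h2 ha hz cαζ cα cζ b).2.2
  have g4 : ∀ b, J x (c * z) b = 0 := fun b => (h.AB h2 hc hz cγζ cγ cζ b).2.2
  have k1 := gg_x1 x c a z
  have k2 := h.gx2 x c a z
  have k3 := h.gx3 x c a z
  have k4 := h.gx4 x c a z
  rw [hc, J_smul1, h.s23 x c, g3, add_zero] at k1
  rw [ha, J_smul1, h.s23 x a, g4, add_zero, h.s12 a c z] at k2
  rw [hz, J_smul1, J_cyc z c a] at k3
  rw [g1, g2, zero_mul, zero_mul, add_zero, add_zero] at k4
  have m1 : γ • J c a z = α • J c a z := by rw [← k1, k2]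
  have m2 : J x z (c * a) = (γ + ζ) • J c a z := by
    linear_combination (norm := (match_scalars <;> grind)) k1 - k3
  have m3 : J x c a * z = γ • J c a z + x * J c a z := by
    rw [k1] at k4
    linear_combination (norm := (match_scalars <;> grind)) k4
  refine ⟨g1, g2, g3, g4, m1, m2, m3, ?_⟩
  have d := h.G_def hc ha
  have d' : J x c a = (γ + α) • (c * a) + x * (c * a) := by
    linear_combination (norm := (match_scalars <;> grind)) d
  rw [d', J_add3, J_smul3, ← h.gm, hz, J_smul2, m2]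
  linear_combination (norm := (match_scalars <;> grind)) (0 : R) • (rfl : J c a z = J c a z)

/-- The Jacobian of `x`, `y` and `J c a z` vanishes. -/
theorem BX.st2 (h2 : (2 : R) = 0) (h : BX x) {c a z y : A} {γ α ζ η : R} (hc : x * c = γ • c)
    (ha : x * a = α • a) (hz : x * z = ζ • z) (hy : x * y = η • y)
    (cγ : Can A γ) (cα : Can A α) (cζ : Can A ζ) (cγζ : Can A (γ + ζ))
    (cαζ : Can A (α + ζ)) (cζη : Can A (ζ + η)) (e1 : Can A (η + (γ + α + ζ)))
    (e2 : Can A (η + (α + ζ))) :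
    J x y (J c a z) = 0 ∧ J x y ((c * a) * z) = 0 := by
  obtain ⟨g1, g2, g3, g4, m1, m2, m3, m4⟩ := h.st1 h2 hc ha hz cγ cα cζ cγζ cαζ
  have w1 : x * ((a * z) * c) = (α + ζ + γ) • ((a * z) * c) :=
    h.eig_mul (h.eig_mul ha hz g2) hc (g3 c)
  have g1' : J x z c = 0 := by rw [h.s23, g1]
  have w2 : x * ((z * c) * a) = (ζ + γ + α) • ((z * c) * a) := by
    refine h.eig_mul (h.eig_mul hz hc g1') ha ?_
    rw [h.comm z c, g4]
  have l1 : J x y ((a * z) * c) = 0 := e1 _ (by
    have := h.G2 h2 hy w1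
    rw [← this]; congr 1; ring)
  have l2 : J x y ((z * c) * a) = 0 := e1 _ (by
    have := h.G2 h2 hy w2
    rw [← this]; congr 1; ring)
  have eF : J c a z = (c * a) * z + (a * z) * c + (z * c) * a := rfl
  have l3 : J x y (J c a z) = J x y ((c * a) * z) := by
    rw [eF, J_add3, J_add3, l1, l2, add_zero, add_zero]
  have u1 := (h.ABU h2 hz hy cζη cζ (c * a)).1
  have d := h.G_def hc ha
  rw [d, mul_add, mul_smul_comm, J_add3, J_smul3, h.comm z (J x c a), m3, J_add3,
    J_smul3, h.comm z (c * a), ← l3, ← h.gm, hy, J_smul2] at u1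
  have f : J x y (J c a z) = 0 := by
    apply e2
    linear_combination (norm := (match_scalars <;> grind)) u1
  exact ⟨f, by rw [← l3, f]⟩

/-- The exceptional weights of `y`. -/
def Spec (γ α ζ : R) : Set R :=
  {γ, α, ζ, γ + α + ζ, α + ζ, γ + ζ}

/-- The main vanishing result for four eigenvectors. -/
theorem BX.claim (h2 : (2 : R) = 0) (h : BX x) {c a z y : A} {γ α ζ η : R}
    (hc : x * c = γ • c)
    (ha : x * a = α • a) (hz : x * z = ζ • z) (hy : x * y = η • y)
    (cγ : Can A γ) (cα : Can A α) (cζ : Can A ζ) (cγζ : Can A (γ + ζ))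
    (cαζ : Can A (α + ζ)) (c5 : Can A (α + ζ + γ))
    (hS : ∀ ρ ∈ Spec γ α ζ, Can A (η + ρ)) :
    η • (J c a z * y) = 0 ∧ J x y (J c a z) = 0 ∧ η • J c a (z * y) = 0 ∧
      ζ • (J c a z * y) = x * J c a (z * y) := by
  have s1 : Can A (η + γ) := hS _ (by simp [Spec])
  have s2 : Can A (η + α) := hS _ (by simp [Spec])
  have s3 : Can A (η + ζ) := hS _ (by simp [Spec])
  have s3' : Can A (ζ + η) := by rw [add_comm]; exact s3
  have s4 : Can A (η + (γ + α + ζ)) := hS _ (by simp [Spec])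
  have s6 : Can A (η + (α + ζ)) := hS _ (by simp [Spec])
  have s7 : Can A (η + (γ + ζ)) := hS _ (by simp [Spec])
  have c5' : Can A (γ + ζ + α) := by
    rw [show γ + ζ + α = α + ζ + γ by ring]; exact c5
  obtain ⟨g1, g2, g3, g4, m1, m2, m3, m4⟩ := h.st1 h2 hc ha hz cγ cα cζ cγζ cαζ
  obtain ⟨f1, f2⟩ := h.st2 h2 hc ha hz hy cγ cα cζ cγζ cαζ s3' s4 s6
  set Fv := J c a z with hFv
  obtain ⟨p1, p2, p3⟩ := h.AB_eig h2 hc hz hy cγζ cγ cζ s1 s3
  obtain ⟨q1, q2, q3⟩ := h.AB_eig h2 ha hz hy cαζ cα cζ s2 s3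
  have haz : x * (a * z) = (α + ζ) • (a * z) := h.eig_mul ha hz g2
  have hcz : x * (c * z) = (γ + ζ) • (c * z) := h.eig_mul hc hz g1
  obtain ⟨r1, -⟩ := h.AB_eig h2 haz hc hy c5 cαζ cγ s6 s1
  obtain ⟨r2, -⟩ := h.AB_eig h2 hcz ha hy c5' cγζ cα s7 s2
  have gyc : J x y c = 0 := s1 _ (h.G2 h2 hy hc)
  have gya : J x y a = 0 := s2 _ (h.G2 h2 hy ha)
  have hyc := h.eig_mul hy hc gyc
  have hya := h.eig_mul hy ha gya
  -- the element `X`
  obtain ⟨X, hX⟩ : ∃ X, X = J (y * c) a z := ⟨_, rfl⟩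
  have Xgg : gg y c a z = X := by
    unfold gg
    rw [h.s23 (a * z) y c, r1, add_zero, hX]
  have X2' : X = J c z (y * a) := by
    rw [← Xgg, h.g23]
    unfold gg
    rw [h.s23 (c * z) y a, r2, add_zero, J_cyc]
  obtain ⟨Q, hQ⟩ : ∃ Q, Q = J c a y := ⟨_, rfl⟩
  have E1 : X = Fv * y + Q * z := by
    have k := h.gS y c a z
    rw [Xgg, J_cyc y a z, q1, J_cyc y c z, p1, J_cyc y c a, ← hQ] at k
    rw [k]
    simp [hFv]
  -- the first auxiliary element
  have gay : J x a y = 0 := by rw [h.s23, gya]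
  have hay : x * (a * y) = (α + η) • (a * y) := h.eig_mul ha hy gay
  have gayz : J x (a * y) z = 0 := by rw [h.s23, q2]
  have hayz := h.eig_mul hay hz gayz
  have gcayz : J x c ((a * y) * z) = 0 := s4 _ (by
    have := h.G2 h2 hc hayz
    rw [← this]; congr 1; ring)
  have Jcayz : J c (a * y) z = X := by
    rw [X2', h.comm a y, h.s23 c (y * a) z]
  obtain ⟨lam, hlam⟩ : ∃ lam, lam = J x c (a * y) := ⟨_, rfl⟩
  have E2 : lam * z = x * X + γ • X := by
    have k1 := gg_x1 x c (a * y) z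
    have k4 := h.gx4 x c (a * y) z
    rw [hc, J_smul1, gcayz, add_zero, Jcayz] at k1
    rw [k1, Jcayz, gayz, g1, ← hlam] at k4
    simp only [zero_mul, add_zero] at k4
    linear_combination (norm := (match_scalars <;> grind)) k4
  obtain ⟨D, hD⟩ : ∃ D, D = J x y (c * a) := ⟨_, rfl⟩
  have E3 : D = (γ + η) • Q + lam := by
    have k1 := gg_x1 x c a y
    have k3 := h.gx3 x c a y
    rw [hc, J_smul1, ← hQ, ← hlam] at k1
    rw [hy, J_smul1, J_cyc y c a, ← hQ, ← hD] at k3
    linear_combination (norm := (match_scalars <;> grind)) k1 - k3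
  have E4 : D * z = (γ + η) • (Fv * y) + x * X + η • X := by
    rw [E3, add_mul, smul_mul_assoc, E2]
    linear_combination (norm := (match_scalars <;> grind)) (γ + η) • E1
  obtain ⟨N, hN⟩ : ∃ N, N = J y (c * a) z := ⟨_, rfl⟩
  have E5 : D * z = η • N + x * N + (γ + ζ) • (Fv * y) := by
    have k1 := gg_x1 x y (c * a) z
    have k4 := h.gx4 x y (c * a) z
    have gzy : J x z y = 0 := s3' _ (h.G2 h2 hz hy)
    have gyz : J x y z = 0 := by rw [h.s23, gzy]
    rw [hy, J_smul1, f2, add_zero, ← hN] at k1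
    rw [k1, ← hN, h.s23 x (c * a) z, m2, gyz, ← hD] at k4
    simp only [zero_mul, smul_mul_assoc, add_zero] at k4
    linear_combination (norm := (match_scalars <;> grind)) k4
  have E6 : (ζ + η) • (Fv * y) = η • (X + N) + x * (X + N) := by
    rw [mul_add]
    linear_combination (norm := (match_scalars <;> grind)) E5 - E4
  obtain ⟨t, ht⟩ : ∃ t, t = z * y := ⟨_, rfl⟩
  have E7 : J c a t = X + N := by
    have k : gg y z c a = X := by
      rw [← Xgg, h.g24 y c a z, h.g23 y z a c, h.g34 y a z c, h.g23 y a c z,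
        h.g24 y c a z, h.g23 y z a c, h.g24 y a z c, h.g23 y c z a]
    unfold gg at k
    rw [h.comm y z, J_cyc (z * y) c a, h.s12 (c * a) y z, ← hN, ← ht] at k
    linear_combination (norm := (match_scalars <;> grind)) (1 : R) • k
  have ut : ∀ b, η • J x b t = 0 := fun b => by
    rw [ht]; exact (h.ABU h2 hz hy s3' cζ b).2
  have gzy : J x z y = 0 := s3' _ (h.G2 h2 hz hy)
  have hxt : x * t = (ζ + η) • t := by rw [ht]; exact h.eig_mul hz hy gzy
  have E8 : η • J x c (a * t) = 0 := by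
    have d := h.G_def ha hxt
    have k : J x c (x * (a * t)) = γ • J x c (a * t) := by rw [← h.gm, hc, J_smul2]
    rw [d, J_add3, J_smul3] at k
    have k2 : η • J x c (J x a t) = 0 := by rw [← J_smul3, ut, J_zero3]
    apply s4
    linear_combination (norm := (match_scalars <;> grind)) η • k + k2
  have E9 : η • J c a t = 0 := by
    have k1 := gg_x1 x c a t
    have k3 := h.gx3 x c a t
    rw [hc, J_smul1] at k1
    rw [hxt, J_smul1, J_cyc t c a, h.s23 x t (c * a)] at k3
    apply s7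
    linear_combination (norm := (match_scalars <;> grind)) η • k1 - η • k3 + ut (c * a) + E8
  have E9' := E9
  rw [E7] at E9
  have xXN : η • (x * (X + N)) = 0 := by rw [← mul_smul_comm, E9, mul_zero]
  have E10 : η • (Fv * y) = 0 := by
    apply s3'
    linear_combination (norm := (match_scalars <;> grind)) η • E6 + η • E9 + xXN
  refine ⟨E10, f1, by rw [← ht]; exact E9', ?_⟩
  rw [← ht, E7]
  linear_combination (norm := (match_scalars <;> grind)) E6 + E9 - E10

end ab

end Pool.Agent.BLie.C2
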