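import Mathlib
import Pool.Agent.BLie.C2.AB
import Pool.Agent.BLie.Func

/-! Adjoining a generic eigenvector and torsion quotients in characteristic two. -/

set_option linter.unusedSimpArgs false
set_option linter.unusedSectionVars false
set_option linter.unusedVariables false
set_option linter.unnecessarySeqFocus false

namespace Pool.Agent.BLie.C2

open Pool.Agent.BLie Polynomial

universe u v

section ext

variable {R : Type u} {A : Type u} [CommRing R] [NonUnitalNonAssocRing A] [Module R A]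
  [IsScalarTower R A A] [SMulCommClass R A A] {x : A}

theorem el_mul (h : BX x) (a b : A) (f g : ℕ → A) :
    (el a f * el b g : Ext R A) = el (a * b) (fun n => a * g n + f n * b) := by
  apply Ext.ext'
  · rw [Ext.mul_fst]
    unfold el
    simp only [Algebra.TensorProduct.tmul_mul_tmul, mul_one]
  · rw [Ext.mul_snd]
    unfold el
    simp only [act_one_tmul]
    apply seq_ext
    intro n
    rw [map_sub, Pi.sub_apply, seq_lamOne, seq_lamOne, LinearEquiv.apply_symm_apply,
      LinearEquiv.apply_symm_apply, LinearEquiv.apply_symm_apply, h.comm (f n) b, sub_eq_add_neg,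
      h.neg]

theorem el_J (h : BX x) (a b c : A) (f g k : ℕ → A) :
    (J (el a f) (el b g) (el c k) : Ext R A) =
      el (J a b c) (fun n => J (f n) b c + J a (g n) c + J a b (k n)) := by
  unfold J
  simp only [el_mul h, el_add]
  congr 1
  funext n
  simp only [mul_add, add_mul]
  abel

theorem Ext.ch (h : BX x) (w : Ext R A) : w + w = 0 := by
  refine span_ind (S := R[X]) span_el (fun w => w + w)
    (fun x y => by abel)
    (fun r x => by simp only [smul_add]) ?_ w
  rintro _ ⟨a, f, rfl⟩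
  simp only [el_add, h.ch]
  exact el_zero

theorem Ext.comm (h : BX x) (w w' : Ext R A) : w * w' = w' * w := by
  rw [← sub_eq_zero]
  revert w'
  refine fun w' => span_ind (S := R[X]) span_el (fun w => w * w' - w' * w)
    (fun x y => by simp only [add_mul, mul_add]; abel)
    (fun r x => by simp only [smul_mul_assoc, mul_smul_comm, smul_sub]) ?_ w
  rintro _ ⟨a, f, rfl⟩
  refine span_ind (S := R[X]) span_el (fun w' => el a f * w' - w' * el a f)
    (fun x y => by simp only [add_mul, mul_add]; abel)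
    (fun r x => by simp only [smul_mul_assoc, mul_smul_comm, smul_sub]) ?_ w'
  rintro _ ⟨b, g, rfl⟩
  rw [sub_eq_zero, el_mul h, el_mul h, h.comm a b]
  congr 1
  funext n
  rw [h.comm a (g n), h.comm (f n) b, add_comm]

theorem Ext.lin (h : BX x) (w1 w2 w3 w4 : Ext R A) :
    J (w1 * w2) w3 w4 + J (w1 * w4) w3 w2 + J (w3 * w2) w1 w4 + J (w3 * w4) w1 w2 = 0 := by
  refine span_ind (S := R[X]) span_el
    (fun w1 => J (w1 * w2) w3 w4 + J (w1 * w4) w3 w2 + J (w3 * w2) w1 w4 + J (w3 * w4) w1 w2)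
    (fun x y => by simp only [add_mul, mul_add, J_add1, J_add2, J_add3]; abel)
    (fun r x => by simp only [smul_mul_assoc, mul_smul_comm, smul_add, J_smul1, J_smul2, J_smul3])
    ?_ w1
  rintro _ ⟨a1, f1, rfl⟩
  refine span_ind (S := R[X]) span_el
    (fun w2 => J (el a1 f1 * w2) w3 w4 + J (el a1 f1 * w4) w3 w2 + J (w3 * w2) (el a1 f1) w4
      + J (w3 * w4) (el a1 f1) w2)
    (fun x y => by simp only [add_mul, mul_add, J_add1, J_add2, J_add3]; abel)
    (fun r x => by simp only [smul_mul_assoc, mul_smul_comm, smul_add, J_smul1, J_smul2, J_smul3])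
    ?_ w2
  rintro _ ⟨a2, f2, rfl⟩
  refine span_ind (S := R[X]) span_el
    (fun w3 => J (el a1 f1 * el a2 f2) w3 w4 + J (el a1 f1 * w4) w3 (el a2 f2)
      + J (w3 * el a2 f2) (el a1 f1) w4 + J (w3 * w4) (el a1 f1) (el a2 f2))
    (fun x y => by simp only [add_mul, mul_add, J_add1, J_add2, J_add3]; abel)
    (fun r x => by simp only [smul_mul_assoc, mul_smul_comm, smul_add, J_smul1, J_smul2, J_smul3])
    ?_ w3
  rintro _ ⟨a3, f3, rfl⟩
  refine span_ind (S := R[X]) span_el
    (fun w4 => J (el a1 f1 * el a2 f2) (el a3 f3) w4 + J (el a1 f1 * w4) (el a3 f3) (el a2 f2)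
      + J (el a3 f3 * el a2 f2) (el a1 f1) w4 + J (el a3 f3 * w4) (el a1 f1) (el a2 f2))
    (fun x y => by simp only [add_mul, mul_add, J_add1, J_add2, J_add3]; abel)
    (fun r x => by simp only [smul_mul_assoc, mul_smul_comm, smul_add, J_smul1, J_smul2, J_smul3])
    ?_ w4
  rintro _ ⟨a4, f4, rfl⟩
  simp only [el_mul h, el_add, el_J h]
  rw [← el_zero]
  congr 1
  · exact h.lin a1 a2 a3 a4
  · funext n
    have e1 := h.lin (f1 n) a2 a3 a4
    have e2 := h.lin a1 (f2 n) a3 a4
    have e3 := h.lin a1 a2 (f3 n) a4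
    have e4 := h.lin a1 a2 a3 (f4 n)
    have e5 := congrArg₂ (· + ·) (congrArg₂ (· + ·) e1 e2) (congrArg₂ (· + ·) e3 e4)
    simp only [add_zero] at e5
    rw [← e5]
    simp only [J_add1]
    abel

theorem Ext.gm (h : BX x) (w1 w2 : Ext R A) :
    J (io R x) (io R x * w1) w2 = J (io R x) w1 (io R x * w2) := by
  rw [← sub_eq_zero]
  refine span_ind (S := R[X]) span_el
    (fun w1 => J (io R x) (io R x * w1) w2 - J (io R x) w1 (io R x * w2))
    (fun x y => by simp only [add_mul, mul_add, J_add1, J_add2, J_add3]; abel)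
    (fun r x => by simp only [smul_mul_assoc, mul_smul_comm, smul_sub, J_smul1, J_smul2, J_smul3])
    ?_ w1
  rintro _ ⟨a1, f1, rfl⟩
  refine span_ind (S := R[X]) span_el
    (fun w2 => J (io R x) (io R x * el a1 f1) w2 - J (io R x) (el a1 f1) (io R x * w2))
    (fun x y => by simp only [add_mul, mul_add, J_add1, J_add2, J_add3]; abel)
    (fun r x => by simp only [smul_mul_assoc, mul_smul_comm, smul_sub, J_smul1, J_smul2, J_smul3])
    ?_ w2
  rintro _ ⟨a2, f2, rfl⟩
  rw [sub_eq_zero]
  unfold io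
  simp only [el_mul h, el_add, el_J h, h.gm, zero_mul, add_zero, J_zero1, zero_add]

/-- The cubic form. -/
def sx {B : Type*} [NonUnitalNonAssocRing B] (x a b c : B) : B :=
  J (x * a) (x * (x * b)) c + J (x * b) (x * (x * a)) c +
    J (x * a) (x * (x * c)) b + J (x * c) (x * (x * a)) b +
    J (x * b) (x * (x * c)) a + J (x * c) (x * (x * b)) a

theorem sx_perm1 {B : Type*} [NonUnitalNonAssocRing B] (x a b c : B) : sx x a b c = sx x b a c := by
  unfold sx; abel

theorem sx_perm2 {B : Type*} [NonUnitalNonAssocRing B] (x a b c : B) : sx x a b c = sx x a c b := by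
  unfold sx; abel

theorem sx_add1 {B : Type*} [NonUnitalNonAssocRing B] (x a a' b c : B) :
    sx x (a + a') b c = sx x a b c + sx x a' b c := by
  unfold sx
  simp only [mul_add, J_add1, J_add2, J_add3]
  abel

theorem sx_add2 {B : Type*} [NonUnitalNonAssocRing B] (x a b b' c : B) :
    sx x a (b + b') c = sx x a b c + sx x a b' c := by
  rw [sx_perm1, sx_add1, sx_perm1 x b, sx_perm1 x b']

theorem sx_add3 {B : Type*} [NonUnitalNonAssocRing B] (x a b c c' : B) :
    sx x a b (c + c') = sx x a b c + sx x a b c' := by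
  rw [sx_perm2, sx_add2, sx_perm2 x a c, sx_perm2 x a c']

theorem sx_smul1 {S B : Type*} [CommRing S] [NonUnitalNonAssocRing B] [Module S B]
    [IsScalarTower S B B] [SMulCommClass S B B] (r : S) (x a b c : B) :
    sx x (r • a) b c = r • sx x a b c := by
  unfold sx
  simp only [mul_smul_comm, J_smul1, J_smul2, J_smul3, smul_add]

theorem sx_smul2 {S B : Type*} [CommRing S] [NonUnitalNonAssocRing B] [Module S B]
    [IsScalarTower S B B] [SMulCommClass S B B] (r : S) (x a b c : B) :
    sx x a (r • b) c = r • sx x a b c := by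
  rw [sx_perm1, sx_smul1, sx_perm1]

theorem sx_smul3 {S B : Type*} [CommRing S] [NonUnitalNonAssocRing B] [Module S B]
    [IsScalarTower S B B] [SMulCommClass S B B] (r : S) (x a b c : B) :
    sx x a b (r • c) = r • sx x a b c := by
  rw [sx_perm2, sx_smul2, sx_perm2]

theorem sx_el (h : BX x) (a b c : A) (f g k : ℕ → A) :
    (sx (io R x) (el a f) (el b g) (el c k) : Ext R A) =
      el (sx x a b c) (fun n => sx x (f n) b c + sx x a (g n) c + sx x a b (k n)) := by
  unfold sx io
  simp only [el_mul h, el_add, el_J h, zero_mul, add_zero]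
  congr 1
  funext n
  abel

theorem Ext.six (h : BX x) (w1 w2 w3 : Ext R A) : sx (io R x) w1 w2 w3 = 0 := by
  refine span_ind (S := R[X]) span_el (fun w1 => sx (io R x) w1 w2 w3)
    (fun a b => sx_add1 _ _ _ _ _) (fun r a => sx_smul1 _ _ _ _ _) ?_ w1
  rintro _ ⟨a1, f1, rfl⟩
  refine span_ind (S := R[X]) span_el (fun w2 => sx (io R x) (el a1 f1) w2 w3)
    (fun a b => sx_add2 _ _ _ _ _) (fun r a => sx_smul2 _ _ _ _ _) ?_ w2
  rintro _ ⟨a2, f2, rfl⟩
  refine span_ind (S := R[X]) span_el (fun w3 => sx (io R x) (el a1 f1) (el a2 f2) w3)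
    (fun a b => sx_add3 _ _ _ _ _) (fun r a => sx_smul3 _ _ _ _ _) ?_ w3
  rintro _ ⟨a3, f3, rfl⟩
  rw [sx_el h, ← el_zero]
  congr 1
  · exact h.six a1 a2 a3
  · funext n
    have e1 : sx x (f1 n) a2 a3 = 0 := h.six _ _ _
    have e2 : sx x a1 (f2 n) a3 = 0 := h.six _ _ _
    have e3 : sx x a1 a2 (f3 n) = 0 := h.six _ _ _
    rw [e1, e2, e3]
    simp

variable (R)

theorem Ext.bx (h : BX x) : BX (io R x) where
  ch := Ext.ch h
  comm := Ext.comm h
  lin := Ext.lin h
  gm := Ext.gm h
  six := Ext.six h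

theorem io_mul (h : BX x) (a b : A) : io R a * io R b = io R (a * b) := by
  unfold io
  rw [el_mul h]
  congr 1
  funext n
  simp

theorem io_J (h : BX x) (a b c : A) : J (io R a) (io R b) (io R c) = io R (J a b c) := by
  unfold J
  simp only [io_mul R h, io_add]

theorem x_letter (h : BX x) (b : A) :
    io R x * letter R x b = (X : R[X]) • letter R x b := by
  unfold io letter
  rw [el_mul h]
  apply Ext.ext'
  · rw [Ext.smul_fst]; unfold el; simp
  · rw [Ext.smul_snd]; unfold el
    apply seq_ext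
    intro n
    rw [seq_X, LinearEquiv.apply_symm_apply, LinearEquiv.apply_symm_apply,
      Function.iterate_succ_apply']
    simp

theorem ev_mul_io (h : BX x) (n : ℕ) (a : A) (w : Ext R A) :
    ev R n (w * io R a) = ev R n w * a := by
  rw [(Ext.bx R h).comm, ev_io_mul, h.comm a]

theorem ev_J1 (h : BX x) (n : ℕ) (a b : A) (w : Ext R A) :
    ev R n (J w (io R a) (io R b)) = J (ev R n w) a b := by
  unfold J
  simp only [ev_add, io_mul R h, ev_mul_io R h, ev_io_mul]

theorem ev_J2 (h : BX x) (n : ℕ) (a b : A) (w : Ext R A) :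
    ev R n (J (io R a) w (io R b)) = J a (ev R n w) b := by
  unfold J
  simp only [ev_add, io_mul R h, ev_mul_io R h, ev_io_mul]

theorem ev_J3 (h : BX x) (n : ℕ) (a b : A) (w : Ext R A) :
    ev R n (J (io R a) (io R b) w) = J a b (ev R n w) := by
  unfold J
  simp only [ev_add, io_mul R h, ev_mul_io R h, ev_io_mul]

variable {R}

theorem io_eig (h : BX x) {a : A} {α : R} (ha : x * a = α • a) :
    io R x * io R a = α • io R a := by
  rw [io_mul R h, ha, io_smul]

theorem io_eig' (h : BX x) {a : A} {α : R} (ha : x * a = α • a) :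
    io R x * io R a = (C α : R[X]) • io R a := by
  rw [Ext.C_smul, io_eig h ha]

theorem io_pw (h : BX x) (a : A) (n : ℕ) : pw (io R x) n (io R a) = io R (pw x n a) := by
  induction n with
  | zero => rfl
  | succ n ih =>
    unfold pw at ih ⊢
    rw [Function.iterate_succ_apply', ih, io_mul R h, Function.iterate_succ_apply']

end ext

section tq

variable {R : Type u} {F : Type v} [CommRing R] [Field F] (e : R →+* F) {A : Type u}
  [NonUnitalNonAssocRing A] [Module R A] [IsScalarTower R A A] [SMulCommClass R A A] {x : A}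

/-- Locality at a point, in characteristic two. -/
structure Loc (e : R →+* F) (x : A) : Prop where
  bx : BX x
  h2 : (2 : R) = 0
  can : ∀ r : R, e r ≠ 0 → ∀ z : A, r • z = 0 → z = 0

theorem TQ.bx (h : BX x) : BX (pr e A x) where
  ch := fun a => by
    obtain ⟨a, rfl⟩ := pr_surj e a
    rw [← map_add, h.ch, map_zero]
  comm := fun a b => by
    obtain ⟨a, rfl⟩ := pr_surj e a
    obtain ⟨b, rfl⟩ := pr_surj e b
    rw [← pr_mul, ← pr_mul, h.comm a b]
  lin := fun a b c d => by
    obtain ⟨a, rfl⟩ := pr_surj e a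
    obtain ⟨b, rfl⟩ := pr_surj e b
    obtain ⟨c, rfl⟩ := pr_surj e c
    obtain ⟨d, rfl⟩ := pr_surj e d
    simp only [← pr_mul, ← pr_J, ← map_add]
    rw [h.lin, map_zero]
  gm := fun a b => by
    obtain ⟨a, rfl⟩ := pr_surj e a
    obtain ⟨b, rfl⟩ := pr_surj e b
    simp only [← pr_mul, ← pr_J, h.gm]
  six := fun a b c => by
    obtain ⟨a, rfl⟩ := pr_surj e a
    obtain ⟨b, rfl⟩ := pr_surj e b
    obtain ⟨c, rfl⟩ := pr_surj e c
    simp only [← pr_mul, ← pr_J, ← map_add]
    rw [h.six, map_zero]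

theorem TQ.loc (h2 : (2 : R) = 0) (h : BX x) : Loc e (pr e A x) where
  bx := TQ.bx e h
  h2 := h2
  can := fun r hr z hz => by
    obtain ⟨z, rfl⟩ := pr_surj e z
    rw [← map_smul, pr_eq_zero] at hz
    obtain ⟨s, hs, h1⟩ := hz
    rw [pr_eq_zero]
    exact ⟨s * r, by rw [map_mul]; exact mul_ne_zero hs hr, by rw [mul_smul, h1]⟩

theorem two_poly (h2 : (2 : R) = 0) : (2 : R[X]) = 0 := by
  have := congrArg (C : R → R[X]) h2
  rw [map_zero] at this
  rw [← this]
  exact (map_ofNat C 2).symm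

theorem Loc.ext_cancel (H : Loc e x) (r : R) (hr : e r ≠ 0) (w : Ext R A)
    (h : (C r : R[X]) • w = 0) : w = 0 :=
  Ext.cancel r (fun a ha => H.can r hr a ha) w h

theorem Loc.ext_loc (H : Loc e x) : Loc e (io R x) where
  bx := Ext.bx R H.bx
  h2 := H.h2
  can := fun r hr w h => H.ext_cancel e r hr w (by rw [Ext.C_smul]; exact h)

theorem removal (H : Loc e x) (ρ : R) (W : Ext R A) (h1 : (X - C ρ : R[X]) • W = 0)
    (h2 : pr (pt e (e ρ)) (Ext R A) W = 0) : W = 0 := by
  rw [pr_eq_zero] at h2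
  obtain ⟨r, hr, h3⟩ := h2
  rw [pt_eval] at hr
  apply H.ext_cancel e (r.eval ρ) hr
  have h4 : (X - C ρ) ∣ r - C (r.eval ρ) := Polynomial.X_sub_C_dvd_sub_C_eval
  obtain ⟨q, hq⟩ := h4
  have h5 : C (r.eval ρ) = r - q * (X - C ρ) := by rw [mul_comm, ← hq]; ring
  rw [h5, sub_smul, h3, mul_smul, h1, smul_zero, sub_zero]

theorem pr_eig (n : F) (h : BX x) {a : A} {α : R} (ha : x * a = α • a) :
    pr (pt e n) (Ext R A) (io R x) * pr (pt e n) (Ext R A) (io R a) =
      (C α : R[X]) • pr (pt e n) (Ext R A) (io R a) := by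
  rw [← pr_mul, io_eig h ha, ← Ext.C_smul, map_smul]

theorem tq_letter (n : F) (h : BX x) (q : A) :
    pr (pt e n) (Ext R A) (io R x) * pr (pt e n) (Ext R A) (letter R x q) =
      (X : R[X]) • pr (pt e n) (Ext R A) (letter R x q) := by
  rw [← pr_mul, x_letter R h, map_smul]

end tq

section tqs

variable {R : Type u} [CommRing R] (S : Submonoid R) {A : Type u} [NonUnitalNonAssocRing A]
  [Module R A] [IsScalarTower R A A] [SMulCommClass R A A] {x : A}

theorem TS.bx (h : BX x) : BX (ps S A x) where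
  ch := fun a => by
    obtain ⟨a, rfl⟩ := ps_surj S a
    rw [← map_add, h.ch, map_zero]
  comm := fun a b => by
    obtain ⟨a, rfl⟩ := ps_surj S a
    obtain ⟨b, rfl⟩ := ps_surj S b
    rw [← ps_mul, ← ps_mul, h.comm a b]
  lin := fun a b c d => by
    obtain ⟨a, rfl⟩ := ps_surj S a
    obtain ⟨b, rfl⟩ := ps_surj S b
    obtain ⟨c, rfl⟩ := ps_surj S c
    obtain ⟨d, rfl⟩ := ps_surj S d
    simp only [← ps_mul, ← ps_J, ← map_add]
    rw [h.lin, map_zero]
  gm := fun a b => by
    obtain ⟨a, rfl⟩ := ps_surj S a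
    obtain ⟨b, rfl⟩ := ps_surj S b
    simp only [← ps_mul, ← ps_J, h.gm]
  six := fun a b c => by
    obtain ⟨a, rfl⟩ := ps_surj S a
    obtain ⟨b, rfl⟩ := ps_surj S b
    obtain ⟨c, rfl⟩ := ps_surj S c
    simp only [← ps_mul, ← ps_J, ← map_add]
    rw [h.six, map_zero]

end tqs

end Pool.Agent.BLie.C2
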