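import Mathlib
import Pool.Agent.BLie.C2.Uni
import Pool.Agent.BLie.Bridge

/-! The product of two generic eigenvectors in characteristic two. -/

set_option linter.unusedSimpArgs false
set_option linter.unusedSectionVars false
set_option linter.unusedVariables false
set_option linter.unnecessarySeqFocus false

namespace Pool.Agent.BLie.C2

open Pool.Agent.BLie Polynomial

universe u v

/-! ### Shifts of families -/

section shifts

variable {R : Type u} [CommRing R] {A : Type u} [AddCommGroup A] [Module R A]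

theorem PE3_mon4 (f : ℕ → ℕ → ℕ → A) (k i j : ℕ) (r : R) :
    PE3 f (monomial k (monomial i (monomial j r))) = r • f j i k := by
  rw [PE3_monomial, PE2_monomial, PE1_monomial]

theorem PE3_X (f : ℕ → ℕ → ℕ → A) (m : R[X][X][X]) :
    PE3 f (X * m) = PE3 (fun j i k => f j i (k + 1)) m := by
  refine ind3 (p := fun m => PE3 f (X * m) = PE3 (fun j i k => f j i (k + 1)) m)
    (fun a b ha hb => ?_) (fun k i j r => ?_) m
  · rw [mul_add, map_add, ha, hb, map_add]
  · rw [X_mul_monomial, PE3_mon4, PE3_mon4]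

theorem PE3_CX (f : ℕ → ℕ → ℕ → A) (m : R[X][X][X]) :
    PE3 f (C X * m) = PE3 (fun j i k => f j (i + 1) k) m := by
  refine ind3 (p := fun m => PE3 f (C X * m) = PE3 (fun j i k => f j (i + 1) k) m)
    (fun a b ha hb => ?_) (fun k i j r => ?_) m
  · rw [mul_add, map_add, ha, hb, map_add]
  · rw [C_mul_monomial, X_mul_monomial, PE3_mon4, PE3_mon4]

theorem PE3_CCX (f : ℕ → ℕ → ℕ → A) (m : R[X][X][X]) :
    PE3 f (C (C X) * m) = PE3 (fun j i k => f (j + 1) i k) m := by
  refine ind3 (p := fun m => PE3 f (C (C X) * m) = PE3 (fun j i k => f (j + 1) i k) m)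
    (fun a b ha hb => ?_) (fun k i j r => ?_) m
  · rw [mul_add, map_add, ha, hb, map_add]
  · rw [C_mul_monomial, C_mul_monomial, X_mul_monomial, PE3_mon4, PE3_mon4]

theorem PE3_addf (f g : ℕ → ℕ → ℕ → A) (m : R[X][X][X]) :
    PE3 (fun j i k => f j i k + g j i k) m = PE3 f m + PE3 g m := by
  refine ind3 (p := fun m => PE3 (fun j i k => f j i k + g j i k) m = PE3 f m + PE3 g m)
    (fun a b ha hb => ?_) (fun k i j r => ?_) m
  · rw [map_add, map_add, map_add, ha, hb]; abel
  · rw [PE3_mon4, PE3_mon4, PE3_mon4, smul_add]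

theorem PE3_zerof (m : R[X][X][X]) :
    PE3 (fun _ _ _ => (0 : A)) m = 0 := by
  refine ind3 (p := fun m => PE3 (fun _ _ _ => (0 : A)) m = 0)
    (fun a b ha hb => ?_) (fun k i j r => ?_) m
  · rw [map_add, ha, hb, add_zero]
  · rw [PE3_mon4, smul_zero]

end shifts

/-! ### Annihilators from iterated extensions -/

section anns

variable {R : Type u} {A : Type u} [CommRing R] [NonUnitalNonAssocRing A] [Module R A]
  [IsScalarTower R A A] [SMulCommClass R A A]

theorem AnnP_of1 {f : ℕ → ℕ → ℕ → A} {s : R[X][X]} (w : ℕ → Ext R[X] (Ext R A))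
    (hw : ∀ i, s • w i = 0) (hf : ∀ i j k, ev R j (ev R[X] k (w i)) = f j i k) :
    i1 s ∈ AnnP f := by
  apply AnnP_i1
  intro i q
  have e1 := ev_PE2 (s * q) (w i)
  rw [mul_comm s q, mul_smul, hw, smul_zero, ev_zero, ev_zero] at e1
  rw [mul_comm s q, e1]
  congr 2
  funext j k
  exact (hf i j k).symm

theorem AnnP_of2 {f : ℕ → ℕ → ℕ → A} {s : R[X][X]} (w : ℕ → Ext R[X] (Ext R A))
    (hw : ∀ j, s • w j = 0) (hf : ∀ j i k, ev R i (ev R[X] k (w j)) = f j i k) :
    i2 s ∈ AnnP f := by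
  apply AnnP_i2
  intro j q
  have e1 := ev_PE2 (s * q) (w j)
  rw [mul_comm s q, mul_smul, hw, smul_zero, ev_zero, ev_zero] at e1
  rw [mul_comm s q, e1]
  congr 2
  funext i k
  exact (hf j i k).symm

theorem fin_zero {f : ℕ → ℕ → ℕ → A} {r : R[X][X]} {k0 : ℕ} (hr : X ^ k0 * C r ∈ AnnP f)
    {w : Ext R[X] (Ext R A)} (hw : w = el 0 (fun i => el 0 (fun j => f j i k0))) :
    r • w = 0 := by
  refine ext2_zero (f := fun i j => f j i k0) hw ?_
  intro m
  rw [ev_PE2]
  have e1 := hr (C m)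
  rw [show X ^ k0 * C r * C m = C (r * m) * X ^ k0 by rw [C_mul]; ring, PE3_C] at e1
  rw [← e1]
  congr 2
  funext j i
  rw [hw, ev_el, ev_el]

end anns

/-! ### The submonoids -/

section smon

variable {R : Type u} {F : Type v} [CommRing R] [Field F] (e : R →+* F)

/-- Admissible scalars. -/
noncomputable def SMon (ζ : F) (D : Set R[X]) : Submonoid R[X][X] :=
  Submonoid.closure ({p | ∃ r, pt e ζ r ≠ 0 ∧ p = C r} ∪ {p | ∃ ρ ∈ D, p = X + C ρ})

variable {e}

theorem SMon_C {ζ : F} {D : Set R[X]} {r : R[X]} (h : pt e ζ r ≠ 0) : C r ∈ SMon e ζ D :=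
  Submonoid.subset_closure (Or.inl ⟨r, h, rfl⟩)

theorem SMon_X {ζ : F} {D : Set R[X]} {ρ : R[X]} (h : ρ ∈ D) : X + C ρ ∈ SMon e ζ D :=
  Submonoid.subset_closure (Or.inr ⟨ρ, h, rfl⟩)

theorem SMon_ind {ζ : F} {D : Set R[X]} {s : R[X][X]} (hs : s ∈ SMon e ζ D)
    {p : R[X][X] → Prop} (hC : ∀ r, pt e ζ r ≠ 0 → p (C r)) (hX : ∀ ρ ∈ D, p (X + C ρ))
    (h1 : p 1) (hm : ∀ a b, p a → p b → p (a * b)) : p s := by
  unfold SMon at hs
  induction hs using Submonoid.closure_induction with
  | mem q hq =>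
    rcases hq with ⟨r, hr, rfl⟩ | ⟨ρ, hρ, rfl⟩
    · exact hC r hr
    · exact hX ρ hρ
  | one => exact h1
  | mul a b _ _ ha hb => exact hm a b ha hb

section spec

variable {R S : Type*} [CommRing R] [CommRing S] (φ : R →+* S) {γ α ζ : R}

theorem Spec_map {ρ : R} (h : ρ ∈ Spec γ α ζ) : φ ρ ∈ Spec (φ γ) (φ α) (φ ζ) := by
  simp only [Spec, Set.mem_insert_iff, Set.mem_singleton_iff] at h
  rcases h with h | h | h | h | h | h <;> (rw [h]; simp [Spec])

theorem Spec_lift {ρ : S} (h : ρ ∈ Spec (φ γ) (φ α) (φ ζ)) : ∃ ρ0 ∈ Spec γ α ζ, φ ρ0 = ρ := by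
  simp only [Spec, Set.mem_insert_iff, Set.mem_singleton_iff] at h
  rcases h with h | h | h | h | h | h
  · exact ⟨γ, by simp [Spec], by rw [h]⟩
  · exact ⟨α, by simp [Spec], by rw [h]⟩
  · exact ⟨ζ, by simp [Spec], by rw [h]⟩
  · exact ⟨γ + α + ζ, by simp [Spec], by rw [h]; simp⟩
  · exact ⟨α + ζ, by simp [Spec], by rw [h]; simp⟩
  · exact ⟨γ + ζ, by simp [Spec], by rw [h]; simp⟩

end spec

theorem two_F (h2 : (2 : R) = 0) (e : R →+* F) : (2 : F) = 0 := by
  have := congrArg e h2
  rwa [map_ofNat, map_zero] at this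

theorem SMon_inA {ζ k : F} {γ α : R} (h2 : (2 : R) = 0) (hγ : e γ = k) (hα : e α = k)
    (h0 : k ≠ 0) (hζ : ζ ≠ 0) (h1 : k + ζ ≠ 0) :
    InS (SMon e ζ (Spec (C γ) (C α) X)) (C (C γ)) (C (C α)) (C X) X where
  cγ := SMon_C (by rw [pt_C, hγ]; exact h0)
  cα := SMon_C (by rw [pt_C, hα]; exact h0)
  cζ := SMon_C (by rw [pt_X]; exact hζ)
  cγζ := by rw [← C_add]; exact SMon_C (by rw [map_add, pt_C, pt_X, hγ]; exact h1)
  cαζ := by rw [← C_add]; exact SMon_C (by rw [map_add, pt_C, pt_X, hα]; exact h1)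
  c5 := by
    rw [← C_add, ← C_add]
    refine SMon_C ?_
    rw [map_add, map_add, pt_C, pt_C, pt_X, hγ, hα]
    intro h
    apply hζ
    linear_combination h - k * two_F h2 e
  sp := by
    intro ρ hρ
    obtain ⟨ρ0, h, rfl⟩ := Spec_lift C hρ
    exact SMon_X h

/-- The exceptional weights of the second type. -/
def Spec2 (γ α : R) : Set R[X] :=
  {0, C γ, C α, C α + C γ, X, X + (C γ + C α), X + C α, X + C γ}

theorem SMon_inB {ζ k : F} {γ α : R} (h2 : (2 : R) = 0) (hγ : e γ = k) (hα : e α = k)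
    (h0 : k ≠ 0) (h1 : k + ζ ≠ 0) :
    InS (SMon e ζ (Spec2 γ α)) (C (C γ)) (C (C α)) X (C X) where
  cγ := SMon_C (by rw [pt_C, hγ]; exact h0)
  cα := SMon_C (by rw [pt_C, hα]; exact h0)
  cζ := by
    have := SMon_X (e := e) (ζ := ζ) (D := Spec2 γ α) (ρ := 0) (by simp [Spec2])
    simpa using this
  cγζ := by
    rw [add_comm]; exact SMon_X (by simp [Spec2])
  cαζ := by
    rw [add_comm]; exact SMon_X (by simp [Spec2])
  c5 := by
    have := SMon_X (e := e) (ζ := ζ) (D := Spec2 γ α) (ρ := C α + C γ) (by simp [Spec2])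
    rw [C_add] at this
    rw [show (C (C α) + X + C (C γ) : R[X][X]) = X + (C (C α) + C (C γ)) by ring]
    exact this
  sp := by
    intro ρ h
    simp only [Spec, Set.mem_insert_iff, Set.mem_singleton_iff] at h
    rcases h with h | h | h | h | h | h
    · rw [h, ← C_add]
      exact SMon_C (by rw [map_add, pt_C, pt_X, hγ, add_comm]; exact h1)
    · rw [h, ← C_add]
      exact SMon_C (by rw [map_add, pt_C, pt_X, hα, add_comm]; exact h1)
    · rw [h, add_comm]
      exact SMon_X (by simp [Spec2])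
    · have := SMon_X (e := e) (ζ := ζ) (D := Spec2 γ α) (ρ := X + (C γ + C α)) (by simp [Spec2])
      rw [C_add, C_add] at this
      rw [h, show (C X + (C (C γ) + C (C α) + X) : R[X][X]) = X + (C X + (C (C γ) + C (C α)))
        by ring]
      exact this
    · have := SMon_X (e := e) (ζ := ζ) (D := Spec2 γ α) (ρ := X + C α) (by simp [Spec2])
      rw [C_add] at this
      rw [h, show (C X + (C (C α) + X) : R[X][X]) = X + (C X + C (C α)) by ring]
      exact this
    · have := SMon_X (e := e) (ζ := ζ) (D := Spec2 γ α) (ρ := X + C γ) (by simp [Spec2])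
      rw [C_add] at this
      rw [h, show (C X + (C (C γ) + X) : R[X][X]) = X + (C X + C (C γ)) by ring]
      exact this

theorem copS {w w' : F} {D D' : Set R[X]} (h2 : (2 : R) = 0)
    (hd : ∀ ρ ∈ D, ∀ ρ' ∈ D', pt e w' ρ ≠ pt e w ρ')
    {s s' : R[X][X]} (hs : s ∈ SMon e w' D) (hs' : s' ∈ SMon e w D') :
    Cop (pt (pt e w') w) (i1 s) (i2 s') := by
  refine SMon_ind hs (p := fun s => Cop (pt (pt e w') w) (i1 s) (i2 s')) ?_ ?_ ?_ ?_
  · intro r hr
    have : (i1 (C r) : R[X][X][X]) = C (C r) := by unfold i1; simp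
    rw [this]
    exact Cop.C (by rw [pt_C]; exact hr)
  · intro ρ hρ
    apply Cop.symm
    refine SMon_ind hs' (p := fun s' => Cop (pt (pt e w') w) (i2 s') (i1 (X + C ρ))) ?_ ?_ ?_ ?_
    · intro r hr
      have : (i2 (C r) : R[X][X][X]) = C (r.map C) := by unfold i2; simp
      rw [this]
      exact Cop.C (by rw [pt_map]; exact hr)
    · intro ρ' hρ'
      have h1 : (i1 (X + C ρ) : R[X][X][X]) = X + C (C ρ) := by unfold i1; simp
      have h2' : (i2 (X + C ρ') : R[X][X][X]) = X + C (ρ'.map C) := by unfold i2; simp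
      rw [h1, h2']
      refine ⟨1, -1, ρ'.map C - C ρ, ?_, ?_⟩
      · rw [map_sub, pt_C, pt_map, sub_ne_zero]
        exact (hd ρ hρ ρ' hρ').symm
      · rw [C_sub]; ring
    · rw [map_one]; exact Cop.one
    · intro a b ha hb; rw [map_mul]; exact ha.mul hb
  · rw [map_one]; exact Cop.one
  · intro a b ha hb; rw [map_mul]; exact ha.mul hb

theorem copF {w w' : F} {D : Set R[X]} (h2 : (2 : R) = 0)
    (hd : ∀ ρ ∈ D, pt e w' ρ ≠ w ∧ pt e w' ρ ≠ w + w')
    {s : R[X][X]} (hs : s ∈ SMon e w' D) :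
    Cop (pt (pt e w') w) (i1 s) ((X + C X) * (X + C X + C (C X))) := by
  refine SMon_ind hs (p := fun s => Cop (pt (pt e w') w) (i1 s)
    ((X + C X) * (X + C X + C (C X)))) ?_ ?_ ?_ ?_
  · intro r hr
    have : (i1 (C r) : R[X][X][X]) = C (C r) := by unfold i1; simp
    rw [this]
    exact Cop.C (by rw [pt_C]; exact hr)
  · intro ρ hρ
    apply Cop.symm
    have h1 : (i1 (X + C ρ) : R[X][X][X]) = X + C (C ρ) := by unfold i1; simp
    rw [h1]
    apply Cop.mul
    · refine ⟨1, -1, X - C ρ, ?_, ?_⟩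
      · rw [map_sub, pt_C, pt_X, sub_ne_zero]
        exact (hd ρ hρ).1.symm
      · rw [C_sub]; ring
    · refine ⟨1, -1, X + C X - C ρ, ?_, ?_⟩
      · rw [map_sub, map_add, pt_C, pt_C, pt_X, pt_X, sub_ne_zero]
        exact (hd ρ hρ).2.symm
      · rw [C_sub, C_add]; ring
  · rw [map_one]; exact Cop.one
  · intro a b ha hb; rw [map_mul]; exact ha.mul hb

theorem copG {w w' : F} {D : Set R[X]} (h2 : (2 : R) = 0)
    (hd : ∀ ρ ∈ D, pt e w ρ ≠ w' ∧ pt e w ρ ≠ w + w')
    {s : R[X][X]} (hs : s ∈ SMon e w D) :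
    Cop (pt (pt e w') w) (i2 s) ((X + C (C X)) * (X + C X + C (C X))) := by
  refine SMon_ind hs (p := fun s => Cop (pt (pt e w') w) (i2 s)
    ((X + C (C X)) * (X + C X + C (C X)))) ?_ ?_ ?_ ?_
  · intro r hr
    have : (i2 (C r) : R[X][X][X]) = C (r.map C) := by unfold i2; simp
    rw [this]
    exact Cop.C (by rw [pt_map]; exact hr)
  · intro ρ hρ
    apply Cop.symm
    have h1 : (i2 (X + C ρ) : R[X][X][X]) = X + C (ρ.map C) := by unfold i2; simp
    rw [h1]
    apply Cop.mul
    · refine ⟨1, -1, C X - ρ.map C, ?_, ?_⟩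
      · rw [map_sub, pt_C, pt_X, pt_map, sub_ne_zero]
        exact (hd ρ hρ).1.symm
      · rw [C_sub]; ring
    · refine ⟨1, -1, X + C X - ρ.map C, ?_, ?_⟩
      · rw [map_sub, map_add, pt_C, pt_X, pt_X, pt_map, sub_ne_zero]
        exact (hd ρ hρ).2.symm
      · rw [C_sub, C_add]; ring
  · rw [map_one]; exact Cop.one
  · intro a b ha hb; rw [map_mul]; exact ha.mul hb

end smon

/-! ### The three identities -/

section bridge

variable {R : Type u} {F : Type v} [CommRing R] [Field F] {e : R →+* F}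
  {A : Type u} [NonUnitalNonAssocRing A] [Module R A]
  [IsScalarTower R A A] [SMulCommClass R A A] {x : A}

theorem io2_eig (h : BX x) {a : A} {α : R} (ha : x * a = α • a) :
    io R[X] (io R x) * io R[X] (io R a) = (C (C α) : R[X][X]) • io R[X] (io R a) :=
  io_eig' (Ext.bx R h) (io_eig' h ha)

theorem x2_letter (h : BX x) (g : A) :
    io R[X] (io R x) * io R[X] (letter R x g) = (C X : R[X][X]) • io R[X] (letter R x g) := by
  rw [io_mul R[X] (Ext.bx R h), x_letter R h, io_smul, Ext.C_smul]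

theorem io2_pw (h : BX x) (g : A) (n : ℕ) :
    pw (io R[X] (io R x)) n (io R[X] (io R g)) = io R[X] (io R (pw x n g)) := by
  rw [io_pw (Ext.bx R h), io_pw h]

theorem io2_J (h : BX x) (a b c : A) :
    J (io R[X] (io R a)) (io R[X] (io R b)) (io R[X] (io R c)) = io R[X] (io R (J a b c)) := by
  rw [io_J _ (Ext.bx R h), io_J _ h]

/-- The family of Jacobians. -/
def FamF (x G H b : A) (j i k : ℕ) : A := J x (pw x i G * pw x k b) (pw x j H)

/-- The other family of Jacobians. -/
def FamG (x G H b : A) (j i k : ℕ) : A := J x (pw x j H * pw x k b) (pw x i G)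

theorem pw_succ {B : Type*} [Mul B] (x : B) (n : ℕ) (y : B) : pw x (n + 1) y = x * pw x n y := by
  unfold pw; rw [Function.iterate_succ_apply']

/-- The polynomial relation of the first family. -/
theorem annF (h : BX x) (G H b : A) :
    ((X + C X) * (X + C X + C (C X)) : R[X][X][X]) ∈ AnnP (FamF x G H b) := by
  intro m
  set χ : ℕ → ℕ → ℕ → A := fun j i k => J x (J x (pw x i G) (pw x k b)) (pw x j H) with hχ
  have s1 : ∀ m : R[X][X][X], PE3 (FamF x G H b) ((X + C X + C (C X)) * m) = PE3 χ m := by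
    intro m
    rw [add_mul, add_mul, map_add, map_add, PE3_X, PE3_CX, PE3_CCX, ← PE3_addf, ← PE3_addf]
    congr 2
    funext j i k
    unfold FamF
    rw [pw_succ, pw_succ, pw_succ, ← h.gm, h.x_mul x (pw x i G) (pw x k b), J_add2, J_add2]
    rw [hχ]
    have e2 := h.ch (J x (pw x i G * (x * pw x k b)) (pw x j H))
    have e3 := h.ch (J x (x * pw x i G * pw x k b) (pw x j H))
    calc _ = (J x (pw x i G * (x * pw x k b)) (pw x j H) +
            J x (pw x i G * (x * pw x k b)) (pw x j H)) +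
          (J x (x * pw x i G * pw x k b) (pw x j H) +
            J x (x * pw x i G * pw x k b) (pw x j H)) +
          J x (J x (pw x i G) (pw x k b)) (pw x j H) := by abel
      _ = _ := by rw [e2, e3]; simp
  have s2 : ∀ m : R[X][X][X], PE3 χ ((X + C X) * m) = 0 := by
    intro m
    rw [add_mul, map_add, PE3_X, PE3_CX, ← PE3_addf]
    have : (fun j i k => χ j i (k + 1) + χ j (i + 1) k) = fun _ _ _ => 0 := by
      funext j i k
      rw [hχ]
      simp only
      rw [pw_succ, pw_succ, h.gm, h.ch]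
    rw [this, PE3_zerof]
  rw [show (X + C X) * (X + C X + C (C X)) * m = (X + C X + C (C X)) * ((X + C X) * m) by ring,
    s1, s2]

/-- The polynomial relation of the second family. -/
theorem annG (h : BX x) (G H b : A) :
    ((X + C (C X)) * (X + C X + C (C X)) : R[X][X][X]) ∈ AnnP (FamG x G H b) := by
  intro m
  set χ : ℕ → ℕ → ℕ → A := fun j i k => J x (J x (pw x j H) (pw x k b)) (pw x i G) with hχ
  have s1 : ∀ m : R[X][X][X], PE3 (FamG x G H b) ((X + C X + C (C X)) * m) = PE3 χ m := by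
    intro m
    rw [add_mul, add_mul, map_add, map_add, PE3_X, PE3_CX, PE3_CCX, ← PE3_addf, ← PE3_addf]
    congr 2
    funext j i k
    unfold FamG
    rw [pw_succ, pw_succ, pw_succ, ← h.gm, h.x_mul x (pw x j H) (pw x k b), J_add2, J_add2]
    rw [hχ]
    have e2 := h.ch (J x (pw x j H * (x * pw x k b)) (pw x i G))
    have e3 := h.ch (J x (x * pw x j H * pw x k b) (pw x i G))
    calc _ = (J x (pw x j H * (x * pw x k b)) (pw x i G) +
            J x (pw x j H * (x * pw x k b)) (pw x i G)) +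
          (J x (x * pw x j H * pw x k b) (pw x i G) +
            J x (x * pw x j H * pw x k b) (pw x i G)) +
          J x (J x (pw x j H) (pw x k b)) (pw x i G) := by abel
      _ = _ := by rw [e2, e3]; simp
  have s2 : ∀ m : R[X][X][X], PE3 χ ((X + C (C X)) * m) = 0 := by
    intro m
    rw [add_mul, map_add, PE3_X, PE3_CCX, ← PE3_addf]
    have : (fun j i k => χ j i (k + 1) + χ (j + 1) i k) = fun _ _ _ => 0 := by
      funext j i k
      rw [hχ]
      simp only
      rw [pw_succ, pw_succ, h.gm, h.ch]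
    rw [this, PE3_zerof]
  rw [show (X + C (C X)) * (X + C X + C (C X)) * m =
    (X + C X + C (C X)) * ((X + C (C X)) * m) by ring, s1, s2]

theorem letter_io (h : BX x) (G : A) :
    letter R[X] (io R x) (io R G) = el 0 (fun n => io R (pw x n G)) := by
  unfold letter
  congr 1
  funext n
  exact io_pw h G n

theorem el_io (h : BX x) (a b : A) (f : ℕ → A) :
    (el a f * io R b : Ext R A) = el (a * b) (fun n => f n * b) := by
  unfold io
  rw [el_mul h]
  congr 1
  funext n
  simp

/-- The element `J (x, P * b, Q)`. -/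
theorem elF (h : BX x) (G H b : A) :
    J (io R[X] (io R x)) (letter R[X] (io R x) (io R G) * io R[X] (io R b))
      (io R[X] (letter R x H)) = el 0 (fun i => el 0 (fun j => FamF x G H b j i 0)) := by
  have hB := Ext.bx R h
  rw [letter_io h, el_io hB]
  have e1 : ∀ n, io R (pw x n G) * io R b = io R (pw x n G * b) := fun n => io_mul R h _ _
  simp only [e1]
  unfold io
  rw [el_J hB]
  congr 1
  · simp [J_zero2]
  · funext i
    rw [J_zero1, J_zero3, zero_add, add_zero]
    unfold letter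
    rw [el_J h]
    congr 1
    · rw [J_zero3]
    · funext j
      rw [J_zero1, J_zero2, zero_add, zero_add]
      rfl

/-- The element `J (x, Q * b, P)`. -/
theorem elG (h : BX x) (G H b : A) :
    J (io R[X] (io R x)) (io R[X] (letter R x H) * io R[X] (io R b))
      (letter R[X] (io R x) (io R G)) = el 0 (fun i => el 0 (fun j => FamG x G H b j i 0)) := by
  have hB := Ext.bx R h
  rw [letter_io h, io_mul R[X] hB]
  unfold io
  rw [el_J hB]
  congr 1
  · rw [J_zero3]
  · funext i
    rw [J_zero1, J_zero2, zero_add, zero_add]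
    unfold letter
    rw [el_mul h, el_J h]
    congr 1
    · simp [J_zero2]
    · funext j
      rw [J_zero1, J_zero3, zero_add, add_zero]
      unfold FamG
      congr 1
      simp [pw]

/-- The element `(P * Q) * b`. -/
theorem elE (h : BX x) (G H b : A) :
    (letter R[X] (io R x) (io R G) * io R[X] (letter R x H)) * io R[X] (io R (x * b)) =
      el 0 (fun i => el 0 (fun j => Fam3 x G H b j i 1)) := by
  have hB := Ext.bx R h
  rw [letter_io h, el_io hB, el_io hB]
  congr 1
  · simp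
  · funext i
    unfold io letter
    rw [el_mul h, el_mul h]
    congr 1
    · simp
    · funext j
      simp [Fam3, pw]

end bridge

end Pool.Agent.BLie.C2
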