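import Mathlib
import Pool.Agent.BLie.C2.Ext

/-! The element `E = P * Q` in characteristic two: `J (E, s, t) = 0` and `E * J (a, b, c) = 0`. -/

set_option linter.unusedSimpArgs false
set_option linter.unusedSectionVars false
set_option linter.unusedVariables false
set_option linter.unnecessarySeqFocus false

namespace Pool.Agent.BLie.C2

open Pool.Agent.BLie Polynomial

universe u v

/-- Two generic eigenvectors `P` and `Q` of `x`. -/
structure Dat {R : Type u} {F : Type v} [CommRing R] [Field F]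
    (e : R →+* F) {A : Type u} [NonUnitalNonAssocRing A] [Module R A]
    (x P Q : A) (ω θ : R) (w w' : F) : Prop extends Loc e x where
  hP : x * P = ω • P
  hQ : x * Q = θ • Q
  eP : e ω = w
  eQ : e θ = w'
  a : w ≠ 0
  b : w' ≠ 0
  ab : w + w' ≠ 0
  EX : ∀ b, (P * Q) * (x * b) = 0
  fF : ∀ b, J x (P * b) Q = 0
  fG : ∀ b, J x (Q * b) P = 0

section lift

variable {R : Type u} {F : Type v} [CommRing R] [Field F]
variable {e : R →+* F} {A : Type u} [NonUnitalNonAssocRing A] [Module R A]
  {x P Q : A} {ω θ : R} {w w' : F} [IsScalarTower R A A] [SMulCommClass R A A]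

theorem Dat.ext (D : Dat e x P Q ω θ w w') :
    Dat e (io R x) (io R P) (io R Q) ω θ w w' where
  toLoc := D.toLoc.ext_loc
  hP := io_eig D.bx D.hP
  hQ := io_eig D.bx D.hQ
  eP := D.eP
  eQ := D.eQ
  a := D.a
  b := D.b
  ab := D.ab
  EX := by
    refine span_ind (S := R[X]) span_el (fun b => (io R P * io R Q) * (io R x * b))
      (fun x y => by simp only [mul_add]) (fun r x => by simp only [mul_smul_comm]) ?_
    rintro _ ⟨a, f, rfl⟩
    unfold io
    simp only [el_mul D.bx]
    rw [← el_zero]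
    congr 1
    · exact D.EX a
    · funext n
      simp [D.EX]
  fF := by
    refine span_ind (S := R[X]) span_el (fun b => J (io R x) (io R P * b) (io R Q))
      (fun x y => by simp only [mul_add, J_add2])
      (fun r x => by simp only [mul_smul_comm, J_smul2]) ?_
    rintro _ ⟨a, f, rfl⟩
    unfold io
    simp only [el_mul D.bx, el_J D.bx]
    rw [← el_zero]
    congr 1
    · exact D.fF a
    · funext n
      simp [D.fF, J_zero1, J_zero2, J_zero3]
  fG := by
    refine span_ind (S := R[X]) span_el (fun b => J (io R x) (io R Q * b) (io R P))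
      (fun x y => by simp only [mul_add, J_add2])
      (fun r x => by simp only [mul_smul_comm, J_smul2]) ?_
    rintro _ ⟨a, f, rfl⟩
    unfold io
    simp only [el_mul D.bx, el_J D.bx]
    rw [← el_zero]
    congr 1
    · exact D.fG a
    · funext n
      simp [D.fG, J_zero1, J_zero2, J_zero3]

theorem Dat.tq (D : Dat e x P Q ω θ w w') (n : F) :
    Dat (pt e n) (pr (pt e n) (Ext R A) (io R x)) (pr _ _ (io R P)) (pr _ _ (io R Q))
      (C ω) (C θ) w w' where
  toLoc := TQ.loc (pt e n) (two_poly D.h2) (Ext.bx R D.bx)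
  hP := pr_eig e n D.bx D.hP
  hQ := pr_eig e n D.bx D.hQ
  eP := by rw [pt_C, D.eP]
  eQ := by rw [pt_C, D.eQ]
  a := D.a
  b := D.b
  ab := D.ab
  EX := by
    intro b
    obtain ⟨b, rfl⟩ := pr_surj _ b
    rw [← pr_mul, ← pr_mul, ← pr_mul, D.ext.EX b, map_zero]
  fF := by
    intro b
    obtain ⟨b, rfl⟩ := pr_surj _ b
    rw [← pr_mul, ← pr_J, D.ext.fF b, map_zero]
  fG := by
    intro b
    obtain ⟨b, rfl⟩ := pr_surj _ b
    rw [← pr_mul, ← pr_J, D.ext.fG b, map_zero]

end lift

section dat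

variable {R : Type u} {F : Type v} [CommRing R] [Field F]
variable {e : R →+* F} {A : Type u} [NonUnitalNonAssocRing A] [Module R A]
  {x P Q : A} {ω θ : R} {w w' : F} [IsScalarTower R A A] [SMulCommClass R A A]

theorem Loc.F2 (H : Loc e x) : (2 : F) = 0 := by
  have := congrArg e H.h2
  rwa [map_ofNat, map_zero] at this

theorem Dat.cn (D : Dat e x P Q ω θ w w') {r : R} (h : e r ≠ 0) : Can A r :=
  fun z hz => D.can r h z hz

theorem Dat.cP (D : Dat e x P Q ω θ w w') : Can A ω := D.cn (by rw [D.eP]; exact D.a)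

theorem Dat.cQ (D : Dat e x P Q ω θ w w') : Can A θ := D.cn (by rw [D.eQ]; exact D.b)

theorem Dat.cS (D : Dat e x P Q ω θ w w') : Can A (ω + θ) :=
  D.cn (by rw [map_add, D.eP, D.eQ]; exact D.ab)

theorem Dat.swap (D : Dat e x P Q ω θ w w') : Dat e x Q P θ ω w' w where
  toLoc := D.toLoc
  hP := D.hQ
  hQ := D.hP
  eP := D.eQ
  eQ := D.eP
  a := D.b
  b := D.a
  ab := by rw [add_comm]; exact D.ab
  EX := fun b => by rw [D.bx.comm Q P]; exact D.EX b
  fF := D.fG
  fG := D.fF

theorem Dat.PQ0 (D : Dat e x P Q ω θ w w') : J x P Q = 0 :=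
  D.cS _ (D.bx.G2 D.h2 D.hP D.hQ)

theorem Dat.xE (D : Dat e x P Q ω θ w w') : x * (P * Q) = (ω + θ) • (P * Q) :=
  D.bx.eig_mul D.hP D.hQ D.PQ0

theorem Dat.f1 (D : Dat e x P Q ω θ w w') (b : A) : J x Q (P * b) = 0 := by
  rw [D.bx.s23]; exact D.fF b

theorem Dat.g1 (D : Dat e x P Q ω θ w w') (b : A) : J x P (Q * b) = 0 := by
  rw [D.bx.s23]; exact D.fG b

theorem Dat.JPQ (D : Dat e x P Q ω θ w w') (b : A) : J P Q b = 0 := by
  obtain ⟨a1, -⟩ := D.bx.three D.hP D.hQ b
  rw [D.f1, D.g1] at a1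
  have h2 := D.h2
  apply D.cS
  linear_combination (norm := (match_scalars <;> grind)) a1

theorem Dat.GE (D : Dat e x P Q ω θ w w') (b : A) : J x (P * Q) b = 0 := by
  obtain ⟨-, a2⟩ := D.bx.three D.hP D.hQ b
  rw [D.g1, D.JPQ, D.JPQ, smul_zero, zero_add, zero_add] at a2
  rw [D.bx.s23, ← a2]

theorem Dat.XE (D : Dat e x P Q ω θ w w') (b : A) : (x * b) * (P * Q) = 0 := by
  rw [D.bx.comm]; exact D.EX b

theorem Dat.wx (D : Dat e x P Q ω θ w w') (y z : A) :
    J (P * Q) (x * y) z = (ω + θ) • J (P * Q) y z ∧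
    J (P * Q) y (x * z) = (ω + θ) • J (P * Q) y z ∧
    J x z ((P * Q) * y) = 0 := by
  have h := D.bx
  have e3 := D.xE
  have GE' : ∀ y, J x (P * Q) y = 0 := D.GE
  have EX : ∀ y, (P * Q) * (x * y) = 0 := D.EX
  have XE := D.XE
  have cS := D.cS
  set E := P * Q with hE
  have A1 : ∀ y z, (ω + θ) • J E y z = J E (x * y) z + J x y (E * z) := by
    intro y z
    have g1 := gg_x1 x E y z
    have g2 := h.gx2 x E y z
    rw [e3, J_smul1, GE', add_zero] at g1
    rw [g1, h.s12 (x * y) E z] at g2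
    exact g2
  have A2 : ∀ y z, (ω + θ) • J E y z = J E y (x * z) + J x z (E * y) := by
    intro y z
    have g1 := gg_x1 x E y z
    have g2 := h.gx3 x E y z
    rw [e3, J_smul1, GE', add_zero] at g1
    rw [g1, J_cyc (x * z) E y] at g2
    exact g2
  have B : ∀ y z, J E y (x * z) = J E (x * y) z := by
    intro y z
    have a1 := A1 y (x * z)
    have a2 := A2 (x * y) z
    rw [EX, J_zero3, add_zero] at a1
    rw [EX, J_zero3, add_zero] at a2
    rw [← sub_eq_zero]
    refine cS _ ?_
    rw [smul_sub, a1, a2, sub_self]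
  have C' : ∀ y z, J x y (E * z) = J x z (E * y) := by
    intro y z
    have a1 := A1 y z
    have a2 := A2 y z
    rw [a1, B] at a2
    exact add_left_cancel a2
  have C2 : ∀ y z, J x z (E * y) = 0 := by
    intro y z
    have b1 := C' y (x * z)
    have b2 := h.x_mul x E y
    rw [e3, EX, GE', add_zero, add_zero, smul_mul_assoc] at b2
    rw [EX, J_zero3, h.gm, b2, J_smul3] at b1
    exact cS _ b1.symm
  refine ⟨?_, ?_, C2 y z⟩
  · have := A1 y z
    rw [C', C2, add_zero] at this
    exact this.symm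
  · have := A2 y z
    rw [C2, add_zero] at this
    exact this.symm

/-- Half of the computation near the weight `w + w'`. -/
theorem Dat.half (D : Dat e x P Q ω θ w w') {s t : A}
    {σ τ : R} (hs : x * s = σ • s) (ht : x * t = τ • t) (es : e σ = w + w')
    (et : e τ = w + w') : J (P * s) Q t = 0 := by
  have h := D.bx
  have h2 := D.h2
  have F2 := D.toLoc.F2
  have k1 : J x P s = 0 := D.cn (r := ω + σ) (by
    rw [map_add, D.eP, es]; intro h0; apply D.b; linear_combination h0 - w * F2) _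
      (h.G2 h2 D.hP hs)
  have hPs := h.eig_mul D.hP hs k1
  have kk : ∀ b, J x (P * s) b = 0 := fun b => (h.AB h2 D.hP hs
    (D.cn (by rw [map_add, D.eP, es]; intro h0; apply D.b; linear_combination h0 - w * F2))
    D.cP (D.cn (by rw [es]; exact D.ab)) b).2.2
  have hPsQ := h.eig_mul hPs D.hQ (kk Q)
  have k2 : J x t ((P * s) * Q) = 0 := D.cn (r := τ + (ω + σ + θ)) (by
    rw [map_add, map_add, map_add, D.eP, es, et, D.eQ]
    intro h0; apply D.ab; linear_combination h0 - (w + w') * F2) _ (h.G2 h2 ht hPsQ)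
  have g1 := gg_x1 x (P * s) Q t
  have g3 := h.gx3 x (P * s) Q t
  rw [hPs, J_smul1, kk, add_zero] at g1
  rw [ht, J_smul1, k2, add_zero, J_cyc t (P * s) Q] at g3
  refine D.cn (r := ω + σ + τ) (by
    rw [map_add, map_add, D.eP, es, et]
    intro h0; apply D.a; linear_combination h0 - (w + w') * F2) _ ?_
  linear_combination (norm := (match_scalars <;> grind)) g1 - g3

/-- Both weights near `w + w'`. -/
theorem Dat.near (D : Dat e x P Q ω θ w w') {s t : A} {σ τ : R}
    (hs : x * s = σ • s) (ht : x * t = τ • t) (es : e σ = w + w') (et : e τ = w + w') :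
    J (P * Q) s t = 0 := by
  have h := D.bx
  have k1 := D.half hs ht es et
  have k2 := D.swap.half ht hs (by rw [et, add_comm]) (by rw [es, add_comm])
  have g : gg P Q s t = 0 := by
    rw [h.g23]
    unfold gg
    rw [k1, k2, add_zero]
  unfold gg at g
  rw [J_cyc (s * t) P Q, D.JPQ, add_zero] at g
  exact g

/-- One weight near `w + w'`. -/
theorem Dat.near1 (D : Dat e x P Q ω θ w w') {s : A} {σ : R}
    (hs : x * s = σ • s) (es : e σ = w + w') (z : A) :
    J (P * Q) s z = 0 := by
  have h := D.bx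
  have hx := x_letter R h z
  set t := letter R x z with ht
  set W := J (io R P * io R Q) (io R s) t with hW
  have a1 := (D.ext.wx (io R s) t).2.1
  rw [hx, J_smul3, ← hW] at a1
  have a2 : (X - C (ω + θ) : R[X]) • W = 0 := by
    rw [sub_smul, a1, Ext.C_smul, sub_self]
  have a3 : W = 0 := by
    refine removal e D.toLoc _ _ a2 ?_
    rw [hW, pr_J, pr_mul]
    exact (D.tq _).near (pr_eig e _ h hs) (tq_letter e _ h z) (by rw [pt_C, es])
      (by rw [pt_X, map_add, D.eP, D.eQ])
  have a4 := congrArg (ev R 0) a3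
  rw [ev_zero, hW, io_mul R h, ev_J3 R h, ht, ev_letter] at a4
  exact a4

/-- All Jacobians with `E` vanish. -/
theorem Dat.JE (D : Dat e x P Q ω θ w w') (y z : A) : J (P * Q) y z = 0 := by
  have h := D.bx
  have hx := x_letter R h y
  set t := letter R x y with ht
  set W := J (io R P * io R Q) t (io R z) with hW
  have a1 := (D.ext.wx t (io R z)).1
  rw [hx, J_smul2, ← hW] at a1
  have a2 : (X - C (ω + θ) : R[X]) • W = 0 := by
    rw [sub_smul, a1, Ext.C_smul, sub_self]
  have a3 : W = 0 := by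
    refine removal e D.toLoc _ _ a2 ?_
    rw [hW, pr_J, pr_mul]
    exact (D.tq _).near1 (tq_letter e _ h y) (by rw [pt_X, map_add, D.eP, D.eQ]) _
  have a4 := congrArg (ev R 0) a3
  rw [ev_zero, hW, io_mul R h, ev_J2 R h, ht, ev_letter] at a4
  exact a4

/-! ### The product of `E` with a Jacobian -/

theorem Dat.Emul (D : Dat e x P Q ω θ w w') (y : A) :
    (P * Q) * y = P * (Q * y) + Q * (P * y) := by
  have k := D.JPQ y
  unfold J at k
  rw [D.bx.comm (Q * y) P, D.bx.comm y P, D.bx.comm (P * y) Q, add_assoc] at k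
  exact D.bx.eq_of k

theorem Dat.xEmul (D : Dat e x P Q ω θ w w') (y : A) :
    x * ((P * Q) * y) = (ω + θ) • ((P * Q) * y) := by
  rw [D.bx.x_mul, D.xE, D.EX, D.GE, add_zero, add_zero, smul_mul_assoc]

theorem Dat.rho (D : Dat e x P Q ω θ w w') (y : A) : P * J x Q y = 0 := by
  have h := D.bx
  have h2 := D.h2
  have r1 : ∀ {P Q : A} {ω θ : R} {w w' : F} (D : Dat e x P Q ω θ w w') (y : A),
      P * J x Q y = x * (P * (Q * y)) + (ω + θ) • (P * (Q * y)) + P * (Q * (x * y)) := by
    intro P Q ω θ w w' D y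
    have k1 := h.x_mul x Q y
    have k2 := h.x_mul x P (Q * y)
    rw [D.hQ, smul_mul_assoc] at k1
    rw [D.hP, smul_mul_assoc, D.g1, add_zero] at k2
    have k3 : J x Q y = x * (Q * y) + θ • (Q * y) + Q * (x * y) := by linear_combination (norm := (match_scalars <;> grind)) k1
    rw [k3, mul_add, mul_add, mul_smul_comm]
    linear_combination (norm := (match_scalars <;> grind)) k2
  have k : ∀ y, P * J x Q y = Q * J x P y := by
    intro y
    have e1 := r1 D y
    have e2 := r1 D.swap y
    have e3 := D.Emul y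
    have e4 := D.Emul (x * y)
    rw [D.EX] at e4
    have e5 := D.xEmul y
    rw [e3, mul_add] at e5
    rw [e1, e2]
    linear_combination (norm := (match_scalars <;> grind)) e5 - e4
  have c := k (x * y)
  rw [← h.gm, D.hQ, ← h.gm, D.hP, J_smul2, J_smul2, mul_smul_comm, mul_smul_comm, ← k y] at c
  apply D.cS
  linear_combination (norm := (match_scalars <;> grind)) c

theorem Dat.gg0 (D : Dat e x P Q ω θ w w') (a y : A) : gg P Q a y = 0 := by
  unfold gg
  rw [D.JE, J_cyc (a * y) P Q, D.JPQ, add_zero]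

theorem Dat.lam (D : Dat e x P Q ω θ w w') (a y : A) : P * J Q a y = Q * J P a y := by
  have h := D.bx
  have k := h.gS P Q a y
  rw [D.gg0, D.JPQ, D.JPQ, zero_mul, zero_mul, add_zero, add_zero, h.comm (J P a y),
    h.comm (J Q a y)] at k
  exact (h.eq_of k.symm).symm

theorem Dat.phi (D : Dat e x P Q ω θ w w') (a y : A) : J (P * a) Q y = J P a (Q * y) := by
  have h := D.bx
  have k := D.gg0 a y
  rw [h.g23] at k
  unfold gg at k
  rw [h.eq_of k, J_cyc]

theorem Dat.Ga (D : Dat e x P Q ω θ w w') {a : A} {α : R} (ha : x * a = α • a) (ea : e α = 0) :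
    J x P a = 0 :=
  D.cn (r := ω + α) (by rw [map_add, ea, D.eP, add_zero]; exact D.a) _
    (D.bx.G2 D.h2 D.hP ha)

theorem Dat.xaQ (D : Dat e x P Q ω θ w w') {a : A} {α : R} (ha : x * a = α • a) (y : A) :
    J x a (Q * y) = (θ + α) • J Q a y + J x Q (a * y) := by
  have h := D.bx
  have h2 := D.h2
  have k1 := gg_x1 x Q a y
  have k2 := h.gx2 x Q a y
  rw [D.hQ, J_smul1] at k1
  rw [ha, J_smul1, h.s12 a Q y] at k2
  linear_combination (norm := (match_scalars <;> grind)) k1 - k2

theorem Dat.lam2 (D : Dat e x P Q ω θ w w') {a : A} {α : R} (ha : x * a = α • a)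
    (ea : e α = 0) (y : A) :
    P * J Q a (x * (x * y)) = α • (P * J Q a (x * y)) + (θ * (θ + α)) • (P * J Q a y) := by
  have h := D.bx
  have h2 := D.h2
  have k0 : ∀ y, P * J x a (Q * y) = (θ + α) • (P * J Q a y) := by
    intro y
    rw [D.xaQ ha, mul_add, mul_smul_comm, D.rho, add_zero]
  have k1 : ∀ y, P * J x a (Q * (x * y)) =
      (θ + α) • (P * J x a (Q * y)) + P * J x a (J x Q y) := by
    intro y
    have m := h.x_mul x Q y
    rw [D.hQ, smul_mul_assoc] at m
    have m' : Q * (x * y) = x * (Q * y) + θ • (Q * y) + J x Q y := by linear_combination (norm := (match_scalars <;> grind)) m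
    rw [m', J_add3, J_add3, ← h.gm, ha, J_smul2, J_smul3, mul_add, mul_add, mul_smul_comm,
      mul_smul_comm]
    linear_combination (norm := (match_scalars <;> grind)) (0 : R) • (rfl : y = y)
  have k2 : J x Q (x * y) = θ • J x Q y := by rw [← h.gm, D.hQ, J_smul2]
  have a1 := k1 y
  have a2 := k1 (x * y)
  rw [k0, k0] at a1
  rw [k0, k0, k2, J_smul3, mul_smul_comm] at a2
  refine sub_eq_zero.mp (D.cn (r := θ + α) (by
    rw [map_add, ea, D.eQ, add_zero]; exact D.b) _ ?_)
  linear_combination (norm := (match_scalars <;> grind)) a2 + θ • a1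

theorem Dat.lam0 (D : Dat e x P Q ω θ w w') {a : A} {α : R} (ha : x * a = α • a)
    (ea : e α = 0) (y : A) : P * J Q a y = 0 := by
  have h2 := D.h2
  have k1 := D.lam2 ha ea y
  have k2 := D.swap.lam2 ha ea y
  rw [← D.lam, ← D.lam, ← D.lam] at k2
  refine D.cS _ (D.cn (r := ω + θ + α) (by
    rw [map_add, map_add, D.eP, D.eQ, ea, add_zero]; exact D.ab) _ ?_)
  linear_combination (norm := (match_scalars <;> grind)) k1 - k2

theorem Dat.xphi (D : Dat e x P Q ω θ w w') {a : A} {α : R} (ha : x * a = α • a)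
    (ea : e α = 0) (y : A) :
    x * J P a (Q * y) = α • J P a (Q * y) + J x a (P * (Q * y)) := by
  have h := D.bx
  have h2 := D.h2
  have k4 := h.gx4 x P a (Q * y)
  have k2 := h.gx2 x P a (Q * y)
  rw [D.Ga ha ea, D.g1, zero_mul, zero_mul, add_zero, add_zero, h.comm (J x a (Q * y)) P,
    D.xaQ ha, mul_add, mul_smul_comm, D.rho, D.lam0 ha ea, smul_zero, add_zero, add_zero] at k4
  rw [ha, J_smul1, h.s12 a P] at k2
  rw [← k4, k2]

/-- The value on three elements of weight near zero. -/
theorem Dat.nearJ (D : Dat e x P Q ω θ w w') {a b c : A} {α β γ : R} (ha : x * a = α • a)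
    (hb : x * b = β • b) (hc : x * c = γ • c) (ea : e α = 0) (eb : e β = 0) (ec : e γ = 0) :
    (P * Q) * J a b c = 0 := by
  have h := D.bx
  have h2 := D.h2
  -- the value as a Jacobian
  have v : (P * Q) * J a b c = J ((P * Q) * a) b c := by
    have k := h.gS (P * Q) a b c
    rw [D.JE, D.JE, D.JE, zero_mul, zero_mul, zero_mul, zero_add, add_zero, add_zero] at k
    rw [h.comm, ← k]
    unfold gg
    rw [J_cyc (b * c) (P * Q) a, D.JE, add_zero]
  -- one half
  have half : ∀ {P Q : A} {ω θ : R} {w w' : F} (D : Dat e x P Q ω θ w w'),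
      J (P * (Q * a)) b c = J Q a (P * (b * c)) := by
    intro P Q ω θ w w' D
    have gPb := D.Ga hb eb
    have gQa := D.swap.Ga ha ea
    have hPb := h.eig_mul D.hP hb gPb
    have hQa := h.eig_mul D.hQ ha gQa
    have n1 : J (P * b) (Q * a) c = 0 := (h.AB_eig h2 hPb hQa hc
      (D.cn (by simp only [map_add, D.eP, D.eQ, ea, eb, add_zero]; exact D.ab))
      (D.cn (by simp only [map_add, D.eP, eb, add_zero]; exact D.a))
      (D.cn (by simp only [map_add, D.eQ, ea, add_zero]; exact D.b))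
      (D.cn (by simp only [map_add, D.eP, eb, ec, add_zero, zero_add]; exact D.a))
      (D.cn (by simp only [map_add, D.eQ, ea, ec, add_zero, zero_add]; exact D.b))).1
    have gQac : J x (Q * a) c = 0 := D.cn (r := θ + α + γ) (by
      simp only [map_add, D.eQ, ea, ec, add_zero]; exact D.b) _ (h.G2 h2 hQa hc)
    have hQac := h.eig_mul hQa hc gQac
    have n2 : J ((Q * a) * c) P b = 0 := (h.AB_eig h2 hQac D.hP hb
      (D.cn (by simp only [map_add, D.eP, D.eQ, ea, ec, add_zero, add_comm w' w]; exact D.ab))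
      (D.cn (by simp only [map_add, D.eQ, ea, ec, add_zero]; exact D.b)) D.cP
      (D.cn (by simp only [map_add, D.eQ, ea, eb, ec, add_zero, zero_add]; exact D.b))
      (D.cn (by simp only [map_add, D.eP, eb, zero_add]; exact D.a))).1
    have g : gg P (Q * a) b c = 0 := by
      rw [h.g23]
      unfold gg
      rw [n1, n2, add_zero]
    unfold gg at g
    rw [h.eq_of g, ← D.swap.phi, J_cyc]
    rw [h.s12]
  have s1 := half D
  have s2 := half D.swap
  have x1 := D.xphi ha ea (b * c)
  have x2 := D.swap.xphi ha ea (b * c)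
  have t : J ((P * Q) * a) b c = J Q a (P * (b * c)) + J P a (Q * (b * c)) := by
    rw [D.Emul, J_add1, s1, s2]
  have u1 := D.xEmul (J a b c)
  have u2 : J x a ((P * Q) * (b * c)) = 0 := (D.wx (b * c) a).2.2
  rw [D.Emul, J_add3] at u2
  rw [v, t, mul_add] at u1
  rw [v, t]
  refine D.cn (r := ω + θ + α) (by
    rw [map_add, map_add, D.eP, D.eQ, ea, add_zero]; exact D.ab) _ ?_
  linear_combination (norm := (match_scalars <;> grind)) x1 + x2 - u1 + u2

theorem Dat.psi (D : Dat e x P Q ω θ w w') (a b c : A) :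
    (P * Q) * J a b c = gg (P * Q) a b c := by
  have h := D.bx
  have k := h.gS (P * Q) a b c
  rw [D.JE, D.JE, D.JE, zero_mul, zero_mul, zero_mul, zero_add, add_zero, add_zero] at k
  rw [h.comm, ← k]

theorem Dat.psix (D : Dat e x P Q ω θ w w') (a b c : A) :
    (P * Q) * J a b (x * c) = 0 := by
  have h := D.bx
  rw [D.psi, h.g24]
  unfold gg
  rw [D.EX, J_zero1, J_cyc (b * a) (P * Q) (x * c), D.JE, add_zero]

theorem Dat.nearJ2 (D : Dat e x P Q ω θ w w') {a b : A} {α β : R} (ha : x * a = α • a)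
    (hb : x * b = β • b) (ea : e α = 0) (eb : e β = 0) (c : A) :
    (P * Q) * J a b c = 0 := by
  have h := D.bx
  have hx := x_letter R h c
  set t := letter R x c with ht
  set W := (io R P * io R Q) * J (io R a) (io R b) t with hW
  have a1 := D.ext.psix (io R a) (io R b) t
  rw [hx, J_smul3, mul_smul_comm, ← hW] at a1
  have a2 : (X - C 0 : R[X]) • W = 0 := by
    rw [C_0, sub_zero, a1]
  have a3 : W = 0 := by
    refine removal e D.toLoc 0 _ a2 ?_
    rw [hW, pr_mul, pr_J, pr_mul]
    exact (D.tq _).nearJ (pr_eig e _ h ha) (pr_eig e _ h hb) (tq_letter e _ h c)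
      (by rw [pt_C, ea]) (by rw [pt_C, eb]) (by rw [pt_X, map_zero])
  have a4 := congrArg (ev R 0) a3
  rw [ev_zero, hW, io_mul R h, ev_io_mul, ev_J3 R h, ht, ev_letter] at a4
  exact a4

theorem Dat.nearJ1 (D : Dat e x P Q ω θ w w') {a : A} {α : R} (ha : x * a = α • a)
    (ea : e α = 0) (b c : A) : (P * Q) * J a b c = 0 := by
  have h := D.bx
  have hx := x_letter R h b
  set t := letter R x b with ht
  set W := (io R P * io R Q) * J (io R a) (io R c) t with hW
  have a1 := D.ext.psix (io R a) (io R c) t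
  rw [hx, J_smul3, mul_smul_comm, ← hW] at a1
  have a2 : (X - C 0 : R[X]) • W = 0 := by
    rw [C_0, sub_zero, a1]
  have a3 : W = 0 := by
    refine removal e D.toLoc 0 _ a2 ?_
    rw [hW, pr_mul, pr_J, pr_mul, (TQ.bx (pt e (e 0)) (Ext.bx R h)).s23]
    exact (D.tq _).nearJ2 (pr_eig e _ h ha) (tq_letter e _ h b)
      (by rw [pt_C, ea]) (by rw [pt_X, map_zero]) _
  have a4 := congrArg (ev R 0) a3
  rw [ev_zero, hW, io_mul R h, ev_io_mul, ev_J3 R h, ht, ev_letter] at a4
  rw [h.s23]
  exact a4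

/-- The product of `E` with all Jacobians vanishes. -/
theorem Dat.EJ (D : Dat e x P Q ω θ w w') (a b c : A) : (P * Q) * J a b c = 0 := by
  have h := D.bx
  have hx := x_letter R h a
  set t := letter R x a with ht
  set W := (io R P * io R Q) * J (io R b) (io R c) t with hW
  have a1 := D.ext.psix (io R b) (io R c) t
  rw [hx, J_smul3, mul_smul_comm, ← hW] at a1
  have a2 : (X - C 0 : R[X]) • W = 0 := by
    rw [C_0, sub_zero, a1]
  have a3 : W = 0 := by
    refine removal e D.toLoc 0 _ a2 ?_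
    rw [hW, pr_mul, pr_J, pr_mul, J_cyc']
    exact (D.tq _).nearJ1 (tq_letter e _ h a) (by rw [pt_X, map_zero]) _ _
  have a4 := congrArg (ev R 0) a3
  rw [ev_zero, hW, io_mul R h, ev_io_mul, ev_J3 R h, ht, ev_letter] at a4
  rw [J_cyc]
  exact a4

end dat

end Pool.Agent.BLie.C2
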