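import Mathlib
import Pool.Agent.BLie.C2.Bridge

/-! The local data attached to two generic eigenvectors over two Jacobians, in characteristic
two. -/

set_option linter.unusedSimpArgs false
set_option linter.unusedSectionVars false
set_option linter.unusedVariables false
set_option linter.unnecessarySeqFocus false

namespace Pool.Agent.BLie.C2

open Pool.Agent.BLie Polynomial

universe u v

section locf

variable {R : Type u} {F : Type v} [CommRing R] [Field F] {e : R →+* F}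
  {A : Type u} [NonUnitalNonAssocRing A] [Module R A]
  [IsScalarTower R A A] [SMulCommClass R A A] {x : A}

/-- Hypotheses on the weights. -/
structure GoodC {F : Type v} [Field F] (k l w w' : F) : Prop where
  a : w ≠ 0
  b : w' ≠ 0
  k0 : k ≠ 0
  l0 : l ≠ 0
  k1 : k + w' ≠ 0
  l1 : l + w ≠ 0
  hd : ∀ ρ ∈ Spec k k w', ∀ ρ' ∈ Spec l l w, ρ ≠ ρ'

theorem ev2_prod (h : BX x) (g H y : A) (j k : ℕ) :
    ev R j (ev R[X] k ((io R[X] (io R g) * io R[X] (letter R x H)) *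
      letter R[X] (io R x) (io R y))) = (g * pw x j H) * pw x k y := by
  have hB := Ext.bx R h
  have e1 : (fun z => io R x * z)^[k] (io R y) = io R (pw x k y) := io_pw h y k
  rw [io_mul _ hB, ev_io_mul, ev_letter, e1, ev_mul_io _ h, ev_io_mul, ev_letter]
  rfl

theorem ev2_J (h : BX x) (g H y : A) (j k : ℕ) :
    ev R j (ev R[X] k (J (io R[X] (io R x)) (io R[X] (io R g) * letter R[X] (io R x) (io R y))
      (io R[X] (letter R x H)))) = J x (g * pw x k y) (pw x j H) := by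
  have hB := Ext.bx R h
  have e1 : (fun z => io R x * z)^[k] (io R y) = io R (pw x k y) := io_pw h y k
  rw [ev_J2 _ hB, ev_io_mul, ev_letter, e1, io_mul _ h, ev_J3 _ h, ev_letter]
  rfl

theorem annE1 (h2 : (2 : R) = 0) (h : BX x) {c a : A} {γ α : R} (hc : x * c = γ • c)
    (ha : x * a = α • a) {k ζ : F} (hγ : e γ = k) (hα : e α = k)
    (h0 : k ≠ 0) (hζ : ζ ≠ 0) (h1 : k + ζ ≠ 0) (H y : A) :
    ∃ s ∈ SMon e ζ (Spec (C γ) (C α) X), ∀ n : ℕ,
      (X * s) • ((io R[X] (io R (pw x n (J x c a))) * io R[X] (letter R x H)) *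
        letter R[X] (io R x) (io R y)) = 0 := by
  obtain ⟨s, hs, hk⟩ := uni (two_poly (two_poly h2)) (Ext.bx R[X] (Ext.bx R h)) (io2_eig h hc)
    (io2_eig h ha) (x2_letter h H) (x_letter R[X] (Ext.bx R h) (io R y))
    (SMon_inA (e := e) h2 hγ hα h0 hζ h1)
  refine ⟨s, hs, fun n => ?_⟩
  have := (hk n).1
  rw [io2_J h, io2_pw h] at this
  rw [mul_comm, mul_smul]
  exact this

theorem annF1 (h2 : (2 : R) = 0) (h : BX x) {c a : A} {γ α : R} (hc : x * c = γ • c)
    (ha : x * a = α • a) {k ζ : F} (hγ : e γ = k) (hα : e α = k)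
    (h0 : k ≠ 0) (h1 : k + ζ ≠ 0) (H y : A) :
    ∃ s ∈ SMon e ζ (Spec2 γ α), ∀ n : ℕ,
      s • (J (io R[X] (io R x)) (io R[X] (io R (pw x n (J x c a))) *
        letter R[X] (io R x) (io R y)) (io R[X] (letter R x H))) = 0 := by
  obtain ⟨s, hs, hk⟩ := uni (two_poly (two_poly h2)) (Ext.bx R[X] (Ext.bx R h)) (io2_eig h hc)
    (io2_eig h ha) (x_letter R[X] (Ext.bx R h) (io R y)) (x2_letter h H)
    (SMon_inB (e := e) h2 hγ hα h0 h1)
  refine ⟨s, hs, fun n => ?_⟩
  have := (hk n).2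
  rw [io2_J h, io2_pw h] at this
  exact this

theorem A2E (h2 : (2 : R) = 0) (h : BX x) {c a u v : A} {γ α μ ν : R} (hc : x * c = γ • c)
    (ha : x * a = α • a) (hu : x * u = μ • u) (hv : x * v = ν • v) {k l w w' : F}
    (hγ : e γ = k) (hα : e α = k) (hμ : e μ = l) (hν : e ν = l)
    (gd : GoodC k l w w') (y : A) :
    ∃ r : R[X][X], pt (pt e w') w r ≠ 0 ∧
      r • ((letter R[X] (io R x) (io R (J x c a)) * io R[X] (letter R x (J x u v))) *
        io R[X] (io R (x * y))) = 0 := by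
  set G := J x c a with hG
  set H := J x u v with hH
  obtain ⟨s, hs, k1⟩ := annE1 (e := e) h2 h hc ha hγ hα gd.k0 gd.b gd.k1 H y
  obtain ⟨s', hs', k2⟩ := annE1 (e := e) h2 h hu hv hμ hν gd.l0 gd.a gd.l1 G y
  rw [← hG] at k1
  rw [← hH] at k2
  have m1 : i1 (X * s) ∈ AnnP (Fam3 x G H y) :=
    AnnP_of1 _ k1 (fun i j k => by rw [ev2_prod h]; rfl)
  have m2 : i2 (X * s') ∈ AnnP (Fam3 x G H y) :=
    AnnP_of2 _ k2 (fun j i k => by rw [ev2_prod h, h.comm (pw x j H)]; rfl)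
  have hd' : ∀ ρ ∈ Spec (C γ) (C α) (X : R[X]), ∀ ρ' ∈ Spec (C μ) (C ν) (X : R[X]),
      pt e w' ρ ≠ pt e w ρ' := by
    intro ρ hρ ρ' hρ'
    apply gd.hd
    · have := Spec_map (pt e w') hρ
      rwa [pt_C, pt_C, pt_X, hγ, hα] at this
    · have := Spec_map (pt e w) hρ'
      rwa [pt_C, pt_C, pt_X, hμ, hν] at this
  obtain ⟨a1, b1, r, hr, hab⟩ := copS h2 hd' hs hs'
  refine ⟨r, hr, fin_zero (k0 := 1) ?_ (elE h G H y)⟩
  have := AnnP_add (AnnP_mul m1 a1) (AnnP_mul m2 b1)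
  rw [map_mul, map_mul] at this
  have x1 : (i1 X : R[X][X][X]) = X := by unfold i1; simp
  have x2 : (i2 X : R[X][X][X]) = X := by unfold i2; simp
  rw [x1, x2, show a1 * (X * i1 s) + b1 * (X * i2 s') = X * (a1 * i1 s + b1 * i2 s') by ring,
    hab] at this
  rw [pow_one]
  exact this

theorem A2F (h2 : (2 : R) = 0) (h : BX x) {c a : A} {γ α : R} (hc : x * c = γ • c)
    (ha : x * a = α • a) {k l w w' : F}
    (hγ : e γ = k) (hα : e α = k)
    (gd : GoodC k l w w') (H b : A) :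
    ∃ r : R[X][X], pt (pt e w') w r ≠ 0 ∧
      r • J (io R[X] (io R x)) (letter R[X] (io R x) (io R (J x c a)) * io R[X] (io R b))
        (io R[X] (letter R x H)) = 0 := by
  have F2 := two_F h2 e
  set G := J x c a with hG
  obtain ⟨s, hs, k1⟩ := annF1 (e := e) (ζ := w') h2 h hc ha hγ hα gd.k0 gd.k1 H b
  rw [← hG] at k1
  have m1 : i1 s ∈ AnnP (FamF x G H b) :=
    AnnP_of1 _ k1 (fun i j k => by rw [ev2_J h]; rfl)
  have w1 : k ≠ w := fun h => gd.hd k (by simp [Spec]) w (by simp [Spec]) h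
  have w2 : w' ≠ w := gd.hd w' (by simp [Spec]) w (by simp [Spec])
  have w3 : k + w' ≠ w := gd.hd _ (by simp [Spec]) w (by simp [Spec])
  have hd' : ∀ ρ ∈ Spec2 γ α, pt e w' ρ ≠ w ∧ pt e w' ρ ≠ w + w' := by
    intro ρ hρ
    simp only [Spec2, Set.mem_insert_iff, Set.mem_singleton_iff] at hρ
    have d0 : (0 : F) ≠ w ∧ (0 : F) ≠ w + w' := ⟨gd.a.symm, fun h => w2 (by
      linear_combination h + w' * F2)⟩
    have dk : k ≠ w ∧ k ≠ w + w' := ⟨w1, fun h => w3 (by linear_combination h + w' * F2)⟩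
    have dw : w' ≠ w ∧ w' ≠ w + w' := ⟨w2, fun h => gd.a (by linear_combination -h)⟩
    have dkw : k + w' ≠ w ∧ k + w' ≠ w + w' := ⟨w3, fun h => w1 (by linear_combination h)⟩
    have kk : k + k = 0 := by linear_combination k * F2
    rcases hρ with h | h | h | h | h | h | h | h
    · rw [h, map_zero]; exact d0
    · rw [h, pt_C, hγ]; exact dk
    · rw [h, pt_C, hα]; exact dk
    · rw [h, map_add, pt_C, pt_C, hγ, hα, kk]; exact d0
    · rw [h, pt_X]; exact dw
    · rw [h, map_add, map_add, pt_C, pt_C, pt_X, hγ, hα, kk, add_zero]; exact dw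
    · rw [h, map_add, pt_C, pt_X, hα, add_comm]; exact dkw
    · rw [h, map_add, pt_C, pt_X, hγ, add_comm]; exact dkw
  obtain ⟨a1, b1, r, hr, hab⟩ := copF h2 hd' hs
  refine ⟨r, hr, fin_zero (k0 := 0) ?_ (elF h G H b)⟩
  have := AnnP_add (AnnP_mul m1 a1) (AnnP_mul (annF h G H b) b1)
  rw [hab] at this
  rw [pow_zero, one_mul]
  exact this

theorem A2G (h2 : (2 : R) = 0) (h : BX x) {u v : A} {μ ν : R} (hu : x * u = μ • u)
    (hv : x * v = ν • v) {k l w w' : F} (hμ : e μ = l) (hν : e ν = l)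
    (gd : GoodC k l w w') (G b : A) :
    ∃ r : R[X][X], pt (pt e w') w r ≠ 0 ∧
      r • J (io R[X] (io R x)) (io R[X] (letter R x (J x u v)) * io R[X] (io R b))
        (letter R[X] (io R x) (io R G)) = 0 := by
  have F2 := two_F h2 e
  set H := J x u v with hH
  obtain ⟨s, hs, k1⟩ := annF1 (e := e) (ζ := w) h2 h hu hv hμ hν gd.l0 gd.l1 G b
  rw [← hH] at k1
  have m1 : i2 s ∈ AnnP (FamG x G H b) :=
    AnnP_of2 _ k1 (fun i j k => by rw [ev2_J h]; rfl)
  have w1 : w' ≠ l := gd.hd w' (by simp [Spec]) l (by simp [Spec])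
  have w2 : w' ≠ w := gd.hd w' (by simp [Spec]) w (by simp [Spec])
  have w3 : w' ≠ l + w := gd.hd w' (by simp [Spec]) _ (by simp [Spec])
  have hd' : ∀ ρ ∈ Spec2 μ ν, pt e w ρ ≠ w' ∧ pt e w ρ ≠ w + w' := by
    intro ρ hρ
    simp only [Spec2, Set.mem_insert_iff, Set.mem_singleton_iff] at hρ
    have d0 : (0 : F) ≠ w' ∧ (0 : F) ≠ w + w' := ⟨gd.b.symm, fun h => w2 (by
      linear_combination h + w' * F2)⟩
    have dk : l ≠ w' ∧ l ≠ w + w' := ⟨w1.symm, fun h => w3 (by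
      linear_combination -h - w * F2)⟩
    have dw : w ≠ w' ∧ w ≠ w + w' := ⟨w2.symm, fun h => gd.b (by linear_combination -h)⟩
    have dkw : l + w ≠ w' ∧ l + w ≠ w + w' := ⟨w3.symm, fun h => w1 (by
      linear_combination -h)⟩
    have kk : l + l = 0 := by linear_combination l * F2
    rcases hρ with h | h | h | h | h | h | h | h
    · rw [h, map_zero]; exact d0
    · rw [h, pt_C, hμ]; exact dk
    · rw [h, pt_C, hν]; exact dk
    · rw [h, map_add, pt_C, pt_C, hμ, hν, kk]; exact d0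
    · rw [h, pt_X]; exact dw
    · rw [h, map_add, map_add, pt_C, pt_C, pt_X, hμ, hν, kk, add_zero]; exact dw
    · rw [h, map_add, pt_C, pt_X, hν, add_comm]; exact dkw
    · rw [h, map_add, pt_C, pt_X, hμ, add_comm]; exact dkw
  obtain ⟨a1, b1, r, hr, hab⟩ := copG h2 hd' hs
  refine ⟨r, hr, fin_zero (k0 := 0) ?_ (elG h G H b)⟩
  have := AnnP_add (AnnP_mul m1 a1) (AnnP_mul (annG h G H b) b1)
  rw [hab] at this
  rw [pow_zero, one_mul]
  exact this

end locf

end Pool.Agent.BLie.C2
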