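import Mathlib
import Pool.Agent.BLie.C2.Loc
import Pool.Agent.BLie.C2.LocF
import Pool.Agent.BLie.LocF

/-! The local data attached to two generic eigenvectors over two Jacobians, in characteristic
two. -/

set_option linter.unusedSimpArgs false
set_option linter.unusedSectionVars false
set_option linter.unusedVariables false
set_option linter.unnecessarySeqFocus false

namespace Pool.Agent.BLie.C2

open Pool.Agent.BLie Polynomial

universe u v

section datof

variable {R : Type u} {F : Type v} [CommRing R] [Field F] {e : R →+* F}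
  {A : Type u} [NonUnitalNonAssocRing A] [Module R A]
  [IsScalarTower R A A] [SMulCommClass R A A] {x : A}

/-- Reduction of a linear identity to constants. -/
theorem red2 {N : Type*} [AddCommGroup N] [Module R[X][X] N] (Φ : Ext R[X] (Ext R A) → N)
    (hadd : ∀ a b, Φ (a + b) = Φ a + Φ b) (hsmul : ∀ (r : R[X][X]) a, Φ (r • a) = r • Φ a)
    (h1 : ∀ b f, Φ (el b f) = Φ (io R[X] b))
    (h2 : ∀ b f, Φ (io R[X] (el b f)) = Φ (io R[X] (io R b)))
    (h3 : ∀ b, Φ (io R[X] (io R b)) = 0) (b : Ext R[X] (Ext R A)) : Φ b = 0 := by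
  refine span_ind (S := R[X][X]) span_el Φ hadd hsmul ?_ b
  rintro _ ⟨b, f, rfl⟩
  rw [h1]
  have hb : b ∈ Submodule.span R[X] {w : Ext R A | ∃ a f, w = el a f} := by
    rw [span_el]; trivial
  induction hb using Submodule.span_induction with
  | zero =>
    rw [io_zero]
    have := hsmul 0 0
    rwa [zero_smul, zero_smul] at this
  | add b b' _ _ h1 h2 => rw [← io_add, hadd, h1, h2, add_zero]
  | smul r b _ h1 => rw [io_smul, ← Ext.C_smul, hsmul, h1, smul_zero]
  | mem b hb =>
    obtain ⟨b, f, rfl⟩ := hb
    rw [h2, h3]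

theorem PQ_eq (h : BX x) (G H : A) :
    PQ R x G H = el 0 (fun i => el 0 (fun j => pw x i G * pw x j H)) := by
  have hB := Ext.bx R h
  unfold PQ
  rw [letter_io h]
  unfold io
  rw [el_mul hB]
  congr 1
  · rw [zero_mul]
  · funext n
    rw [mul_zero, zero_add]
    unfold letter
    rw [el_mul h]
    congr 1
    · rw [mul_zero]
    · funext j
      simp [pw]

theorem PQ_x1 (h : BX x) (G H : A) (b : Ext R A) (f : ℕ → Ext R A) :
    PQ R x G H * (io R[X] (io R x) * el b f) = PQ R x G H * (io R[X] (io R x) * io R[X] b) := by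
  have hB := Ext.bx R h
  rw [PQ_eq h]
  unfold io
  rw [el_mul hB, el_mul hB, el_mul hB, el_mul hB]
  congr 1
  funext n
  simp

theorem PQ_x2 (h : BX x) (G H : A) (b : A) (f : ℕ → A) :
    PQ R x G H * (io R[X] (io R x) * io R[X] (el b f)) =
      PQ R x G H * (io R[X] (io R x) * io R[X] (io R b)) := by
  have hB := Ext.bx R h
  rw [PQ_eq h]
  unfold io
  rw [el_mul hB, el_mul hB, el_mul hB, el_mul hB]
  congr 1
  funext n
  simp only [zero_mul, mul_zero, zero_add, add_zero]
  rw [el_mul h, el_mul h, el_mul h, el_mul h]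
  congr 1
  funext j
  simp

theorem F_x1 (h : BX x) (G H : A) (b : Ext R A) (f : ℕ → Ext R A) :
    J (io R[X] (io R x)) (letter R[X] (io R x) (io R G) * el b f) (io R[X] (letter R x H)) =
    J (io R[X] (io R x)) (letter R[X] (io R x) (io R G) * io R[X] b)
      (io R[X] (letter R x H)) := by
  have hB := Ext.bx R h
  rw [letter_io h]
  unfold io
  rw [el_mul hB, el_mul hB]
  congr 2
  funext n
  simp

theorem F_x2 (h : BX x) (G H : A) (b : A) (f : ℕ → A) :
    J (io R[X] (io R x)) (letter R[X] (io R x) (io R G) * io R[X] (el b f))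
      (io R[X] (letter R x H)) =
    J (io R[X] (io R x)) (letter R[X] (io R x) (io R G) * io R[X] (io R b))
      (io R[X] (letter R x H)) := by
  have hB := Ext.bx R h
  rw [letter_io h]
  unfold io
  rw [el_mul hB, el_mul hB, el_J hB, el_J hB]
  congr 1
  funext n
  simp only [zero_mul, mul_zero, zero_add, add_zero, J_zero1, J_zero2, J_zero3]
  rw [el_mul h, el_mul h]
  unfold letter
  rw [el_J h, el_J h]
  congr 1
  funext j
  simp [J_zero1, J_zero3]

theorem G_x1 (h : BX x) (G H : A) (b : Ext R A) (f : ℕ → Ext R A) :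
    J (io R[X] (io R x)) (io R[X] (letter R x H) * el b f) (letter R[X] (io R x) (io R G)) =
    J (io R[X] (io R x)) (io R[X] (letter R x H) * io R[X] b)
      (letter R[X] (io R x) (io R G)) := by
  have hB := Ext.bx R h
  rw [letter_io h]
  unfold io
  rw [el_mul hB, el_mul hB, el_J hB, el_J hB]
  congr 1
  funext n
  simp [J_zero1, J_zero3]

theorem G_x2 (h : BX x) (G H : A) (b : A) (f : ℕ → A) :
    J (io R[X] (io R x)) (io R[X] (letter R x H) * io R[X] (el b f))
      (letter R[X] (io R x) (io R G)) =
    J (io R[X] (io R x)) (io R[X] (letter R x H) * io R[X] (io R b))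
      (letter R[X] (io R x) (io R G)) := by
  have hB := Ext.bx R h
  have e1 : letter R x H * el b f = letter R x H * (io R b : Ext R A) := by
    unfold letter io
    rw [el_mul h, el_mul h]
    congr 1
    funext n
    simp
  rw [io_mul _ hB, io_mul _ hB, e1]

theorem dat_of (h2 : (2 : R) = 0) (h : BX x) {c a u v : A} {γ α μ ν : R} (hc : x * c = γ • c)
    (ha : x * a = α • a) (hu : x * u = μ • u) (hv : x * v = ν • v) {k l w w' : F}
    (hγ : e γ = k) (hα : e α = k) (hμ : e μ = l) (hν : e ν = l) (gd : GoodC k l w w') :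
    Dat (pt (pt e w') w) (A := TQ (pt (pt e w') w) (Ext R[X] (Ext R A)))
      (pr _ _ (io R[X] (io R x))) (pr _ _ (letter R[X] (io R x) (io R (J x c a))))
      (pr _ _ (io R[X] (letter R x (J x u v)))) X (C X) w w' where
  toLoc := TQ.loc _ (two_poly (two_poly h2)) (Ext.bx _ (Ext.bx _ h))
  hP := tq_letter (pt e w') w (Ext.bx _ h) (io R (J x c a))
  hQ := pr_eig (pt e w') w (Ext.bx _ h) (x_letter R h (J x u v))
  eP := by rw [pt_X]
  eQ := by rw [pt_C, pt_X]
  a := gd.a
  b := gd.b
  ab := fun h0 => gd.hd w' (by simp [Spec]) w (by simp [Spec])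
    (by linear_combination h0 - w * two_F h2 e)
  EX := by
    intro b
    obtain ⟨b, rfl⟩ := pr_surj _ b
    rw [← pr_mul, ← pr_mul, ← pr_mul]
    set G := J x c a with hG
    set H := J x u v with hH
    refine red2 (fun b => pr (pt (pt e w') w) _ (PQ R x G H * (io R[X] (io R x) * b)))
      (fun a b => by simp only [mul_add, map_add])
      (fun r a => by simp only [mul_smul_comm, map_smul])
      (fun b f => by simp only [PQ_x1 h]) (fun b f => by simp only [PQ_x2 h]) (fun b => ?_) b
    rw [io_mul _ (Ext.bx _ h), io_mul _ h, pr_eq_zero]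
    exact A2E h2 h hc ha hu hv hγ hα hμ hν gd b
  fF := by
    intro b
    obtain ⟨b, rfl⟩ := pr_surj _ b
    rw [← pr_mul, ← pr_J]
    set G := J x c a with hG
    set H := J x u v with hH
    refine red2 (fun b => pr (pt (pt e w') w) _ (J (io R[X] (io R x))
      (letter R[X] (io R x) (io R G) * b) (io R[X] (letter R x H))))
      (fun a b => by simp only [mul_add, map_add, J_add2])
      (fun r a => by simp only [mul_smul_comm, map_smul, J_smul2])
      (fun b f => by simp only [F_x1 h]) (fun b f => by simp only [F_x2 h]) (fun b => ?_) b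
    rw [pr_eq_zero]
    exact A2F h2 h hc ha hγ hα gd H b
  fG := by
    intro b
    obtain ⟨b, rfl⟩ := pr_surj _ b
    rw [← pr_mul, ← pr_J]
    set G := J x c a with hG
    set H := J x u v with hH
    refine red2 (fun b => pr (pt (pt e w') w) _ (J (io R[X] (io R x))
      (io R[X] (letter R x H) * b) (letter R[X] (io R x) (io R G))))
      (fun a b => by simp only [mul_add, map_add, J_add2])
      (fun r a => by simp only [mul_smul_comm, map_smul, J_smul2])
      (fun b f => by simp only [G_x1 h]) (fun b f => by simp only [G_x2 h]) (fun b => ?_) b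
    rw [pr_eq_zero]
    exact A2G h2 h hu hv hμ hν gd G b

end datof

end Pool.Agent.BLie.C2
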