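import Mathlib
import Pool.Agent.BLie.C2.Uni

/-! A second uniform relation for four eigenvectors, in characteristic two. -/

set_option linter.unusedSimpArgs false
set_option linter.unusedSectionVars false
set_option linter.unusedVariables false
set_option linter.unnecessarySeqFocus false

namespace Pool.Agent.BLie.C2

open Pool.Agent.BLie

universe u

section uni2

variable {R : Type u} [CommRing R] {S : Submonoid R} {B : Type u} [NonUnitalNonAssocRing B]
  [Module R B] [IsScalarTower R B B] [SMulCommClass R B B]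

/-- Relations between the values on `z` and on `z * y`. -/
structure W2 (s : R) (x y : B) (ζ η : R) (d d' : B) : Prop where
  a : s • (η • (d * y)) = 0
  b : s • J x d y = 0
  c : s • (η • d') = 0
  d : s • (ζ • (d * y) + x * d') = 0

theorem W2.add {s : R} {x y : B} {ζ η : R} {d1 d1' d2 d2' : B} (h : W2 s x y ζ η d1 d1')
    (h' : W2 s x y ζ η d2 d2') : W2 s x y ζ η (d1 + d2) (d1' + d2') where
  a := by rw [add_mul, smul_add, smul_add, h.a, h'.a, add_zero]
  b := by rw [J_add2, smul_add, h.b, h'.b, add_zero]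
  c := by rw [smul_add, smul_add, h.c, h'.c, add_zero]
  d := by
    have e : ζ • ((d1 + d2) * y) + x * (d1' + d2') =
        (ζ • (d1 * y) + x * d1') + (ζ • (d2 * y) + x * d2') := by
      rw [add_mul, mul_add, smul_add]; abel
    rw [e, smul_add, h.d, h'.d, add_zero]

theorem W2.smul {s : R} {x y : B} {ζ η : R} {d d' : B} (h : W2 s x y ζ η d d') (r : R) :
    W2 s x y ζ η (r • d) (r • d') where
  a := by rw [smul_mul_assoc, smul_comm η r, smul_comm s r, h.a, smul_zero]
  b := by rw [J_smul2, smul_comm s r, h.b, smul_zero]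
  c := by rw [smul_comm η r, smul_comm s r, h.c, smul_zero]
  d := by
    have e : ζ • ((r • d) * y) + x * (r • d') = r • (ζ • (d * y) + x * d') := by
      rw [smul_mul_assoc, mul_smul_comm, smul_add, smul_comm ζ r]
    rw [e, smul_comm s r, h.d, smul_zero]

theorem W2.xmul (h2 : (2 : R) = 0) {s : R} {x y : B} (H : BX x) {ζ η : R} (hy : x * y = η • y)
    {d d' : B} (h : W2 s x y ζ η d d') : W2 s x y ζ η (x * d) (x * d') where
  a := (WKx h2 H hy ⟨h.a, h.b⟩).1
  b := (WKx h2 H hy ⟨h.a, h.b⟩).2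
  c := by rw [← mul_smul_comm, ← mul_smul_comm, h.c, mul_zero]
  d := by
    have e := H.x_mul x d y
    rw [hy, mul_smul_comm] at e
    have e' : (x * d) * y = x * (d * y) + η • (d * y) + J x d y := by
      linear_combination (norm := (match_scalars <;> grind)) e
    have k : ζ • ((x * d) * y) + x * (x * d') =
        x * (ζ • (d * y) + x * d') + ζ • (η • (d * y)) + ζ • J x d y := by
      rw [e', mul_add, mul_smul_comm, smul_add, smul_add]; abel
    rw [k, smul_add, smul_add, ← mul_smul_comm, h.d, mul_zero, smul_comm s ζ (η • (d * y)), h.a,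
      smul_comm s ζ, h.b]
    simp

/-- Changing the second component. -/
theorem W2.of_eq {s : R} {x y : B} {ζ η : R} {d d1 d2 : B} (h : W2 s x y ζ η d d1)
    (e : s • d2 = s • d1) : W2 s x y ζ η d d2 where
  a := h.a
  b := h.b
  c := by rw [smul_comm, e, smul_comm, h.c]
  d := by
    have e1 : s • (x * d2) = s • (x * d1) := by rw [← mul_smul_comm, e, mul_smul_comm]
    rw [smul_add, e1, ← smul_add]
    exact h.d

/-- Changing the first component. -/
theorem W2.of_eq' {s : R} {x y : B} {ζ η : R} {d1 d2 d' : B} (h : W2 s x y ζ η d1 d')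
    (e : s • d2 = s • d1) : W2 s x y ζ η d2 d' where
  a := by
    have := h.a
    rw [smul_comm, ← smul_mul_assoc, ← e, smul_mul_assoc, smul_comm] at this
    exact this
  b := by
    have := h.b
    rw [← J_smul2, ← e, J_smul2] at this
    exact this
  c := h.c
  d := by
    have := h.d
    rw [smul_add, smul_comm s ζ, ← smul_mul_assoc, ← e, smul_mul_assoc, smul_comm ζ s,
      ← smul_add] at this
    exact this

theorem W2.shift (h2 : (2 : R) = 0) {s : R} {x y : B} {ζ η : R} {d d' : B}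
    (h : W2 s x y ζ η d d') : W2 s x y ζ η (ζ • d) ((ζ + η) • d') := by
  refine (h.smul ζ).of_eq ?_
  rw [add_smul, smul_add, h.c, add_zero]

theorem W2.shiftn (h2 : (2 : R) = 0) {s : R} {x y : B} {ζ η : R} {d d' : B}
    (h : W2 s x y ζ η d d') (n : ℕ) : W2 s x y ζ η (ζ ^ n • d) ((ζ + η) ^ n • d') := by
  induction n with
  | zero => simpa using h
  | succ n ih =>
    have := ih.shift h2
    rw [smul_smul, smul_smul] at this
    rw [pow_succ', pow_succ']
    exact this

theorem approx_J {s : R} {x z : B} (H : BX x) {ζ : R} (hz : s • (x * z) = s • (ζ • z)) (g : B)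
    (n : ℕ) : s • J x (pw x n g) z = s • (ζ ^ n • J x g z) := by
  induction n with
  | zero => simp [pw]
  | succ n ih =>
    have e : pw x (n + 1) g = x * pw x n g := by
      unfold pw; rw [Function.iterate_succ_apply']
    rw [e, H.gm, ← J_smul3, hz, J_smul3, J_smul3, smul_comm, ih, pow_succ', smul_comm s,
      smul_comm s, smul_smul]

theorem uni2 {x c a z y : B} (h2 : (2 : R) = 0) (H : BX x) {γ α ζ η : R} (hc : x * c = γ • c)
    (ha : x * a = α • a) (hz : x * z = ζ • z) (hy : x * y = η • y)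
    (hS : InS S γ α ζ η) :
    ∃ s ∈ S, ∀ n : ℕ, W2 s x y ζ η (pw x n (J x c a) * z) (pw x n (J x c a) * (z * y)) := by
  have H' : BX (ps S B x) := TS.bx S H
  have hc' : ps S B x * ps S B c = γ • ps S B c := by rw [← ps_mul, hc, map_smul]
  have ha' : ps S B x * ps S B a = α • ps S B a := by rw [← ps_mul, ha, map_smul]
  have hz' : ps S B x * ps S B z = ζ • ps S B z := by rw [← ps_mul, hz, map_smul]
  have hy' : ps S B x * ps S B y = η • ps S B y := by rw [← ps_mul, hy, map_smul]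
  obtain ⟨q1, q2, q5, q6⟩ := H'.claim h2 hc' ha' hz' hy' (TS.can S hS.cγ) (TS.can S hS.cα)
    (TS.can S hS.cζ) (TS.can S hS.cγζ) (TS.can S hS.cαζ) (TS.can S hS.c5)
    (fun ρ hρ => TS.can S (hS.sp ρ hρ))
  obtain ⟨-, -, -, -, -, -, q3, q4⟩ := H'.st1 h2 hc' ha' hz' (TS.can S hS.cγ) (TS.can S hS.cα)
    (TS.can S hS.cζ) (TS.can S hS.cγζ) (TS.can S hS.cαζ)
  have cζη : ζ + η ∈ S := by rw [add_comm]; exact hS.sp _ (by simp [Spec])
  have q9 : J (ps S B x) (ps S B z) (ps S B y) = 0 :=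
    TS.can S cζη _ (H'.G2 h2 hz' hy')
  have hzy := H'.eig_mul hz' hy' q9
  obtain ⟨-, -, -, -, -, -, q7, q8⟩ := H'.st1 h2 hc' ha' hzy (TS.can S hS.cγ)
    (TS.can S hS.cα) (TS.can S cζη)
    (TS.can S (by rw [show γ + (ζ + η) = η + (γ + ζ) by ring]; exact hS.sp _ (by simp [Spec])))
    (TS.can S (by rw [show α + (ζ + η) = η + (α + ζ) by ring]; exact hS.sp _ (by simp [Spec])))
  rw [← ps_J, ← ps_mul, ← map_smul, ps_eq_zero] at q1
  rw [← ps_J, ← ps_J, ps_eq_zero] at q2
  rw [← sub_eq_zero, ← ps_J, ← ps_J, ← ps_mul, ← ps_mul, ← map_smul, ← map_add, ← map_sub,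
    ps_eq_zero] at q3
  rw [← sub_eq_zero, ← ps_J, ← ps_J, ← ps_J, ← map_smul, ← map_sub, ps_eq_zero] at q4
  rw [← ps_mul, ← ps_J, ← map_smul, ps_eq_zero] at q5
  rw [← sub_eq_zero, ← ps_mul, ← ps_J, ← ps_J, ← ps_mul, ← ps_mul, ← map_smul, ← map_sub,
    ps_eq_zero] at q6
  rw [← sub_eq_zero, ← ps_mul, ← ps_J, ← ps_J, ← ps_mul, ← ps_mul, ← map_smul, ← map_add,
    ← map_sub, ps_eq_zero] at q7
  rw [← sub_eq_zero, ← ps_mul, ← ps_J, ← ps_J, ← ps_J, ← map_smul, ← map_sub,
    ps_eq_zero] at q8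
  rw [← ps_J, ps_eq_zero] at q9
  obtain ⟨s1, h1, q1⟩ := q1
  obtain ⟨s2, h2', q2⟩ := q2
  obtain ⟨s3, h3, q3⟩ := q3
  obtain ⟨s4, h4, q4⟩ := q4
  obtain ⟨s5, h5, q5⟩ := q5
  obtain ⟨s6, h6, q6⟩ := q6
  obtain ⟨s7, h7, q7⟩ := q7
  obtain ⟨s8, h8, q8⟩ := q8
  obtain ⟨s9, h9, q9⟩ := q9
  obtain ⟨s, hsS, hs1, hs2, hs3, hs4, hs5, hs6, hs7, hs8, hs9⟩ : ∃ s ∈ S, (∃ r, s = r * s1) ∧
      (∃ r, s = r * s2) ∧ (∃ r, s = r * s3) ∧ (∃ r, s = r * s4) ∧ (∃ r, s = r * s5) ∧
      (∃ r, s = r * s6) ∧ (∃ r, s = r * s7) ∧ (∃ r, s = r * s8) ∧ (∃ r, s = r * s9) :=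
    ⟨s1 * s2 * s3 * s4 * s5 * s6 * s7 * s8 * s9,
      S.mul_mem (S.mul_mem (S.mul_mem (S.mul_mem (S.mul_mem (S.mul_mem (S.mul_mem
        (S.mul_mem h1 h2') h3) h4) h5) h6) h7) h8) h9,
      ⟨s2 * s3 * s4 * s5 * s6 * s7 * s8 * s9, by ring⟩,
      ⟨s1 * s3 * s4 * s5 * s6 * s7 * s8 * s9, by ring⟩,
      ⟨s1 * s2 * s4 * s5 * s6 * s7 * s8 * s9, by ring⟩,
      ⟨s1 * s2 * s3 * s5 * s6 * s7 * s8 * s9, by ring⟩,
      ⟨s1 * s2 * s3 * s4 * s6 * s7 * s8 * s9, by ring⟩,
      ⟨s1 * s2 * s3 * s4 * s5 * s7 * s8 * s9, by ring⟩,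
      ⟨s1 * s2 * s3 * s4 * s5 * s6 * s8 * s9, by ring⟩,
      ⟨s1 * s2 * s3 * s4 * s5 * s6 * s7 * s9, by ring⟩,
      ⟨s1 * s2 * s3 * s4 * s5 * s6 * s7 * s8, by ring⟩⟩
  have kill : ∀ {s' : R} {v : B}, (∃ r, s = r * s') → s' • v = 0 → s • v = 0 := by
    rintro s' v ⟨r, rfl⟩ h
    rw [mul_smul, h, smul_zero]
  replace q1 := kill hs1 q1
  replace q2 := kill hs2 q2
  replace q3 := kill hs3 q3
  replace q4 := kill hs4 q4
  replace q5 := kill hs5 q5
  replace q6 := kill hs6 q6
  replace q7 := kill hs7 q7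
  replace q8 := kill hs8 q8
  replace q9 := kill hs9 q9
  refine ⟨s, hsS, ?_⟩
  clear kill hs1 hs2 hs3 hs4 hs5 hs6 hs7 hs8 hs9
  have wF : W2 s x y ζ η (J c a z) (J c a (z * y)) :=
    { a := q1
      b := by rw [H.s23]; exact q2
      c := q5
      d := by
        rw [smul_sub, sub_eq_zero] at q6
        rw [smul_add, q6, H.ch] }
  have wG : W2 s x y ζ η (J x c a * z) (J x c a * (z * y)) := by
    have := (wF.smul γ).add (wF.xmul h2 H hy)
    refine (this.of_eq ?_).of_eq' ?_
    · rw [← sub_eq_zero, ← smul_sub]; exact q7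
    · rw [← sub_eq_zero, ← smul_sub]; exact q3
  have hzy' : s • (x * (z * y)) = s • ((ζ + η) • (z * y)) := by
    rw [H.G_def hz hy, smul_add, q9, add_zero]
  have wJ : W2 s x y ζ η (J x (J x c a) z) (J x (J x c a) (z * y)) := by
    have k := wF.smul ((γ + α + ζ) * (γ + ζ))
    refine (k.of_eq ?_).of_eq' ?_
    · rw [H.s23, ← sub_eq_zero, ← smul_sub]
      have e5 := q5
      rw [smul_smul] at e5
      have : (((γ + α + (ζ + η)) * (γ + (ζ + η)) - (γ + α + ζ) * (γ + ζ)) * s) •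
          J c a (z * y) = 0 := by
        rw [show ((γ + α + (ζ + η)) * (γ + (ζ + η)) - (γ + α + ζ) * (γ + ζ)) * s =
          (γ + α + ζ + γ + ζ + η) * (s * η) by ring, mul_smul, e5, smul_zero]
      linear_combination (norm := (match_scalars <;> grind)) q8 + this
    · rw [H.s23, ← sub_eq_zero, ← smul_sub]; exact q4
  intro n
  induction n with
  | zero => exact wG
  | succ n ih =>
    have e : pw x (n + 1) (J x c a) = x * pw x n (J x c a) := by
      unfold pw; rw [Function.iterate_succ_apply']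
    have e2 := H.x_mul x (pw x n (J x c a)) z
    rw [hz, mul_smul_comm, J_pw H hz] at e2
    have e3 : (x * pw x n (J x c a)) * z = x * (pw x n (J x c a) * z) +
        ζ • (pw x n (J x c a) * z) + (ζ ^ n) • J x (J x c a) z := by
      rw [e2]
      linear_combination (norm := (match_scalars <;> grind)) (0 : R) • (rfl : z = z)
    have e4 := H.x_mul x (pw x n (J x c a)) (z * y)
    have e5 : s • ((x * pw x n (J x c a)) * (z * y)) =
        s • (x * (pw x n (J x c a) * (z * y)) +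
        (ζ + η) • (pw x n (J x c a) * (z * y)) + ((ζ + η) ^ n) • J x (J x c a) (z * y)) := by
      have f1 : s • (pw x n (J x c a) * (x * (z * y))) =
          s • ((ζ + η) • (pw x n (J x c a) * (z * y))) := by
        rw [← mul_smul_comm, hzy', mul_smul_comm, mul_smul_comm]
      have f2 := approx_J H hzy' (J x c a) n
      have e4' : s • (x * (pw x n (J x c a) * (z * y))) = s • ((x * pw x n (J x c a)) * (z * y)) +
          s • (pw x n (J x c a) * (x * (z * y))) + s • J x (pw x n (J x c a)) (z * y) := by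
        rw [e4, smul_add, smul_add]
      rw [f1, f2] at e4'
      linear_combination (norm := (match_scalars <;> grind)) e4'
    rw [e, e3]
    exact (((ih.xmul h2 H hy).add (ih.shift h2)).add (wJ.shiftn h2 n)).of_eq e5

end uni2

end Pool.Agent.BLie.C2
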