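import Mathlib
import Pool.Agent.BLie.C2.DatOf
import Pool.Agent.BLie.C2.Uni2

/-! The product of `E` with a product of two eigenvectors of weights near zero. -/

set_option linter.unusedSimpArgs false
set_option linter.unusedSectionVars false
set_option linter.unusedVariables false
set_option linter.unnecessarySeqFocus false

namespace Pool.Agent.BLie.C2

open Pool.Agent.BLie Polynomial

universe u v

section abs

variable {R : Type u} {F : Type v} [CommRing R] [Field F]
variable {e : R →+* F} {A : Type u} [NonUnitalNonAssocRing A] [Module R A]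
  {x P Q : A} {ω θ : R} {w w' : F} [IsScalarTower R A A] [SMulCommClass R A A]

/-- Relations between `P`, `Q`, `s` and `t`. -/
structure Rl (x P Q s t : A) (θ σ τ : R) : Prop where
  p1 : σ • (P * (Q * s)) = 0
  p2 : θ • ((P * Q) * s) + x * (P * (Q * s)) = 0
  q2 : τ • (P * (((θ + σ) • (Q * s)) * t)) = 0
  q3 : (θ + σ) • ((P * ((θ + σ) • (Q * s))) * t) + x * (P * (((θ + σ) • (Q * s)) * t)) = 0

theorem Dat.lemA (D : Dat e x P Q ω θ w w') {s t : A} {σ τ : R}
    (hs : x * s = σ • s) (ht : x * t = τ • t) (es : e σ = 0) (et : e τ = 0)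
    (rl : Rl x P Q s t θ σ τ) :
    ((ω + θ) * (ω + θ)) • ((P * t) * (Q * s)) = (ω * θ) • (((P * Q) * s) * t) := by
  have h := D.bx
  have h2 := D.h2
  have cu : Can A (θ + σ) := D.cn (by rw [map_add, D.eQ, es, add_zero]; exact D.b)
  have gQs := D.swap.Ga hs es
  have hQs := h.eig_mul D.hQ hs gQs
  have xA := h.eig_mul D.hP hQs (D.g1 s)
  obtain ⟨a0, p2, q2, q3⟩ := rl
  have e1 : θ • ((P * Q) * s) = (ω + θ) • (P * (Q * s)) := by
    rw [xA] at p2
    linear_combination (norm := (match_scalars <;> grind)) p2 - a0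
  have gt : J x (Q * s) t = 0 := D.cn (r := θ + σ + τ) (by
    rw [map_add, map_add, D.eQ, es, et, add_zero, add_zero]; exact D.b) _ (h.G2 h2 hQs ht)
  have hB0 := h.eig_mul hQs ht gt
  have gB : J x P ((Q * s) * t) = 0 := D.cn (r := ω + (θ + σ + τ)) (by
    simp only [map_add, D.eP, D.eQ, es, et, add_zero]; exact D.ab) _ (h.G2 h2 D.hP hB0)
  have xB := h.eig_mul D.hP hB0 gB
  set AA := P * (Q * s) with hA
  set B := P * ((Q * s) * t) with hB
  have b0 : τ • B = 0 := by
    apply cu
    rw [smul_mul_assoc, mul_smul_comm, smul_comm, ← hB] at q2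
    exact q2
  have q4 : (θ + σ) • (AA * t) + x * B = 0 := by
    apply cu
    simp only [smul_mul_assoc, mul_smul_comm, ← hA, ← hB] at q3
    rw [smul_add]
    exact q3
  have a1 : σ • (AA * t) = 0 := by rw [← smul_mul_assoc, a0, zero_mul]
  have q5 : θ • (AA * t) + (ω + θ + σ) • B = 0 := by
    rw [xB] at q4
    linear_combination (norm := (match_scalars <;> grind)) q4 - a1 - b0
  have b1 : σ • B = 0 := by
    refine D.cn (r := ω + θ + σ) (by
      simp only [map_add, D.eP, D.eQ, es, add_zero]; exact D.ab) _ ?_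
    linear_combination (norm := (match_scalars <;> grind)) σ • q5 - θ • a1
  have j : J P (Q * s) t = 0 := (h.AB_eig h2 D.hP hQs ht
    (D.cn (by simp only [map_add, D.eP, D.eQ, es, add_zero]; exact D.ab)) D.cP cu
    (D.cn (by simp only [map_add, D.eP, et, zero_add]; exact D.a))
    (D.cn (by simp only [map_add, D.eQ, es, et, add_zero, zero_add]; exact D.b))).1
  unfold J at j
  rw [h.comm ((Q * s) * t) P, h.comm t P, ← hA, ← hB] at j
  have e2 : (ω + θ) • (AA * t) = θ • (((P * Q) * s) * t) := by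
    rw [← smul_mul_assoc, ← e1, smul_mul_assoc]
  linear_combination (norm := (match_scalars <;> grind)) ((ω + θ) * (ω + θ)) • j - (ω + θ) • q5 + (ω + θ) • b1 + ω • e2

/-- The product of `E` with a product of eigenvectors of weights near zero. -/
theorem Dat.lemE (D : Dat e x P Q ω θ w w') {s t : A} {σ τ : R}
    (hs : x * s = σ • s) (ht : x * t = τ • t) (es : e σ = 0) (et : e τ = 0)
    (rl : Rl x P Q s t θ σ τ) (rl' : Rl x Q P t s ω τ σ) : (P * Q) * (s * t) = 0 := by
  have h := D.bx
  have h2 := D.h2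
  have a1 := D.lemA hs ht es et rl
  have a2 := D.swap.lemA ht hs et es rl'
  rw [h.comm Q P, h.comm (Q * s) (P * t)] at a2
  have a3 : ((P * Q) * s) * t = ((P * Q) * t) * s := by
    rw [← sub_eq_zero]
    apply D.cP
    apply D.cQ
    linear_combination (norm := (match_scalars <;> grind)) a2 - a1
  have j := D.JE s t
  unfold J at j
  rw [h.comm (s * t), h.comm t (P * Q), ← a3] at j
  linear_combination (norm := (match_scalars <;> grind)) (1 : R) • j

end abs

section maps

variable {R : Type u} {A : Type u} [CommRing R] [NonUnitalNonAssocRing A] [Module R A]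
  [IsScalarTower R A A] [SMulCommClass R A A]

theorem el_Csmul (r : R) (f : ℕ → A) :
    (C r : R[X]) • (el 0 f : Ext R A) = el 0 (fun n => r • f n) := by
  apply Ext.ext'
  · rw [Ext.smul_fst, el_fst_zero, el_fst_zero, smul_zero]
  · apply seq_ext
    intro n
    change ev R n _ = ev R n _
    rw [ev_C, ev_el, ev_el]

theorem el_Xsmul (f : ℕ → A) :
    (X : R[X]) • (el 0 f : Ext R A) = el 0 (fun n => f (n + 1)) := by
  apply Ext.ext'
  · rw [Ext.smul_fst, el_fst_zero, el_fst_zero, smul_zero]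
  · apply seq_ext
    intro n
    change ev R n _ = ev R n _
    rw [ev_X, ev_el, ev_el]

/-- Transposition of a sequence of sequences. -/
noncomputable def T2 (w : ℕ → Ext R A) : Ext R[X] (Ext R A) :=
  el 0 (fun i => el 0 (fun n => ev R i (w n)))

theorem T2_add (w w' : ℕ → Ext R A) : T2 (fun n => w n + w' n) = T2 w + T2 w' := by
  unfold T2
  rw [el_add]
  simp only [el_add, ev_add, add_zero]

theorem T2_C (r : R) (w : ℕ → Ext R A) :
    (C (C r) : R[X][X]) • T2 w = T2 (fun n => (C r : R[X]) • w n) := by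
  unfold T2
  rw [el_Csmul]
  simp only [el_Csmul, ev_C]

theorem T2_X (w : ℕ → Ext R A) :
    (X : R[X][X]) • T2 w = T2 (fun n => (X : R[X]) • w n) := by
  unfold T2
  rw [el_Xsmul]
  simp only [ev_X]

theorem T2_smul (r : R[X]) (w : ℕ → Ext R A) :
    (r.map C : R[X][X]) • T2 w = T2 (fun n => r • w n) := by
  induction r using Polynomial.induction_on' generalizing w with
  | add p q hp hq =>
    rw [Polynomial.map_add, add_smul, hp, hq, ← T2_add]
    simp only [add_smul]
  | monomial n r =>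
    rw [← C_mul_X_pow_eq_monomial]
    simp only [Polynomial.map_mul, Polynomial.map_C, Polynomial.map_pow, Polynomial.map_X,
      mul_smul]
    have key : ∀ (n : ℕ) (w : ℕ → Ext R A),
        (X ^ n : R[X][X]) • T2 w = T2 (fun i => (X ^ n : R[X]) • w i) := by
      intro n
      induction n with
      | zero => intro w; simp
      | succ n ih =>
        intro w
        rw [pow_succ, mul_smul, T2_X, ih]
        simp only [← mul_smul, pow_succ]
    rw [key, T2_C]

theorem T2_zero : T2 (fun _ => (0 : Ext R A)) = 0 := by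
  unfold T2
  simp only [ev_zero]
  rw [show (fun _ : ℕ => (el 0 fun _ => 0 : Ext R A)) = fun _ => 0 by funext n; exact el_zero]
  exact el_zero

/-- The constant-valued lift of a sequence. -/
noncomputable def T3 (z : Ext R A) : Ext R[X] (Ext R A) := el 0 (fun i => io R (ev R i z))

variable {x : A}

theorem T3_letter (h : BX x) (G : A) :
    T3 (letter R x G) = letter R[X] (io R x) (io R G) := by
  rw [letter_io h]
  unfold T3
  simp only [ev_letter]
  rfl

theorem T3_io (h : BX x) (z : Ext R A) (y : A) :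
    T3 z * io R[X] (io R y) = T3 (z * io R y) := by
  unfold T3
  rw [el_io (Ext.bx R h)]
  simp only [io_mul R h, ev_mul_io R h, zero_mul]

theorem T3_X (z : Ext R A) : (X : R[X][X]) • T3 z = T3 ((X : R[X]) • z) := by
  unfold T3
  rw [el_Xsmul]
  simp only [ev_X]

theorem T3_C (r : R) (z : Ext R A) : (C (C r) : R[X][X]) • T3 z = T3 ((C r : R[X]) • z) := by
  unfold T3
  rw [el_Csmul]
  simp only [ev_C, io_smul, Ext.C_smul, ev_smul]

theorem T3_add (z z' : Ext R A) : T3 (z + z') = T3 z + T3 z' := by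
  unfold T3
  rw [el_add]
  simp only [ev_add, io_add, add_zero]

theorem Q_T3 (h : BX x) (H : A) (z : Ext R A) :
    io R[X] (letter R x H) * T3 z = T2 (fun n => io R (pw x n H) * z) := by
  unfold T3 T2
  have hB := Ext.bx R h
  unfold io
  rw [el_mul hB]
  congr 1
  · rw [mul_zero]
  · funext i
    rw [mul_zero]
    unfold letter
    simp only [zero_mul, add_zero]
    rw [el_mul h]
    congr 1
    · rw [zero_mul]
    · funext n
      have := ev_io_mul R i (pw x n H) z
      unfold io at this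
      rw [this]
      simp [pw]

theorem T2_io (h : BX x) (w : ℕ → Ext R A) (y : A) :
    T2 w * io R[X] (io R y) = T2 (fun n => w n * io R y) := by
  unfold T2
  rw [el_io (Ext.bx R h)]
  simp only [el_io h, ev_mul_io R h, zero_mul]

theorem T2_x (h : BX x) (w : ℕ → Ext R A) (y : A) :
    io R[X] (io R y) * T2 w = T2 (fun n => io R y * w n) := by
  rw [(Ext.bx R[X] (Ext.bx R h)).comm, T2_io h]
  simp only [(Ext.bx R h).comm (io R y)]

theorem T1_io (h : BX x) (w : ℕ → Ext R A) (y : Ext R A) :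
    el 0 w * io R[X] y = el 0 (fun n => w n * y) := by
  rw [el_io (Ext.bx R h), zero_mul]

theorem T1_x (h : BX x) (w : ℕ → Ext R A) (y : Ext R A) :
    io R[X] y * el 0 w = el 0 (fun n => y * w n) := by
  rw [(Ext.bx R[X] (Ext.bx R h)).comm, T1_io h]
  simp only [(Ext.bx R h).comm y]

end maps

section sides

variable {R : Type u} {F : Type v} [CommRing R] [Field F] {e : R →+* F}
  {A : Type u} [NonUnitalNonAssocRing A] [Module R A]
  [IsScalarTower R A A] [SMulCommClass R A A] {x : A}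

/-- The scalars with nonzero value. -/
def NZ (e : R →+* F) : Submonoid R where
  carrier := {r | e r ≠ 0}
  mul_mem' := by
    intro a b ha hb
    change e (a * b) ≠ 0
    rw [map_mul]; exact mul_ne_zero ha hb
  one_mem' := by
    change e 1 ≠ 0
    rw [map_one]; exact one_ne_zero

theorem mem_NZ {r : R} : r ∈ NZ e ↔ e r ≠ 0 := Iff.rfl

theorem InS_nz {γ α ζ η : R} {k m : F} (F2 : (2 : F) = 0) (eγ : e γ = k) (eα : e α = k)
    (eζ : e ζ = m) (eη : e η = 0) (k0 : k ≠ 0) (b : m ≠ 0) (k1 : k + m ≠ 0) :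
    InS (NZ e) γ α ζ η where
  cγ := by rw [mem_NZ, eγ]; exact k0
  cα := by rw [mem_NZ, eα]; exact k0
  cζ := by rw [mem_NZ, eζ]; exact b
  cγζ := by rw [mem_NZ, map_add, eγ, eζ]; exact k1
  cαζ := by rw [mem_NZ, map_add, eα, eζ]; exact k1
  c5 := by
    rw [mem_NZ, map_add, map_add, eα, eζ, eγ]
    intro h; apply b; linear_combination h - k * F2
  sp := by
    intro ρ hρ
    simp only [Spec, Set.mem_insert_iff, Set.mem_singleton_iff] at hρ
    rw [mem_NZ, map_add, eη, zero_add]
    rcases hρ with h | h | h | h | h | h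
    · rw [h, eγ]; exact k0
    · rw [h, eα]; exact k0
    · rw [h, eζ]; exact b
    · rw [h, map_add, map_add, eγ, eα, eζ]
      intro h; apply b; linear_combination h - k * F2
    · rw [h, map_add, eα, eζ]; exact k1
    · rw [h, map_add, eγ, eζ]; exact k1

/-- The relations, on the side of `P`. -/
theorem sideP (h : BX x) {w w' : F} {G : A} {z y : Ext R A} {ζ η r : R[X]}
    (hr : pt e w' r ≠ 0)
    (hW : ∀ n, W2 r (io R x) y ζ η (io R (pw x n G) * z) (io R (pw x n G) * (z * y))) :
    pr (pt (pt e w') w) _ ((C η : R[X][X]) •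
      (letter R[X] (io R x) (io R G) * (io R[X] z * io R[X] y))) = 0 ∧
    pr (pt (pt e w') w) _ ((C ζ : R[X][X]) •
      ((letter R[X] (io R x) (io R G) * io R[X] z) * io R[X] y) +
      io R[X] (io R x) * (letter R[X] (io R x) (io R G) * (io R[X] z * io R[X] y))) = 0 := by
  rw [letter_io h, io_mul R[X] (Ext.bx R h), T1_io h, T1_io h, T1_x h, T1_io h]
  constructor
  · rw [pr_eq_zero]
    refine ⟨C r, by rw [pt_C]; exact hr, ?_⟩
    rw [el_Csmul, el_Csmul]
    simp only [(hW _).c]
    exact el_zero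
  · rw [pr_eq_zero]
    refine ⟨C r, by rw [pt_C]; exact hr, ?_⟩
    rw [el_Csmul, el_add, add_zero, el_Csmul]
    simp only [(hW _).d]
    exact el_zero

/-- The relations, on the side of `Q`. -/
theorem sideQ (h : BX x) {w w' : F} {H : A} {z : Ext R A} {y : A} {ζ r : R[X]} {η : R}
    (hr : pt e w r ≠ 0)
    (hW : ∀ n, W2 r (io R x) (io R y) ζ (C η) (io R (pw x n H) * z)
      (io R (pw x n H) * (z * io R y))) :
    pr (pt (pt e w') w) _ ((C (C η) : R[X][X]) •
      (io R[X] (letter R x H) * (T3 z * io R[X] (io R y)))) = 0 ∧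
    pr (pt (pt e w') w) _ ((ζ.map C : R[X][X]) •
      ((io R[X] (letter R x H) * T3 z) * io R[X] (io R y)) +
      io R[X] (io R x) * (io R[X] (letter R x H) * (T3 z * io R[X] (io R y)))) = 0 := by
  rw [T3_io h, Q_T3 h, Q_T3 h, T2_x h, T2_io h]
  constructor
  · rw [pr_eq_zero]
    refine ⟨r.map C, by rw [pt_map]; exact hr, ?_⟩
    rw [T2_C, T2_smul]
    simp only [(hW _).c]
    exact T2_zero
  · rw [pr_eq_zero]
    refine ⟨r.map C, by rw [pt_map]; exact hr, ?_⟩
    rw [T2_smul, ← T2_add, T2_smul]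
    simp only [(hW _).d]
    exact T2_zero

/-- The eigenvector attached to a product with a letter. -/
theorem zp_eig (h2 : (2 : R) = 0) (h : BX x) (H : A) {s : A} {σ : R} (hs : x * s = σ • s) :
    io R x * ((X + C σ : R[X]) • (letter R x H * io R s)) =
      (X + C σ : R[X]) • ((X + C σ : R[X]) • (letter R x H * io R s)) := by
  have hB := Ext.bx R h
  have k1 := hB.G2 (two_poly h2) (x_letter R h H) (io_eig' h hs)
  rw [mul_smul_comm, hB.G_def (x_letter R h H) (io_eig' h hs), smul_add, k1, add_zero]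

theorem rlP (h2 : (2 : R) = 0) (h : BX x) {c a : A} {γ α : R} (hc : x * c = γ • c)
    (ha : x * a = α • a) {k w w' : F} (hγ : e γ = k) (hα : e α = k)
    (k0 : k ≠ 0) (b : w' ≠ 0) (k1 : k + w' ≠ 0) (H : A) {s t : A} {σ τ : R}
    (hs : x * s = σ • s) (ht : x * t = τ • t) (es : e σ = 0) (et : e τ = 0) :
    Rl (pr (pt (pt e w') w) _ (io R[X] (io R x)))
      (pr _ _ (letter R[X] (io R x) (io R (J x c a)))) (pr _ _ (io R[X] (letter R x H)))
      (pr _ _ (io R[X] (io R s))) (pr _ _ (io R[X] (io R t)))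
      (C X) (C (C σ)) (C (C τ)) := by
  have hB := Ext.bx R h
  have F2 := two_F h2 e
  obtain ⟨r1, hr1, W1⟩ := uni2 (two_poly h2) hB (io_eig' h hc) (io_eig' h ha)
    (x_letter R h H) (io_eig' h hs)
    (InS_nz (e := pt e w') (k := k) (m := w') F2 (by rw [pt_C, hγ]) (by rw [pt_C, hα]) (by rw [pt_X])
      (by rw [pt_C, es]) k0 b k1)
  obtain ⟨r2, hr2, W2'⟩ := uni2 (two_poly h2) hB (io_eig' h hc) (io_eig' h ha)
    (zp_eig h2 h H hs) (io_eig' h ht)
    (InS_nz (e := pt e w') (k := k) (m := w') F2 (by rw [pt_C, hγ]) (by rw [pt_C, hα])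
      (by rw [map_add, pt_X, pt_C, es, add_zero])
      (by rw [pt_C, et]) k0 b k1)
  simp only [io_J R h, io_pw h] at W1 W2'
  obtain ⟨a1, a2⟩ := sideP (w := w) h hr1 W1
  obtain ⟨b1, b2⟩ := sideP (w := w) h hr2 W2'
  rw [io_smul, ← Ext.C_smul, ← io_mul _ hB, C_add] at b1 b2
  simp only [map_add, map_smul, pr_mul] at a1 a2 b1 b2
  exact ⟨a1, a2, b1, b2⟩

theorem rlQ (h2 : (2 : R) = 0) (h : BX x) {c a : A} {γ α : R} (hc : x * c = γ • c)
    (ha : x * a = α • a) {k w w' : F} (hγ : e γ = k) (hα : e α = k)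
    (k0 : k ≠ 0) (b : w ≠ 0) (k1 : k + w ≠ 0) (G : A) {s t : A} {σ τ : R}
    (hs : x * s = σ • s) (ht : x * t = τ • t) (es : e σ = 0) (et : e τ = 0) :
    Rl (pr (pt (pt e w') w) _ (io R[X] (io R x)))
      (pr _ _ (io R[X] (letter R x (J x c a)))) (pr _ _ (letter R[X] (io R x) (io R G)))
      (pr _ _ (io R[X] (io R s))) (pr _ _ (io R[X] (io R t)))
      X (C (C σ)) (C (C τ)) := by
  have hB := Ext.bx R h
  have F2 := two_F h2 e
  obtain ⟨r1, hr1, W1⟩ := uni2 (two_poly h2) hB (io_eig' h hc) (io_eig' h ha)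
    (x_letter R h G) (io_eig' h hs)
    (InS_nz (e := pt e w) (k := k) (m := w) F2 (by rw [pt_C, hγ]) (by rw [pt_C, hα]) (by rw [pt_X])
      (by rw [pt_C, es]) k0 b k1)
  obtain ⟨r2, hr2, W2'⟩ := uni2 (two_poly h2) hB (io_eig' h hc) (io_eig' h ha)
    (zp_eig h2 h G hs) (io_eig' h ht)
    (InS_nz (e := pt e w) (k := k) (m := w) F2 (by rw [pt_C, hγ]) (by rw [pt_C, hα])
      (by rw [map_add, pt_X, pt_C, es, add_zero])
      (by rw [pt_C, et]) k0 b k1)
  simp only [io_J R h, io_pw h] at W1 W2'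
  obtain ⟨a1, a2⟩ := sideQ (w' := w') h hr1 W1
  obtain ⟨b1, b2⟩ := sideQ (w' := w') h hr2 W2'
  have e1 : T3 ((X + C σ : R[X]) • (letter R x G * io R s)) =
      (X + C (C σ) : R[X][X]) • (letter R[X] (io R x) (io R G) * io R[X] (io R s)) := by
    rw [add_smul, T3_add, ← T3_X, ← T3_C, ← T3_io h, T3_letter h, ← add_smul]
  rw [e1] at b1 b2
  rw [T3_letter h] at a1 a2
  simp only [Polynomial.map_add, Polynomial.map_X, Polynomial.map_C] at a2 b2
  simp only [map_add, map_smul, pr_mul] at a1 a2 b1 b2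
  exact ⟨a1, a2, b1, b2⟩

/-- The product of `E` with a product of two eigenvectors of weights near zero. -/
theorem S2 (h2 : (2 : R) = 0) (h : BX x) {c a u v : A} {γ α μ ν : R} (hc : x * c = γ • c)
    (ha : x * a = α • a) (hu : x * u = μ • u) (hv : x * v = ν • v) {k l w w' : F}
    (hγ : e γ = k) (hα : e α = k) (hμ : e μ = l) (hν : e ν = l) (gd : GoodC k l w w')
    {s t : A} {σ τ : R} (hs : x * s = σ • s) (ht : x * t = τ • t) (es : e σ = 0)
    (et : e τ = 0) :
    ∃ r : R[X][X], pt (pt e w') w r ≠ 0 ∧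
      r • (PQ R x (J x c a) (J x u v) * io R[X] (io R (s * t))) = 0 := by
  have D := dat_of h2 h hc ha hu hv hγ hα hμ hν gd
  have hB := Ext.bx R h
  have es' : pt (pt e w') w (C (C σ)) = 0 := by rw [pt_C, pt_C, es]
  have et' : pt (pt e w') w (C (C τ)) = 0 := by rw [pt_C, pt_C, et]
  have hs' : pr (pt (pt e w') w) _ (io R[X] (io R x)) * pr _ _ (io R[X] (io R s)) =
      (C (C σ) : R[X][X]) • pr _ _ (io R[X] (io R s)) := by
    rw [← pr_mul, io2_eig h hs, map_smul]
  have ht' : pr (pt (pt e w') w) _ (io R[X] (io R x)) * pr _ _ (io R[X] (io R t)) =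
      (C (C τ) : R[X][X]) • pr _ _ (io R[X] (io R t)) := by
    rw [← pr_mul, io2_eig h ht, map_smul]
  have k := D.lemE hs' ht' es' et'
    (rlP h2 h hc ha hγ hα gd.k0 gd.b gd.k1 (J x u v) hs ht es et)
    (rlQ h2 h hu hv hμ hν gd.l0 gd.a gd.l1 (J x c a) ht hs et es)
  rw [← pr_mul, ← pr_mul, ← pr_mul, io_mul _ hB, io_mul _ h, pr_eq_zero] at k
  exact k

end sides

end Pool.Agent.BLie.C2
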