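import Mathlib
import Pool.Agent.BLie.C2.Rel

/-! Transfer from eigenvectors to arbitrary elements, in characteristic two. -/

set_option linter.unusedSimpArgs false
set_option linter.unusedSectionVars false
set_option linter.unusedVariables false
set_option linter.unnecessarySeqFocus false

namespace Pool.Agent.BLie.C2

open Pool.Agent.BLie Polynomial

universe u v

section abs

variable {R : Type u} {F : Type v} [CommRing R] [Field F]
variable {e : R →+* F} {A : Type u} [NonUnitalNonAssocRing A] [Module R A]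
  {x P Q : A} {ω θ : R} {w w' : F} [IsScalarTower R A A] [SMulCommClass R A A]

theorem Dat.sw (D : Dat e x P Q ω θ w w') (s t : A) :
    (P * Q) * ((x * s) * t) = (P * Q) * (s * (x * t)) := by
  have h := D.bx
  have k := D.EJ x s t
  unfold J at k
  rw [mul_add, mul_add, h.comm (s * t) x, D.EX, add_zero, h.comm (t * x) s, h.comm t x] at k
  exact h.eq_of k

theorem Dat.xx (D : Dat e x P Q ω θ w w') (s t : A) :
    (P * Q) * ((x * s) * (x * t)) = 0 := by
  have h := D.bx
  have j := D.JE (x * s) (x * t)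
  unfold J at j
  rw [D.EX, zero_mul, h.comm ((x * s) * (x * t)), h.comm (x * t) (P * Q), D.EX, zero_mul,
    zero_add, add_zero] at j
  exact j

end abs

section ind

theorem mind3 {S : Type*} [CommRing S] {P : S[X][X][X] → Prop}
    (hadd : ∀ a b, P a → P b → P (a + b)) (hC : ∀ s q, P q → P (C (C (C s)) * q))
    (h1 : ∀ q, P q → P (C (C X) * q)) (h2 : ∀ q, P q → P (C X * q))
    (h3 : ∀ q, P q → P (X * q)) (h0 : P 1) (p : S[X][X][X]) : P p := by
  have a1 : ∀ (r : S[X]) q, P q → P (C (C r) * q) := by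
    intro r
    induction r using Polynomial.induction_on with
    | C a => exact hC a
    | add p q hp hq =>
      intro z hz
      rw [C_add, C_add, add_mul]
      exact hadd _ _ (hp z hz) (hq z hz)
    | monomial n a ih =>
      intro z hz
      have := ih _ (h1 z hz)
      rw [pow_succ, ← mul_assoc, C_mul, C_mul, mul_assoc]
      exact this
  have a2 : ∀ (r : S[X][X]) q, P q → P (C r * q) := by
    intro r
    induction r using Polynomial.induction_on with
    | C a => exact a1 a
    | add p q hp hq =>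
      intro z hz
      rw [C_add, add_mul]
      exact hadd _ _ (hp z hz) (hq z hz)
    | monomial n a ih =>
      intro z hz
      have := ih _ (h2 z hz)
      rw [pow_succ, ← mul_assoc, C_mul, mul_assoc]
      exact this
  have a3 : ∀ (r : S[X][X][X]) q, P q → P (r * q) := by
    intro r
    induction r using Polynomial.induction_on with
    | C a => exact a2 a
    | add p q hp hq =>
      intro z hz
      rw [add_mul]
      exact hadd _ _ (hp z hz) (hq z hz)
    | monomial n a ih =>
      intro z hz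
      have := ih _ (h3 z hz)
      rw [pow_succ, ← mul_assoc, mul_assoc]
      exact this
  have := a3 p 1 h0
  rw [mul_one] at this
  exact this

end ind

section tr

variable {R : Type u} {A : Type u} [CommRing R] [NonUnitalNonAssocRing A] [Module R A]
  [IsScalarTower R A A] [SMulCommClass R A A]

/-- Evaluation of the innermost variable. -/
noncomputable def VV (m : ℕ) (w : Ext R[X][X] (Ext R[X] (Ext R A))) : Ext R[X] (Ext R A) :=
  el 0 (fun i => el 0 (fun j => ev R m (ev R[X] j (ev R[X][X] i w))))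

theorem VV_add (m : ℕ) (w w' : Ext R[X][X] (Ext R[X] (Ext R A))) :
    VV m (w + w') = VV m w + VV m w' := by
  unfold VV
  simp only [el_add, ev_add, add_zero]

theorem VV_zero (m : ℕ) : VV m (0 : Ext R[X][X] (Ext R[X] (Ext R A))) = 0 := by
  unfold VV
  simp only [ev_zero]
  rw [show (fun _ : ℕ => (el 0 fun _ => 0 : Ext R A)) = fun _ => 0 by funext n; exact el_zero]
  exact el_zero

theorem VV_X (m : ℕ) (w : Ext R[X][X] (Ext R[X] (Ext R A))) :
    VV m ((X : R[X][X][X]) • w) = (X : R[X][X]) • VV m w := by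
  unfold VV
  rw [el_Xsmul]
  simp only [ev_X]

theorem VV_CX (m : ℕ) (w : Ext R[X][X] (Ext R[X] (Ext R A))) :
    VV m ((C X : R[X][X][X]) • w) = (C X : R[X][X]) • VV m w := by
  unfold VV
  rw [el_Csmul]
  simp only [el_Xsmul, ev_C, ev_X]

theorem VV_CCX (m : ℕ) (w : Ext R[X][X] (Ext R[X] (Ext R A))) :
    VV m ((C (C X) : R[X][X][X]) • w) = VV (m + 1) w := by
  unfold VV
  simp only [ev_C, ev_X]

theorem VV_CCC (m : ℕ) (r : R) (w : Ext R[X][X] (Ext R[X] (Ext R A))) :
    VV m ((C (C (C r)) : R[X][X][X]) • w) = (C (C r) : R[X][X]) • VV m w := by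
  unfold VV
  rw [el_Csmul]
  simp only [el_Csmul, ev_C]

variable {x : A}

theorem EE_eq (h : BX x) (G H b : A) :
    PQ R x G H * io R[X] (io R b) =
      el 0 (fun i => el 0 (fun j => (pw x i G * pw x j H) * b)) := by
  rw [PQ_eq h, el_io (Ext.bx R h)]
  simp only [el_io h, zero_mul]

/-- The product with a sequence of elements, evaluated. -/
theorem VV_EE (h : BX x) (G H : A) (b : ℕ → A) (m : ℕ) :
    VV m (PQ R[X] (io R x) (io R G) (io R H) * io R[X][X] (io R[X] (el 0 b))) =
      PQ R x G H * io R[X] (io R (b m)) := by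
  rw [EE_eq (Ext.bx R h), EE_eq h]
  unfold VV
  simp only [ev_el, io_pw h, io_mul R h, ev_io_mul]

end tr

section pts

variable {R S : Type*} {F : Type*} [CommRing R] [CommRing S] [Field F]

theorem pt_mapf (e : S →+* F) (f : R →+* S) (n : F) (p : R[X]) :
    pt e n (mapRingHom f p) = pt (e.comp f) n p := by
  unfold pt
  rw [Polynomial.coe_eval₂RingHom, Polynomial.coe_mapRingHom, Polynomial.eval₂_map]
  rfl

theorem pt_comp (e : S →+* F) (f : R →+* S) (n : F) :
    (pt e n).comp (mapRingHom f) = pt (e.comp f) n :=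
  RingHom.ext fun p => pt_mapf e f n p

theorem pt_sigma (e : S →+* F) (σ : S) (w' w : F) (p : S[X][X][X]) :
    pt (pt e w') w (mapRingHom (mapRingHom (evalRingHom σ)) p) =
      pt (pt (pt e (e σ)) w') w p := by
  rw [pt_mapf, pt_comp]
  congr 3
  ext r
  · simp [pt_C]
  · simp [pt_X]

end pts

section transfer

variable {R : Type u} {F : Type v} [CommRing R] [Field F] {e : R →+* F}
  {A : Type u} [NonUnitalNonAssocRing A] [Module R A]
  [IsScalarTower R A A] [SMulCommClass R A A] {x : A}

/-- Transfer. -/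
theorem transfer {w w' : F} (Z : Ext R[X][X] (Ext R[X] (Ext R A))) (σ : R)
    (hZ : ∀ m, pr (pt (pt e w') w) _ (VV (m + 1) Z) =
      (C (C σ) : R[X][X]) • pr (pt (pt e w') w) _ (VV m Z))
    {p : R[X][X][X]} (hp : pt (pt (pt e (e σ)) w') w p ≠ 0) (h0 : p • Z = 0) :
    pr (pt (pt e w') w) _ (VV 0 Z) = 0 := by
  have key : ∀ p : R[X][X][X], ∀ m, pr (pt (pt e w') w) _ (VV m (p • Z)) =
      ((C (C σ) : R[X][X]) ^ m * mapRingHom (mapRingHom (evalRingHom σ)) p) •
        pr (pt (pt e w') w) _ (VV 0 Z) := by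
    refine mind3 ?_ ?_ ?_ ?_ ?_ ?_
    · intro a b ha hb m
      rw [add_smul, VV_add, map_add, ha, hb, map_add, mul_add, add_smul]
    · intro s q hq m
      rw [mul_smul, VV_CCC, map_smul, hq, map_mul, ← mul_smul]
      congr 1
      simp only [coe_mapRingHom, Polynomial.map_C, coe_evalRingHom, eval_C]
      ring
    · intro q hq m
      rw [mul_smul, VV_CCX, hq, map_mul]
      congr 1
      simp only [coe_mapRingHom, Polynomial.map_C, coe_evalRingHom, eval_X]
      ring
    · intro q hq m
      rw [mul_smul, VV_CX, map_smul, hq, map_mul, ← mul_smul]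
      congr 1
      simp only [coe_mapRingHom, Polynomial.map_C, Polynomial.map_X]
      ring
    · intro q hq m
      rw [mul_smul, VV_X, map_smul, hq, map_mul, ← mul_smul]
      congr 1
      simp only [coe_mapRingHom, Polynomial.map_X]
      ring
    · intro m
      rw [one_smul, map_one, mul_one]
      induction m with
      | zero => rw [pow_zero, one_smul]
      | succ m ih => rw [hZ, ih, ← mul_smul, pow_succ']
  have k := key p 0
  rw [h0, VV_zero, map_zero, pow_zero, one_mul] at k
  have k2 := k.symm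
  rw [← map_smul, pr_eq_zero] at k2
  obtain ⟨r, hr, hk⟩ := k2
  rw [pr_eq_zero]
  refine ⟨r * mapRingHom (mapRingHom (evalRingHom σ)) p, ?_, by rw [mul_smul]; exact hk⟩
  rw [map_mul, pt_sigma]
  exact mul_ne_zero hr hp

theorem transferE {w w' : F} (h : BX x) (G H : A) (b : ℕ → A) (σ : R)
    (hb : ∀ m, pr (pt (pt e w') w) _ (PQ R x G H * io R[X] (io R (b (m + 1)))) =
      (C (C σ) : R[X][X]) • pr (pt (pt e w') w) _ (PQ R x G H * io R[X] (io R (b m))))
    {p : R[X][X][X]} (hp : pt (pt (pt e (e σ)) w') w p ≠ 0)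
    (h0 : p • (PQ R[X] (io R x) (io R G) (io R H) * io R[X][X] (io R[X] (el 0 b))) = 0) :
    pr (pt (pt e w') w) _ (PQ R x G H * io R[X] (io R (b 0))) = 0 := by
  rw [← VV_EE h]
  refine transfer _ σ (fun m => ?_) hp h0
  rw [VV_EE h, VV_EE h, hb]

theorem S1 (h2 : (2 : R) = 0) (h : BX x) {c a u v : A} {γ α μ ν : R} (hc : x * c = γ • c)
    (ha : x * a = α • a) (hu : x * u = μ • u) (hv : x * v = ν • v) {k l w w' : F}
    (hγ : e γ = k) (hα : e α = k) (hμ : e μ = l) (hν : e ν = l) (gd : GoodC k l w w')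
    {s : A} {σ : R} (hs : x * s = σ • s) (es : e σ = 0) (t : A) :
    ∃ r : R[X][X], pt (pt e w') w r ≠ 0 ∧
      r • (PQ R x (J x c a) (J x u v) * io R[X] (io R (s * t))) = 0 := by
  have D := dat_of h2 h hc ha hu hv hγ hα hμ hν gd
  have hB := Ext.bx R h
  obtain ⟨p, hp, k⟩ := S2 (e := pt e 0) (two_poly h2) hB (io_eig' h hc) (io_eig' h ha)
    (io_eig' h hu) (io_eig' h hv) (by rw [pt_C, hγ]) (by rw [pt_C, hα]) (by rw [pt_C, hμ])
    (by rw [pt_C, hν]) gd (io_eig' h hs) (x_letter R h t) (by rw [pt_C, es])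
    (by rw [pt_X])
  have e1 : io R s * letter R x t = el 0 (fun m => s * pw x m t) := by
    unfold io letter
    rw [el_mul h]
    congr 1
    · rw [mul_zero]
    · funext m
      simp [pw]
  rw [io_J R h, io_J R h, e1] at k
  have k2 := transferE (e := e) (w := w) (w' := w') h (J x c a) (J x u v)
    (fun m => s * pw x m t) σ (fun m => ?_) (by rw [es]; exact hp) k
  · rw [pr_eq_zero] at k2
    exact k2
  · have q := D.sw (pr _ _ (io R[X] (io R s))) (pr _ _ (io R[X] (io R (pw x m t))))
    simp only [← pr_mul] at q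
    rw [io_mul _ hB, io_mul _ h, io_mul _ hB, io_mul _ h, io_mul _ hB, io_mul _ h,
      io_mul _ hB, io_mul _ h, hs, smul_mul_assoc, io_smul, ← Ext.C_smul, io_smul,
      ← Ext.C_smul, mul_smul_comm, map_smul, ← pw_succ] at q
    exact q.symm

theorem S1x (h2 : (2 : R) = 0) (h : BX x) {c a u v : A} {γ α μ ν : R} (hc : x * c = γ • c)
    (ha : x * a = α • a) (hu : x * u = μ • u) (hv : x * v = ν • v) {k l w w' : F}
    (hγ : e γ = k) (hα : e α = k) (hμ : e μ = l) (hν : e ν = l) (gd : GoodC k l w w')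
    (s t : A) :
    pr (pt (pt e w') w) _ (PQ R x (J x c a) (J x u v) * io R[X] (io R ((x * s) * t))) = 0 := by
  have D := dat_of h2 h hc ha hu hv hγ hα hμ hν gd
  have hB := Ext.bx R h
  obtain ⟨p, hp, k⟩ := S1 (e := pt e 0) (two_poly h2) hB (io_eig' h hc) (io_eig' h ha)
    (io_eig' h hu) (io_eig' h hv) (by rw [pt_C, hγ]) (by rw [pt_C, hα]) (by rw [pt_C, hμ])
    (by rw [pt_C, hν]) gd (x_letter R h (x * s)) (by rw [pt_X]) (io R t)
  have e1 : letter R x (x * s) * io R t = el 0 (fun m => pw x (m + 1) s * t) := by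
    unfold letter
    rw [el_io h]
    congr 1
    rw [zero_mul]
  rw [io_J R h, io_J R h, e1] at k
  refine transferE (e := e) (w := w) (w' := w') h (J x c a) (J x u v)
    (fun m => pw x (m + 1) s * t) 0 (fun m => ?_) (by rw [map_zero]; exact hp) k
  have q := D.sw (pr _ _ (io R[X] (io R (x * pw x m s)))) (pr _ _ (io R[X] (io R t)))
  have q2 := D.xx (pr _ _ (io R[X] (io R (pw x m s)))) (pr _ _ (io R[X] (io R t)))
  simp only [← pr_mul] at q q2
  simp only [io_mul _ hB, io_mul _ h] at q q2
  simp only [C_0, zero_smul]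
  rw [pw_succ, pw_succ]
  exact q.trans q2

theorem S0 (h2 : (2 : R) = 0) (h : BX x) {c a u v : A} {γ α μ ν : R} (hc : x * c = γ • c)
    (ha : x * a = α • a) (hu : x * u = μ • u) (hv : x * v = ν • v) {k l w w' : F}
    (hγ : e γ = k) (hα : e α = k) (hμ : e μ = l) (hν : e ν = l) (gd : GoodC k l w w')
    (s t : A) :
    pr (pt (pt e w') w) _ (PQ R x (J x c a) (J x u v) * io R[X] (io R (s * t))) = 0 := by
  have hB := Ext.bx R h
  obtain ⟨p, hp, k⟩ := S1 (e := pt e 0) (two_poly h2) hB (io_eig' h hc) (io_eig' h ha)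
    (io_eig' h hu) (io_eig' h hv) (by rw [pt_C, hγ]) (by rw [pt_C, hα]) (by rw [pt_C, hμ])
    (by rw [pt_C, hν]) gd (x_letter R h s) (by rw [pt_X]) (io R t)
  have e1 : letter R x s * io R t = el 0 (fun m => pw x m s * t) := by
    unfold letter
    rw [el_io h]
    congr 1
    rw [zero_mul]
  rw [io_J R h, io_J R h, e1] at k
  refine transferE (e := e) (w := w) (w' := w') h (J x c a) (J x u v)
    (fun m => pw x m s * t) 0 (fun m => ?_) (by rw [map_zero]; exact hp) k
  have q := S1x h2 h hc ha hu hv hγ hα hμ hν gd (pw x m s) t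
  simp only [C_0, zero_smul]
  rw [pw_succ]
  exact q

end transfer

end Pool.Agent.BLie.C2
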