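import Mathlib
import Pool.Agent.BLie.C2.Tr
import Pool.Agent.BLie.Elem

/-! From the local theorem to elements of an arbitrary algebra, in characteristic two. -/

set_option linter.unusedSimpArgs false
set_option linter.unusedSectionVars false
set_option linter.unusedVariables false
set_option linter.unnecessarySeqFocus false

namespace Pool.Agent.BLie.C2

open Pool.Agent.BLie Polynomial

universe u v w

section lev

variable {R : Type u} {A : Type u} [CommRing R] [NonUnitalNonAssocRing A] [Module R A]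
  [IsScalarTower R A A] [SMulCommClass R A A] {x : A}

theorem Kill.ev (h : BX x) {w : Ext R A} {s t : A} (hw : Kill w (io R s) (io R t)) :
    Kill (ev R 0 w) s t := by
  constructor
  · rw [← ev_J1 R h, hw.1, ev_zero]
  · rw [← ev_mul_io R h, ← io_mul R h, hw.2, ev_zero]

variable {F : Type v} [Field F] {e : R →+* F} {k l w w' : F}

theorem nl0 (gk : GoodC k l w w') (h2 : (2 : R) = 0) (h : BX x) {c a u v : A} {γ α μ ν : R}
    (hc : x * c = γ • c) (ha : x * a = α • a) (hu : x * u = μ • u) (hv : x * v = ν • v)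
    (hγ : e γ = k) (hα : e α = k) (hμ : e μ = l) (hν : e ν = l) (s t : A) :
    ∃ p : R[X][X], pt (pt e w') w p ≠ 0 ∧
      Kill ((qq R * p).sum fun i p' => p'.sum fun j r =>
        r • (pw x i (J x c a) * pw x j (J x u v))) s t := by
  have D := dat_of h2 h hc ha hu hv hγ hα hμ hν gk
  have m1 := D.JE (pr _ _ (io R[X] (io R s))) (pr _ _ (io R[X] (io R t)))
  have m2 := S0 h2 h hc ha hu hv hγ hα hμ hν gk s t
  rw [← pr_mul, ← pr_J, pr_eq_zero] at m1
  rw [pr_eq_zero] at m2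
  obtain ⟨r1, hr1, k1⟩ := m1
  obtain ⟨r2, hr2, k2⟩ := m2
  refine ⟨r1 * r2, by rw [map_mul]; exact mul_ne_zero hr1 hr2, ?_⟩
  change r1 • J (PQ R x (J x c a) (J x u v)) _ _ = 0 at k1
  set E := PQ R x (J x c a) (J x u v) with hE
  have hB := Ext.bx R h
  have k3 : Kill ((qq R * (r1 * r2)) • E) (io R[X] (io R s)) (io R[X] (io R t)) := by
    constructor
    · rw [J_smul1, show qq R * (r1 * r2) = qq R * r2 * r1 by ring, mul_smul, k1, smul_zero]
    · rw [io_mul _ hB, io_mul _ h, smul_mul_assoc, ← mul_assoc, mul_smul, k2, smul_zero]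
  have k4 := Kill.ev h (Kill.ev hB k3)
  have k5 : ∀ i j, ev R j (ev R[X] i E) = pw x i (J x c a) * pw x j (J x u v) := by
    intro i j
    rw [hE, PQ_eq h, ev_el, ev_el]
  rw [ev_poly, ev_sum] at k4
  simp only [ev_poly, k5] at k4
  exact k4

theorem io_eigx (h : BX x) {a : A} {α : R} (ha : x * a = α • a) :
    io R x * io R a = (PX.of (C α) : PX R) • io R a := io_eig' h ha

theorem x_letterx (h : BX x) (a : A) :
    io R x * letter R x a = (PX.of X : PX R) • letter R x a := x_letter R h a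

theorem two_PX (h2 : (2 : R) = 0) : (2 : PX R) = 0 := two_poly h2

theorem nl1 (gk : GoodC k l w w') (h2 : (2 : R) = 0) (h : BX x) {c a u : A} {γ α μ : R}
    (hc : x * c = γ • c) (ha : x * a = α • a) (hu : x * u = μ • u)
    (hγ : e γ = k) (hα : e α = k) (hμ : e μ = l) (v s t : A) :
    ∃ p : (PX R)[X][X], pt (pt (ptx e l) w') w p ≠ 0 ∧
      Kill ((qq (PX R) * p).sum fun i p2 => p2.sum fun j p1 => (PX.to p1).sum fun n4 r =>
        r • (pw x i (J x c a) * pw x j (J x u (pw x n4 v)))) s t := by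
  obtain ⟨p, hp, k1⟩ := nl0 (e := ptx e l) gk (two_PX h2) (Ext.bx R h) (io_eigx h hc)
    (io_eigx h ha) (io_eigx h hu) (x_letterx h v) (by rw [ptx_C, hγ]) (by rw [ptx_C, hα])
    (by rw [ptx_C, hμ]) (by rw [ptx_X]) (io R s) (io R t)
  refine ⟨p, hp, ?_⟩
  have k2 := Kill.ev h k1
  simp only [ev_sum, ev_polyx, io_J R h, io_pw h, ev_io_mul, ev_pw, ev_J3 R h, ev_letter] at k2
  exact k2

theorem nl2 (gk : GoodC k l w w') (h2 : (2 : R) = 0) (h : BX x) {c a : A} {γ α : R}
    (hc : x * c = γ • c) (ha : x * a = α • a) (hγ : e γ = k) (hα : e α = k) (u v s t : A) :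
    ∃ p : (PX (PX R))[X][X], pt (pt (ptx (ptx e l) l) w') w p ≠ 0 ∧
      Kill ((qq (PX (PX R)) * p).sum fun i p3 => p3.sum fun j p2 =>
        (PX.to p2).sum fun n4 p1 => (PX.to p1).sum fun n3 r =>
        r • (pw x i (J x c a) * pw x j (J x (pw x n3 u) (pw x n4 v)))) s t := by
  obtain ⟨p, hp, k1⟩ := nl1 (e := ptx e l) gk (two_PX h2) (Ext.bx R h) (io_eigx h hc)
    (io_eigx h ha) (x_letterx h u) (by rw [ptx_C, hγ]) (by rw [ptx_C, hα])
    (by rw [ptx_X]) (io R v) (io R s) (io R t)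
  refine ⟨p, hp, ?_⟩
  have k2 := Kill.ev h k1
  simp only [ev_sum, ev_polyx, io_J R h, io_pw h, ev_io_mul, ev_pw, ev_J2 R h, ev_letter] at k2
  exact k2

theorem nl3 (gk : GoodC k l w w') (h2 : (2 : R) = 0) (h : BX x) {c : A} {γ : R}
    (hc : x * c = γ • c) (hγ : e γ = k) (a u v s t : A) :
    ∃ p : (PX (PX (PX R)))[X][X], pt (pt (ptx (ptx (ptx e k) l) l) w') w p ≠ 0 ∧
      Kill ((qq (PX (PX (PX R))) * p).sum fun i p4 => p4.sum fun j p3 =>
        (PX.to p3).sum fun n4 p2 => (PX.to p2).sum fun n3 p1 => (PX.to p1).sum fun n2 r =>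
        r • (pw x i (J x c (pw x n2 a)) * pw x j (J x (pw x n3 u) (pw x n4 v)))) s t := by
  obtain ⟨p, hp, k1⟩ := nl2 (e := ptx e k) gk (two_PX h2) (Ext.bx R h) (io_eigx h hc)
    (x_letterx h a) (by rw [ptx_C, hγ])
    (by rw [ptx_X]) (io R u) (io R v) (io R s) (io R t)
  refine ⟨p, hp, ?_⟩
  have k2 := Kill.ev h k1
  simp only [ev_sum, ev_polyx, io_J R h, io_pw h, ev_mul_io R h, ev_pw, ev_J3 R h,
    ev_letter] at k2
  exact k2

theorem nl4 (gk : GoodC k l w w') (h2 : (2 : R) = 0) (h : BX x) (c a u v s t : A) :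
    ∃ p : (PX (PX (PX (PX R))))[X][X],
      pt (pt (ptx (ptx (ptx (ptx e k) k) l) l) w') w p ≠ 0 ∧
      Kill ((qq (PX (PX (PX (PX R)))) * p).sum fun i p5 => p5.sum fun j p4 =>
        (PX.to p4).sum fun n4 p3 => (PX.to p3).sum fun n3 p2 => (PX.to p2).sum fun n2 p1 =>
        (PX.to p1).sum fun n1 r =>
        r • (pw x i (J x (pw x n1 c) (pw x n2 a)) *
          pw x j (J x (pw x n3 u) (pw x n4 v)))) s t := by
  obtain ⟨p, hp, k1⟩ := nl3 (e := ptx e k) gk (two_PX h2) (Ext.bx R h)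
    (x_letterx h c) (by rw [ptx_X]) (io R a) (io R u) (io R v) (io R s) (io R t)
  refine ⟨p, hp, ?_⟩
  have k2 := Kill.ev h k1
  simp only [ev_sum, ev_polyx, io_J R h, io_pw h, ev_mul_io R h, ev_pw, ev_J2 R h,
    ev_letter] at k2
  exact k2

end lev

end Pool.Agent.BLie.C2
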