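import Mathlib
import Pool.Agent.BLie.C2.Lev
import Pool.Agent.BLie.Free2
import Pool.Agent.BLie.Struct

/-! The element and the ideal, in characteristic two. -/

set_option linter.unusedSimpArgs false
set_option linter.unusedSectionVars false
set_option linter.unusedVariables false
set_option linter.unnecessarySeqFocus false

namespace Pool.Agent.BLie.C2

open Pool.Agent.BLie Polynomial

universe u v w

section bx

variable {F : Type u} [Field F] {B : Type w} [NonUnitalNonAssocRing B] [Module F B]
  [IsScalarTower F B B] [SMulCommClass F B B]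

/-- Binary-Lie algebras in characteristic two. -/
theorem bx_of (h2 : (2 : F) = 0) (h : IsBinaryLie F B) (x : B) : BX x := by
  have hch : ∀ a : B, a + a = 0 := by
    intro a
    have : (2 : F) • a = 0 := by rw [h2, zero_smul]
    rw [two_smul] at this
    exact this
  have hcomm : ∀ a b : B, a * b = b * a := by
    intro a b
    have e := h.1 (a + b)
    rw [add_mul, mul_add, mul_add, h.1, h.1, zero_add, add_zero] at e
    rw [eq_neg_of_add_eq_zero_left e, neg_eq_iff_add_eq_zero]
    exact hch _
  have hjac : ∀ a b : B, J (a * b) a b = 0 := by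
    intro a b
    have ma : a ∈ NonUnitalAlgebra.adjoin F ({a, b} : Set B) :=
      NonUnitalAlgebra.subset_adjoin F (Or.inl rfl)
    have mb : b ∈ NonUnitalAlgebra.adjoin F ({a, b} : Set B) :=
      NonUnitalAlgebra.subset_adjoin F (Or.inr rfl)
    exact h.2 a b _ (mul_mem ma mb) _ ma _ mb
  have hQ : ∀ q : B, J (x * q) (x * (x * q)) q = 0 := by
    intro q
    have ma : x ∈ NonUnitalAlgebra.adjoin F ({x, q} : Set B) :=
      NonUnitalAlgebra.subset_adjoin F (Or.inl rfl)
    have mb : q ∈ NonUnitalAlgebra.adjoin F ({x, q} : Set B) :=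
      NonUnitalAlgebra.subset_adjoin F (Or.inr rfl)
    exact h.2 x q _ (mul_mem ma mb) _ (mul_mem ma (mul_mem ma mb)) _ mb
  have k1 : ∀ a b c : B, J (a * b) c b + J (c * b) a b = 0 := by
    intro a b c
    have := hjac (a + c) b
    rw [add_mul, J_add1, J_add2, J_add2, hjac, hjac, zero_add, add_zero] at this
    exact this
  refine
    { ch := hch
      comm := hcomm
      lin := ?_
      gm := ?_
      six := ?_ }
  · intro a b c d
    have := k1 a (b + d) c
    rw [mul_add, mul_add, J_add1, J_add3, J_add3, J_add1, J_add3, J_add3] at this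
    have e1 := k1 a b c
    have e2 := k1 a d c
    have e3 : J (a * b) c d + J (a * d) c b + J (c * b) a d + J (c * d) a b =
      (J (a * b) c b + J (a * b) c d + (J (a * d) c b + J (a * d) c d) +
      (J (c * b) a b + J (c * b) a d + (J (c * d) a b + J (c * d) a d))) -
      (J (a * b) c b + J (c * b) a b) - (J (a * d) c d + J (c * d) a d) := by abel
    rw [e3, this, e1, e2]
    simp
  · intro a b
    have s23 : ∀ a b c : B, J a b c = J a c b := by
      intro a b c
      unfold J
      rw [hcomm a b, hcomm b c, hcomm c a]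
      abel
    have e := k1 a x b
    rw [hcomm a x, hcomm b x, J_cyc' (x * a) b x, J_cyc' (x * b) a x] at e
    rw [eq_neg_of_add_eq_zero_left e, s23 x a (x * b), neg_eq_iff_add_eq_zero]
    exact hch _
  · intro a b c
    have e := hQ (a + b + c)
    have e1 := hQ (a + b)
    have e2 := hQ (b + c)
    have e3 := hQ (a + c)
    have f1 := hQ a
    have f2 := hQ b
    have f3 := hQ c
    simp only [mul_add, J_add1, J_add2, J_add3] at e e1 e2 e3
    linear_combination (norm := abel) e - e1 - e2 - e3 + f1 + f2 + f3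

end bx

section ideal

variable {A : Type*} [NonUnitalNonAssocRing A] {x : A}

theorem InAnn.mulC (h : BX x) {z : A} (hz : InAnn z) (q : A) : InAnn (q * z) := by
  have zJ : ∀ a b c : A, z * J a b c = 0 := by
    intro a b c
    unfold J
    rw [mul_add, mul_add, (hz _ _).2, (hz _ _).2, (hz _ _).2]
    simp
  intro s t
  constructor
  · have g1 : gg q z s t = J (q * z) s t := by
      unfold gg
      rw [J_cyc (s * t) q z, J_cyc q z (s * t), (hz _ _).1, add_zero]
    rw [← g1]
    have j1 : J q z s = 0 := by rw [J_cyc, (hz _ _).1]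
    have j2 : J q z t = 0 := by rw [J_cyc, (hz _ _).1]
    rw [h.gS q z s t, (hz s t).1, j1, j2, h.comm (J q s t) z, zJ]
    simp
  · have k := (hz (s * t) q).1
    unfold J at k
    have e1 : ((s * t) * q) * z = 0 := by rw [h.comm, (hz _ _).2]
    rw [(hz s t).2, zero_mul, e1, zero_add, zero_add] at k
    exact k

end ideal

section elem

variable {F : Type u} [Field F] {B : Type*} [NonUnitalNonAssocRing B] [Module F B]
  {B' : Type*} [NonUnitalNonAssocRing B'] [Module F B']

/-- The element. -/
noncomputable def Zc (r : (P4 F)[X][X]) (x y y' : B) : B :=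
  S6 r (fam6 x y y' (x * y + y) (x * y' + y'))

theorem map_Zc (φ : B →ₗ[F] B') (hφ : ∀ a b, φ (a * b) = φ a * φ b) (r : (P4 F)[X][X])
    (x y y' : B) : φ (Zc r x y y') = Zc r (φ x) (φ y) (φ y') := by
  unfold Zc
  rw [map_S6]
  congr 1
  funext n1 n2 n3 n4 j i
  rw [map_fam6 φ hφ]
  simp only [map_add, hφ]

end elem

section annih

variable (F : Type u) [Field F] (B : Type w) [NonUnitalNonAssocRing B] [Module F B]
  [IsScalarTower F B B] [SMulCommClass F B B]

/-- The span of the products. -/
def Sq : Submodule F B := Submodule.span F {w | ∃ a b : B, w = a * b}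

/-- The ideal. -/
def PI : Submodule F B where
  carrier := {z | InAnn z ∧ z ∈ Sq F B}
  add_mem' := fun h h' => ⟨h.1.add h'.1, Submodule.add_mem _ h.2 h'.2⟩
  zero_mem' := ⟨InAnn.zero, Submodule.zero_mem _⟩
  smul_mem' := fun r _ h => ⟨h.1.smul r, Submodule.smul_mem _ r h.2⟩

variable {B}

theorem PI_left {x : B} (h : BX x) {z : B} (hz : z ∈ PI F B) (q : B) : q * z ∈ PI F B :=
  ⟨InAnn.mulC h hz.1 q, Submodule.subset_span ⟨q, z, rfl⟩⟩

theorem PI_right {x : B} (h : BX x) {z : B} (hz : z ∈ PI F B) (q : B) : z * q ∈ PI F B := by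
  rw [h.comm]
  exact PI_left F h hz q

theorem InAnn.sq {z : B} (hz : InAnn z) {y : B} (hy : y ∈ Sq F B) : z * y = 0 := by
  unfold Sq at hy
  induction hy using Submodule.span_induction with
  | mem y hy =>
    obtain ⟨a, b, rfl⟩ := hy
    exact (hz a b).2
  | zero => rw [mul_zero]
  | add y y' _ _ h h' => rw [mul_add, h, h', add_zero]
  | smul r y _ h => rw [mul_smul_comm, h, smul_zero]

theorem PI_sq {z y : B} (hz : z ∈ PI F B) (hy : y ∈ PI F B) : z * y = 0 :=
  InAnn.sq F hz.1 hy.2

theorem Zc_sq (r : (P4 F)[X][X]) (x y y' : B) : Zc r x y y' ∈ Sq F B := by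
  unfold Zc S6
  simp only [Polynomial.sum_def]
  refine Submodule.sum_mem _ fun i _ => Submodule.sum_mem _ fun j _ => Submodule.sum_mem _
    fun n4 _ => Submodule.sum_mem _ fun n3 _ => Submodule.sum_mem _ fun n2 _ =>
    Submodule.sum_mem _ fun n1 _ => Submodule.smul_mem _ _ ?_
  exact Submodule.subset_span ⟨_, _, rfl⟩

end annih

section univ

variable {F : Type u} [Field F] {K : Type v} [Field K] [Algebra F K]

/-- Uniform coefficients. -/
theorem universalC {k l w w' : K} (gk : GoodC k l w w') (h2 : (2 : F) = 0) {B5 : Type u}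
    [NonUnitalNonAssocRing B5] [Module F B5] [IsScalarTower F B5 B5] [SMulCommClass F B5 B5]
    {x : B5} (h5 : BX x) (y y' s t : B5) :
    ∃ r : (P4 F)[X][X], pt6 F k l w' w r ≠ 0 ∧ ∀ {B : Type w} [NonUnitalNonAssocRing B]
      [Module F B] (φ : B5 →ₗ[F] B), (∀ a b, φ (a * b) = φ a * φ b) →
      Kill (Zc (qq (P4 F) * r) (φ x) (φ y) (φ y')) (φ s) (φ t) := by
  obtain ⟨r, hr, hk⟩ := nl4 (e := algebraMap F K) gk h2 h5 y y' (x * y + y) (x * y' + y') s t
  refine ⟨r, hr, ?_⟩
  intro B _ _ φ hφ
  have hk' : Kill (Zc (qq (P4 F) * r) x y y') s t := hk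
  rw [← map_Zc φ hφ]
  constructor
  · rw [← map_JJ φ hφ, hk'.1, map_zero]
  · rw [← hφ, ← hφ, hk'.2, map_zero]

end univ

end Pool.Agent.BLie.C2
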