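import Mathlib
import Pool.Agent.BLie.C2.Elem
import Pool.Agent.BLie.Val6

/-! The value of the element in the model, in characteristic two. -/

set_option linter.unusedSimpArgs false
set_option linter.unusedSectionVars false
set_option linter.unusedVariables false
set_option linter.unnecessarySeqFocus false

namespace Pool.Agent.BLie.C2

open Pool.Agent.BLie Polynomial

universe u v w

section val

variable {K : Type v} [Field K]
variable {M : Type w} [NonUnitalNonAssocRing M] [Module K M]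
  [IsScalarTower K M M] [SMulCommClass K M M]

/-- Parts of the first factor which do not contribute. -/
theorem fam6_drop {x c c' a a' u v R1 R2 S1 S2 : M} {k l w w' : K} (hc : x * c = k • c)
    (hc' : x * c' = l • c') (ha : x * a = k • a) (ha' : x * a' = l • a')
    (hu : x * u = l • u) (hv : x * v = l • v) (j1 : J x c a' = 0) (j2 : J x c' a = 0)
    (hR : J x c' a' = R1 + R2) (hS : J x u v = S1 + S2)
    (h1 : x * R1 = w • R1) (h2 : x * R2 = w' • R2) (h3 : x * S1 = w • S1) (h4 : x * S2 = w' • S2)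
    (z11 : R1 * S1 = 0) (z12 : R1 * S2 = 0) (z21 : R2 * S1 = 0) (z22 : R2 * S2 = 0)
    (n1 n2 n3 n4 j i : ℕ) :
    fam6 x (c + c') (a + a') u v n1 n2 n3 n4 j i = fam6 x c a u v n1 n2 n3 n4 j i := by
  unfold fam6
  rw [pw_add, pw_add, pw_eig hc, pw_eig hc', pw_eig ha, pw_eig ha', pw_eig hu, pw_eig hv]
  simp only [J_add2, J_add3, J_smul2, J_smul3, j1, j2, hR, hS, smul_zero, add_zero, zero_add]
  rw [pw_add, add_mul]
  simp only [pw_smul, pw_add, pw_eig h1, pw_eig h2, pw_eig h3, pw_eig h4, smul_mul_assoc,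
    mul_smul_comm, add_mul, mul_add, z11, z12, z21, z22, smul_zero, add_zero]

end val

section modelval

variable {F : Type u} [Field F] {K : Type v} [Field K] [Algebra F K]

open Model3

theorem model_neC {l w w' : K} (h2 : (2 : K) = 0) (hw : w' = w ^ 2) (n1 : w' - w ≠ 0)
    (n2 : w - w' ^ 2 ≠ 0) (n3 : w ≠ 0) (n4 : w - 1 ≠ 0) (n5 : w' ≠ 0) (n6 : w' - l ≠ 0)
    (n7 : l + 1 ≠ 0) {r : (P4 F)[X][X]} (hr : pt6 F (1 : K) l w' w r ≠ 0) :
    Zc (qq (P4 F) * r) (e 0 : M10 K 1 l w w') (e 1 + e 3) (e 2 + e 4) ≠ 0 := by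
  have hA : ∀ a b : M10 K 1 l w w', a * b = -(b * a) := anti
  have cc1 : (e 0 : M10 K 1 l w w') * (e 1 + e 3) + (e 1 + e 3) = (l + 1) • e 3 := by
    rw [mul_add, e0_e1, e0_e3]
    have : (2 : K) • (e 1 : M10 K 1 l w w') = 0 := by rw [h2, zero_smul]
    linear_combination (norm := module) (1 : K) • this
  have cc2 : (e 0 : M10 K 1 l w w') * (e 2 + e 4) + (e 2 + e 4) = (l + 1) • e 4 := by
    rw [mul_add, e0_e2, e0_e4]
    have : (2 : K) • (e 2 : M10 K 1 l w w') = 0 := by rw [h2, zero_smul]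
    linear_combination (norm := module) (1 : K) • this
  have g1 : J (e 0 : M10 K 1 l w w') (e 1) (e 2) =
      ((2 - w) * (w - 1)) • e 5 + (-((2 - w') * (w' - 1))) • e 6 := by
    unfold J
    rw [hA (e 2) (e 0), e0_e1, e0_e2, hA (e 1 * e 2) (e 0), neg_mul, smul_mul_assoc,
      smul_mul_assoc, hA (e 2) (e 1), e1_e2, mul_sub, mul_smul_comm, mul_smul_comm, e0_e5, e0_e6]
    module
  have g2 : J (e 0 : M10 K 1 l w w') (e 3) (e 4) =
      (-((2 * l - w) * (w - l))) • e 7 + ((2 * l - w') * (w' - l)) • e 8 := by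
    unfold J
    rw [hA (e 4) (e 0), e0_e3, e0_e4, hA (e 3 * e 4) (e 0), neg_mul, smul_mul_assoc,
      smul_mul_assoc, hA (e 4) (e 3), e3_e4, mul_add, mul_neg, mul_smul_comm, mul_smul_comm,
      e0_e7, e0_e8]
    module
  have g3 : J (e 0 : M10 K 1 l w w') ((l + 1) • e 3) ((l + 1) • e 4) =
      (-((l + 1) * (l + 1) * ((2 * l - w) * (w - l)))) • e 7 +
      ((l + 1) * (l + 1) * ((2 * l - w') * (w' - l))) • e 8 := by
    rw [J_smul2, J_smul3, g2]
    module
  have z14 : (e 1 : M10 K 1 l w w') * e 4 = 0 := e_mul_zero 1 4 (by decide)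
  have z41 : (e 4 : M10 K 1 l w w') * e 1 = 0 := e_mul_zero 4 1 (by decide)
  have z32 : (e 3 : M10 K 1 l w w') * e 2 = 0 := e_mul_zero 3 2 (by decide)
  have z23 : (e 2 : M10 K 1 l w w') * e 3 = 0 := e_mul_zero 2 3 (by decide)
  have j1 : J (e 0 : M10 K 1 l w w') (e 1) (e 4) = 0 := by
    unfold J
    rw [e0_e1, hA (e 4) (e 0), e0_e4, neg_mul, smul_mul_assoc, smul_mul_assoc, z14, z41]
    simp
  have j2 : J (e 0 : M10 K 1 l w w') (e 3) (e 2) = 0 := by
    unfold J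
    rw [e0_e3, hA (e 2) (e 0), e0_e2, neg_mul, smul_mul_assoc, smul_mul_assoc, z32, z23]
    simp
  have z77 : (e 7 : M10 K 1 l w w') * e 7 = 0 := e_mul_zero 7 7 (by decide)
  have z78 : (e 7 : M10 K 1 l w w') * e 8 = 0 := e_mul_zero 7 8 (by decide)
  have z87 : (e 8 : M10 K 1 l w w') * e 7 = 0 := e_mul_zero 8 7 (by decide)
  have z88 : (e 8 : M10 K 1 l w w') * e 8 = 0 := e_mul_zero 8 8 (by decide)
  unfold Zc
  rw [cc1, cc2]
  have drop : fam6 (e 0 : M10 K 1 l w w') (e 1 + e 3) (e 2 + e 4) ((l + 1) • e 3)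
      ((l + 1) • e 4) = fam6 (e 0) (e 1) (e 2) ((l + 1) • e 3) ((l + 1) • e 4) := by
    funext n1 n2 n3 n4 j i
    refine fam6_drop (k := (1 : K)) (l := l) (w := w) (w' := w') e0_e1 e0_e3 e0_e2 e0_e4
      (by rw [mul_smul_comm, e0_e3, smul_comm]) (by rw [mul_smul_comm, e0_e4, smul_comm])
      j1 j2 g2 g3
      (by rw [mul_smul_comm, e0_e7, smul_comm]) (by rw [mul_smul_comm, e0_e8, smul_comm])
      (by rw [mul_smul_comm, e0_e7, smul_comm]) (by rw [mul_smul_comm, e0_e8, smul_comm])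
      ?_ ?_ ?_ ?_ n1 n2 n3 n4 j i
    · rw [smul_mul_assoc, mul_smul_comm, z77, smul_zero, smul_zero]
    · rw [smul_mul_assoc, mul_smul_comm, z78, smul_zero, smul_zero]
    · rw [smul_mul_assoc, mul_smul_comm, z87, smul_zero, smul_zero]
    · rw [smul_mul_assoc, mul_smul_comm, z88, smul_zero, smul_zero]
  rw [drop, Z6_val (k := (1 : K)) (l := l) (w := w) (w' := w') e0_e1 e0_e2
    (by rw [mul_smul_comm, e0_e3, smul_comm]) (by rw [mul_smul_comm, e0_e4, smul_comm]) g1 g3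
    (by rw [mul_smul_comm, e0_e5, smul_comm]) (by rw [mul_smul_comm, e0_e6, smul_comm])
    (by rw [mul_smul_comm, e0_e7, smul_comm]) (by rw [mul_smul_comm, e0_e8, smul_comm]) hw]
  rw [smul_mul_assoc, mul_smul_comm, e5_e8, smul_smul, smul_smul]
  refine smul_ne_zero ?_ e9_ne
  refine mul_ne_zero (mul_ne_zero (mul_ne_zero (mul_ne_zero n1 n2) hr) ?_) ?_
  · refine mul_ne_zero ?_ n4
    rw [h2, zero_sub]
    exact neg_ne_zero.mpr n3
  · refine mul_ne_zero (mul_ne_zero n7 n7) (mul_ne_zero ?_ n6)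
    rw [h2, zero_mul, zero_sub]
    exact neg_ne_zero.mpr n5

end modelval

section weights

variable {F : Type u} [Field F]

theorem cub (a b c d : F) (h : algebraMap F (KT F) a + algebraMap F (KT F) b * TT F +
    algebraMap F (KT F) c * TT F ^ 2 + algebraMap F (KT F) d * TT F ^ 3 = 0) :
    a = 0 ∧ b = 0 ∧ c = 0 ∧ d = 0 := by
  have e : algebraMap F[X] (KT F) (C a + C b * X + C c * X ^ 2 + C d * X ^ 3) = 0 := by
    rw [← h]
    unfold TT
    simp only [map_add, map_mul, map_pow]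
    rfl
  have e2 : (C a + C b * X + C c * X ^ 2 + C d * X ^ 3 : F[X]) = 0 :=
    (IsFractionRing.injective F[X] (KT F)) (by rw [e, map_zero])
  have k0 := congrArg (fun p => coeff p 0) e2
  have k1 := congrArg (fun p => coeff p 1) e2
  have k2 := congrArg (fun p => coeff p 2) e2
  have k3 := congrArg (fun p => coeff p 3) e2
  simp [coeff_X, coeff_C, coeff_X_pow] at k0 k1 k2 k3
  exact ⟨k0, k1, k2, k3⟩

theorem cub_ne (a b c d : F) {z : KT F} (h : a ≠ 0 ∨ b ≠ 0 ∨ c ≠ 0 ∨ d ≠ 0)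
    (hz : z = algebraMap F (KT F) a + algebraMap F (KT F) b * TT F +
      algebraMap F (KT F) c * TT F ^ 2 + algebraMap F (KT F) d * TT F ^ 3) : z ≠ 0 := by
  intro h0
  rw [hz] at h0
  obtain ⟨h1, h2, h3, h4⟩ := cub a b c d h0
  rcases h with h | h | h | h
  · exact h h1
  · exact h h2
  · exact h h3
  · exact h h4

theorem two_KT0 (h2 : (2 : F) = 0) : (2 : KT F) = 0 := by
  have := congrArg (algebraMap F (KT F)) h2
  rwa [map_ofNat, map_zero] at this

theorem SpecPc (h2 : (2 : F) = 0) (ρ : KT F) (h : ρ ∈ Spec (1 : KT F) 1 (TT F ^ 2)) :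
    ∃ a c : F, ρ = algebraMap F (KT F) a + algebraMap F (KT F) c * TT F ^ 2 := by
  have h2' := two_KT0 h2
  simp only [Spec, Set.mem_insert_iff, Set.mem_singleton_iff] at h
  rcases h with h | h | h | h | h | h
  · exact ⟨1, 0, by rw [h]; simp⟩
  · exact ⟨1, 0, by rw [h]; simp⟩
  · exact ⟨0, 1, by rw [h]; simp⟩
  · exact ⟨0, 1, by rw [h]; simp only [map_one, map_zero]; linear_combination h2'⟩
  · exact ⟨1, 1, by rw [h]; simp only [map_one]; ring⟩
  · exact ⟨1, 1, by rw [h]; simp only [map_one]; ring⟩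

theorem SpecQc (h2 : (2 : F) = 0) (ρ : KT F) (h : ρ ∈ Spec (TT F ^ 3 : KT F) (TT F ^ 3) (TT F)) :
    ∃ b d : F, ρ = algebraMap F (KT F) b * TT F + algebraMap F (KT F) d * TT F ^ 3 ∧
      (b ≠ 0 ∨ d ≠ 0) := by
  have h2' := two_KT0 h2
  simp only [Spec, Set.mem_insert_iff, Set.mem_singleton_iff] at h
  rcases h with h | h | h | h | h | h
  · exact ⟨0, 1, by rw [h]; simp, Or.inr one_ne_zero⟩
  · exact ⟨0, 1, by rw [h]; simp, Or.inr one_ne_zero⟩
  · exact ⟨1, 0, by rw [h]; simp, Or.inl one_ne_zero⟩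
  · exact ⟨1, 0, by rw [h]; simp only [map_one, map_zero]; linear_combination TT F ^ 3 * h2',
      Or.inl one_ne_zero⟩
  · exact ⟨1, 1, by rw [h]; simp only [map_one]; ring, Or.inl one_ne_zero⟩
  · exact ⟨1, 1, by rw [h]; simp only [map_one]; ring, Or.inl one_ne_zero⟩

theorem goodC (h2 : (2 : F) = 0) : GoodC (1 : KT F) (TT F ^ 3) (TT F) (TT F ^ 2) where
  a := cub_ne 0 1 0 0 (by simp) (by simp)
  b := cub_ne 0 0 1 0 (by simp) (by simp)
  k0 := one_ne_zero
  l0 := cub_ne 0 0 0 1 (by simp) (by simp)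
  k1 := cub_ne 1 0 1 0 (by simp) (by simp)
  l1 := cub_ne 0 1 0 1 (by simp) (by simp only [map_one, map_zero]; ring)
  hd := by
    intro ρ hρ ρ' hρ' h
    obtain ⟨a, c, e1⟩ := SpecPc h2 ρ hρ
    obtain ⟨b, d, e2, k2⟩ := SpecQc h2 ρ' hρ'
    obtain ⟨q1, q2, q3, q4⟩ := cub a (-b) c (-d) (by
      rw [e1, e2] at h
      rw [map_neg, map_neg]
      linear_combination h)
    rcases k2 with k2 | k2
    · exact k2 (neg_eq_zero.mp q2)
    · exact k2 (neg_eq_zero.mp q4)

theorem model_neC' (h2 : (2 : F) = 0) {r : (P4 F)[X][X]}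
    (hr : pt6 F (1 : KT F) (TT F ^ 3) (TT F ^ 2) (TT F) r ≠ 0) :
    Zc (qq (P4 F) * r) (Model3.e 0 : Model3.M10 (KT F) 1 (TT F ^ 3) (TT F) (TT F ^ 2))
      (Model3.e 1 + Model3.e 3) (Model3.e 2 + Model3.e 4) ≠ 0 :=
  model_neC (two_KT0 h2) rfl
    (cub_ne 0 (-1) 1 0 (by simp) (by simp only [map_one, map_neg, map_zero]; ring))
    quart_ne
    (cub_ne 0 1 0 0 (by simp) (by simp))
    (cub_ne (-1) 1 0 0 (by simp) (by simp only [map_one, map_neg, map_zero]; ring))
    (cub_ne 0 0 1 0 (by simp) (by simp))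
    (cub_ne 0 0 1 (-1) (by simp) (by simp only [map_one, map_neg, map_zero]; ring))
    (cub_ne 1 0 0 1 (by simp) (by simp only [map_one, map_zero]; ring)) hr

end weights

end Pool.Agent.BLie.C2
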