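import Mathlib
import Pool.Agent.BLie.C2.Val

/-!
Over every field of characteristic two, the free binary-Lie algebra on every set with at least
three elements has a nonzero ideal with zero square.
-/

set_option autoImplicit false

universe u v w z

open Pool.Agent.BLie Pool.Agent.BLie.C2

theorem Pool.Agent.BLie.C2.trivialIdeal_two (F : Type u) [Field F]
    (h2 : (2 : F) = 0) (X : Type v) (hX : 3 ≤ Cardinal.mk X)
    (B : Type w) [NonUnitalNonAssocRing B] [Module F B] [IsScalarTower F B B]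
    [SMulCommClass F B B] (ι : X → B) (hB : IsFreeBinaryLie.{u, v, w, max u v} F X B ι) :
    ∃ I : Submodule F B, I ≠ ⊥ ∧ (∀ a ∈ I, ∀ b : B, a * b ∈ I ∧ b * a ∈ I) ∧
      ∀ a ∈ I, ∀ b ∈ I, a * b = 0 := by
  classical
  -- three distinct generators
  have hX' : Nonempty (Fin 3 ↪ X) := by
    rw [← Cardinal.lift_mk_le']
    simpa using hX
  obtain ⟨j⟩ := hX'
  have hBX : BX (ι (j 0)) := bx_of h2 hB.binaryLie _
  -- the homomorphism to the model
  let M := Model3.M10 (KT F) 1 (TT F ^ 3) (TT F) (TT F ^ 2)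
  let f : X → M := fun x =>
    if x = j 0 then Model3.e 0 else if x = j 1 then Model3.e 1 + Model3.e 3
      else Model3.e 2 + Model3.e 4
  obtain ⟨ψ1, hψ1⟩ := FB2_lift F X (B := M) Model3.mul_self Model3.jac_val f
  obtain ⟨ψ0, hψ0, -⟩ := hB.extends_uniquely (FB2 F X) QI2_isBinaryLie (fb2 F X)
  have hψ : ∀ x, ψ1 (ψ0 (ι x)) = f x := fun x => by rw [hψ0, hψ1]
  have j01 : j 1 ≠ j 0 := fun h => by simpa using j.injective h
  have j02 : j 2 ≠ j 0 := fun h => by simpa using j.injective h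
  have j12 : j 2 ≠ j 1 := fun h => by simpa using j.injective h
  -- uniform coefficients
  have h5 : BX (fb2 F (Fin 5) 0) := bx_of h2 (QI2_isBinaryLie (F := F)) _
  obtain ⟨r, hr, hk⟩ := universalC.{u, u, w} (F := F) (goodC h2) h2 h5
    (fb2 F (Fin 5) 1) (fb2 F (Fin 5) 2) (fb2 F (Fin 5) 3) (fb2 F (Fin 5) 4)
  refine ⟨PI F B, ?_, fun a ha b => ⟨PI_right F hBX ha b, PI_left F hBX ha b⟩,
    fun a ha b hb => PI_sq F ha hb⟩
  intro hbot
  have hz : Zc (qq (P4 F) * r) (ι (j 0)) (ι (j 1)) (ι (j 2)) ∈ PI F B := by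
    refine ⟨?_, Zc_sq F _ _ _ _⟩
    intro s t
    obtain ⟨φ, hφ⟩ := FB2_lift F (Fin 5) hB.binaryLie.1 hB.binaryLie.jac_val
      ![ι (j 0), ι (j 1), ι (j 2), s, t]
    have h1 := hk (φ : FB2 F (Fin 5) →ₗ[F] B) (fun a b => map_mul φ a b)
    change Kill (Zc (qq (P4 F) * r) (φ _) (φ _) (φ _)) (φ _) (φ _) at h1
    rw [hφ, hφ, hφ, hφ, hφ] at h1
    exact h1
  rw [hbot, Submodule.mem_bot] at hz
  let ψ : B →ₗ[F] M := (ψ1 : FB2 F X →ₗ[F] M) ∘ₗ (ψ0 : B →ₗ[F] FB2 F X)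
  have hψm : ∀ a b, ψ (a * b) = ψ a * ψ b := by
    intro a b
    change ψ1 (ψ0 (a * b)) = ψ1 (ψ0 a) * ψ1 (ψ0 b)
    rw [map_mul, map_mul]
  have h3 := map_Zc ψ hψm (qq (P4 F) * r) (ι (j 0)) (ι (j 1)) (ι (j 2))
  have x0 : ψ (ι (j 0)) = Model3.e 0 := by
    change ψ1 (ψ0 (ι (j 0))) = _
    rw [hψ]
    simp [f]
  have x1 : ψ (ι (j 1)) = Model3.e 1 + Model3.e 3 := by
    change ψ1 (ψ0 (ι (j 1))) = _
    rw [hψ]
    simp [f, j01]
  have x2 : ψ (ι (j 2)) = Model3.e 2 + Model3.e 4 := by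
    change ψ1 (ψ0 (ι (j 2))) = _
    rw [hψ]
    simp [f, j02, j12]
  rw [hz, map_zero, x0, x1, x2] at h3
  exact model_neC' h2 hr h3.symm
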